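import Mathlib
import Pool.Agent.Lib.MP_ca1492_al.PA.PhiA

/-!
# MP_ca1492_al, S5/BcA: maps compatible with idempotents, power series and crossings are linear over the
KLR algebra
-/

set_option autoImplicit false

namespace CA1492.PA

open MvPowerSeries

variable {D : Dat} {n : ℕ}
variable {A A' : Type*} [Ring A] [Algebra ℂ A] [Ring A'] [Algebra ℂ A']
variable {M M' : Type*} [AddCommGroup M] [Module ℂ M] [AddCommGroup M'] [Module ℂ M']

theorem lin_S {E : Wd D n → A} {θ : O n →ₐ[ℂ] A} {Φ S : ℕ → A}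
    {E' : Wd D n → A'} {θ' : O n →ₐ[ℂ] A'} {Φ' S' : ℕ → A'}
    (h : SSys D n E θ Φ S) (h' : SSys D n E' θ' Φ' S')
    (α : A →ₐ[ℂ] Module.End ℂ M) (α' : A' →ₐ[ℂ] Module.End ℂ M') (f : M →ₗ[ℂ] M')
    (hE : ∀ w x, f (α (E w) x) = α' (E' w) (f x))
    (hθ : ∀ g x, f (α (θ g) x) = α' (θ' g) (f x))
    (hΦ : ∀ r, r + 1 < n → ∀ x, f (α (Φ r) x) = α' (Φ' r) (f x))
    (hs : ∀ i j : Fin n, i ≠ j → Function.Surjective (α (θ (X i - X j))))
    (r : ℕ) (x : M) : f (α (S r) x) = α' (S' r) (f x) := by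
  have mul1 : ∀ (a b : A) (x : M), α (a * b) x = α a (α b x) := by
    intro a b x
    rw [map_mul, Module.End.mul_apply]
  have mul2 : ∀ (a b : A') (x : M'), α' (a * b) x = α' a (α' b x) := by
    intro a b x
    rw [map_mul, Module.End.mul_apply]
  by_cases hr : r + 1 < n
  swap
  · rw [h.out r hr, h'.out r hr, map_zero, map_zero, LinearMap.zero_apply, LinearMap.zero_apply,
      map_zero]
  have sum1 : ∀ x : M, ∑ u : Wd D n, α (E u) x = x := by
    intro x
    have h2 := congrArg (fun y => α y x) h.base.E_sum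
    simp only [map_sum, map_one] at h2
    rwa [LinearMap.sum_apply] at h2
  have key : ∀ (w : Wd D n) (x : M), f (α (S r) (α (E w) x)) = α' (S' r) (f (α (E w) x)) := by
    intro w x
    by_cases hw : w ⟨r, by omega⟩ = w ⟨r + 1, hr⟩
    · obtain ⟨y, rfl⟩ := hs ⟨r, by omega⟩ ⟨r + 1, hr⟩ (by
        intro e
        have := congrArg Fin.val e
        simp at this) x
      have e1 := h.eq r hr w hw
      have e2 := h'.eq r hr w hw
      have e3 : α (S r) (α (E w) (α (θ (X ⟨r, by omega⟩ - X ⟨r + 1, hr⟩)) y)) =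
          α ((1 - Φ r) * E w) y := by
        rw [← mul1, ← mul1, ← e1, mul_assoc (S r), ← h.base.θ_E, ← mul_assoc]
      have e4 : α' (S' r) (α' (E' w) (α' (θ' (X ⟨r, by omega⟩ - X ⟨r + 1, hr⟩)) (f y))) =
          α' ((1 - Φ' r) * E' w) (f y) := by
        rw [← mul2, ← mul2, ← e2, mul_assoc (S' r), ← h'.base.θ_E, ← mul_assoc]
      have e6 : ∀ z : M, f (α (1 - Φ r) z) = α' (1 - Φ' r) (f z) := by
        intro z
        rw [map_sub α', map_sub α, LinearMap.sub_apply, LinearMap.sub_apply, map_one, map_one,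
          Module.End.one_apply, Module.End.one_apply, map_sub f, hΦ r hr]
      rw [e3, hE, hθ, e4, mul1, mul2, e6, hE]
    · rw [hE, ← mul1, ← mul2, h.ne r hr w hw, h'.ne r hr w hw, mul1, mul2, hΦ r hr, hE]
  have e0 : x = ∑ w : Wd D n, α (E w) x := (sum1 x).symm
  rw [e0]
  simp only [map_sum]
  exact Finset.sum_congr rfl fun w _ => key w x

theorem lin_all {φ : R D n →ₐ[ℂ] A} {θ : O n →ₐ[ℂ] A} {Φ : ℕ → A}
    {φ' : R D n →ₐ[ℂ] A'} {θ' : O n →ₐ[ℂ] A'} {Φ' : ℕ → A'}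
    (h : SSys D n (fun w => φ (ew w)) θ Φ (fun r => φ (ps r)))
    (h' : SSys D n (fun w => φ' (ew w)) θ' Φ' (fun r => φ' (ps r)))
    (hX : ∀ k, θ (X k) = φ (yk k)) (hX' : ∀ k, θ' (X k) = φ' (yk k))
    (α : A →ₐ[ℂ] Module.End ℂ M) (α' : A' →ₐ[ℂ] Module.End ℂ M') (f : M →ₗ[ℂ] M')
    (hE : ∀ w x, f (α (φ (ew w)) x) = α' (φ' (ew w)) (f x))
    (hθ : ∀ g x, f (α (θ g) x) = α' (θ' g) (f x))
    (hΦ : ∀ r, r + 1 < n → ∀ x, f (α (Φ r) x) = α' (Φ' r) (f x))
    (hs : ∀ i j : Fin n, i ≠ j → Function.Surjective (α (θ (X i - X j))))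
    (a : R D n) : ∀ x : M, f (α (φ a) x) = α' (φ' a) (f x) := by
  have mul1 : ∀ (a b : A) (x : M), α (a * b) x = α a (α b x) := by
    intro a b x
    rw [map_mul, Module.End.mul_apply]
  have mul2 : ∀ (a b : A') (x : M'), α' (a * b) x = α' a (α' b x) := by
    intro a b x
    rw [map_mul, Module.End.mul_apply]
  refine R_induction (p := fun a => ∀ x : M, f (α (φ a) x) = α' (φ' a) (f x)) ?_ ?_ ?_ ?_ ?_ ?_ a
  · intro c x
    rw [AlgHom.commutes, AlgHom.commutes, AlgHom.commutes, AlgHom.commutes,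
      Module.algebraMap_end_apply, Module.algebraMap_end_apply, map_smul]
  · intro w x
    exact hE w x
  · intro k x
    rw [← hX, ← hX']
    exact hθ _ x
  · intro r x
    exact lin_S h h' α α' f hE hθ hΦ hs r x
  · intro a b ha hb x
    rw [map_add, map_add, map_add, map_add, LinearMap.add_apply, LinearMap.add_apply, map_add,
      ha, hb]
  · intro a b ha hb x
    rw [map_mul φ, map_mul φ', mul1, mul2, ha, hb]

end CA1492.PA
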