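import Mathlib
import Pool.Agent.Lib.MP_ca1492_al.Cmp.DatIso
import Pool.Agent.Lib.MP_ca1492_al.D5.Sym

/-!
# MP_ca1492_al, S5/BcB: transport of the crossings and of the renaming of strands along isomorphisms of
strand data
-/

set_option autoImplicit false

namespace Pool.Agent.Lib.MP_ca1492_al.D5

open Pool.Agent.Lib.MP_ca1492_al.P
open Topology Matrix ValuativeRel TensorProduct CA1492

noncomputable section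

variable {F : Type} [Field F] [ValuativeRel F] [TopologicalSpace F]
  [IsNonarchimedeanLocalField F]
variable {κ₁ κ₂ : Type} [Fintype κ₁] [DecidableEq κ₁] [Fintype κ₂] [DecidableEq κ₂]
variable {V₁ V₂ : Type} [AddCommGroup V₁] [Module ℂ V₁] [AddCommGroup V₂] [Module ℂ V₂]
variable {n : ℕ}
variable {c₁ : κ₁ → Fin n} {ρ₁ : Representation ℂ (lev F c₁) V₁}
  {c₂ : κ₂ → Fin n} {ρ₂ : Representation ℂ (lev F c₂) V₂} (s : SIso c₁ ρ₁ c₂ ρ₂)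

theorem BcB_hβ (x y : Fin n) : (cst (s.ε x) : Unit) = cst (s.ε y) ↔ (cst x : Unit) = cst y :=
  Iff.rfl

theorem BcB_ord {σ₁ σ₂ : Equiv.Perm (Fin n)} (h : σ₂ = s.ε * σ₁) (x y : Fin n)
    (_ : (cst x : Unit) = cst y) :
    ordP σ₁ x < ordP σ₁ y ↔ ordP σ₂ (s.ε x) < ordP σ₂ (s.ε y) := by
  rw [Sym_ordP s.ε σ₁ σ₂ h, Sym_ordP s.ε σ₁ σ₂ h]

/-- transport of the induced representations -/
def Js {σ₁ σ₂ : Equiv.Perm (Fin n)} (h : σ₂ = s.ε * σ₁) : IP c₁ ρ₁ σ₁ ≃ₗ[ℂ] IP c₂ ρ₂ σ₂ :=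
  s.I (BcB_hβ s) (ordP_inj σ₁) (ordP_inj σ₂) (BcB_ord s h)

/-- transport of the groups -/
def JT : lev F (fun i => (cst (c₁ i) : Unit)) ≃ₜ* lev F (fun i => (cst (c₂ i) : Unit)) :=
  s.T (BcB_hβ s)

theorem JT_val (g : lev F (fun i => (cst (c₁ i) : Unit))) : (JT s g).1 = glT F s.e g.1 := rfl

theorem Js_apply {σ₁ σ₂ : Equiv.Perm (Fin n)} (h : σ₂ = s.ε * σ₁) (f : IP c₁ ρ₁ σ₁)
    (g : lev F (fun i => (cst (c₁ i) : Unit))) : (Js s h f).1 (JT s g) = s.B (f.1 g) :=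
  s.I_apply _ _ _ _ f g

theorem Js_one {σ₁ σ₂ : Equiv.Perm (Fin n)} (h : σ₂ = s.ε * σ₁) (f : IP c₁ ρ₁ σ₁) :
    (Js s h f).1 1 = s.B (f.1 1) := by
  have h1 := Js_apply s h f 1
  rwa [map_one] at h1

theorem Js_equi {σ₁ σ₂ : Equiv.Perm (Fin n)} (h : σ₂ = s.ε * σ₁)
    (g : lev F (fun i => (cst (c₁ i) : Unit))) (f : IP c₁ ρ₁ σ₁) :
    Js s h (IRp c₁ cst (ordP σ₁) (ordP_inj σ₁) (hat c₁ ρ₁) g f) =
      IRp c₂ cst (ordP σ₂) (ordP_inj σ₂) (hat c₂ ρ₂) (JT s g) (Js s h f) :=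
  s.I_equi _ _ _ _ g f

theorem Js_op {σ₁ σ₂ : Equiv.Perm (Fin n)} (h : σ₂ = s.ε * σ₁) (y : MvPowerSeries (Fin n) ℂ)
    (f : IP c₁ ρ₁ σ₁) :
    Js s h (opI c₁ cst (ordP σ₁) (ordP_inj σ₁) ρ₁ y f) =
      opI c₂ cst (ordP σ₂) (ordP_inj σ₂) ρ₂ (MvPowerSeries.rename s.ε y) (Js s h f) :=
  s.I_op _ _ _ _ y f

theorem BcB_ldP (S₁ : RkSys c₁ ρ₁) (S₂ : RkSys c₂ ρ₂)
    (he : ∀ a b : Fin n, a ≠ b → S₂.e (s.ε a) (s.ε b) = MvPowerSeries.rename s.ε (S₁.e a b))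
    {σ₁ σ₂ τ₁ τ₂ : Equiv.Perm (Fin n)} (h : σ₂ = s.ε * σ₁) (h' : τ₂ = s.ε * τ₁) :
    MvPowerSeries.rename s.ε (ldP S₁ σ₁ τ₁) = ldP S₂ σ₂ τ₂ := by
  unfold ldP
  rw [map_prod]
  refine Finset.prod_bij (fun p _ => (s.ε p.1, s.ε p.2)) ?_ ?_ ?_ ?_
  · intro p hp
    unfold cross at hp ⊢
    simp only [Finset.mem_filter, Finset.mem_univ, true_and] at hp ⊢
    rw [Sym_ordP s.ε σ₁ σ₂ h, Sym_ordP s.ε σ₁ σ₂ h, Sym_ordP s.ε τ₁ τ₂ h', Sym_ordP s.ε τ₁ τ₂ h']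
    exact hp
  · intro p _ p' _ hij
    simp only [Prod.mk.injEq] at hij
    exact Prod.ext (s.ε.injective hij.1) (s.ε.injective hij.2)
  · rintro ⟨i, j⟩ hp
    obtain ⟨i, rfl⟩ := s.ε.surjective i
    obtain ⟨j, rfl⟩ := s.ε.surjective j
    refine ⟨(i, j), ?_, rfl⟩
    unfold cross at hp ⊢
    simp only [Finset.mem_filter, Finset.mem_univ, true_and] at hp ⊢
    rw [Sym_ordP s.ε σ₁ σ₂ h, Sym_ordP s.ε σ₁ σ₂ h, Sym_ordP s.ε τ₁ τ₂ h',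
      Sym_ordP s.ε τ₁ τ₂ h'] at hp
    exact hp
  · intro p hp
    unfold cross at hp
    simp only [Finset.mem_filter, Finset.mem_univ, true_and] at hp
    refine (he p.1 p.2 ?_).symm
    intro h0
    rw [h0] at hp
    exact lt_irrefl _ hp.1

/-- transport of the crossings -/
theorem Js_TT (hcs : Function.Surjective c₂) (hρ : IsSm ρ₂) (hi : Irr ρ₂) (hc : Cusp c₂ ρ₂)
    (S₁ : RkSys c₁ ρ₁) (S₂ : RkSys c₂ ρ₂)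
    (he : ∀ a b : Fin n, a ≠ b → S₂.e (s.ε a) (s.ε b) = MvPowerSeries.rename s.ε (S₁.e a b))
    {σ₁ σ₂ τ₁ τ₂ : Equiv.Perm (Fin n)} (h : σ₂ = s.ε * σ₁) (h' : τ₂ = s.ε * τ₁)
    (f : IP c₁ ρ₁ σ₁) :
    Js s h' (TT c₁ ρ₁ S₁ σ₁ τ₁ f) = TT c₂ ρ₂ S₂ σ₂ τ₂ (Js s h f) := by
  have hg := TT_good c₁ ρ₁ S₁ σ₁ τ₁
  let Φ : IP c₂ ρ₂ σ₂ →ₗ[ℂ] IP c₂ ρ₂ τ₂ :=
    (Js s h' : _ →ₗ[ℂ] _) ∘ₗ TT c₁ ρ₁ S₁ σ₁ τ₁ ∘ₗ ((Js s h).symm : _ →ₗ[ℂ] _)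
  have hΦ : ∀ f, Φ (Js s h f) = Js s h' (TT c₁ ρ₁ S₁ σ₁ τ₁ f) := by
    intro f
    show Js s h' (TT c₁ ρ₁ S₁ σ₁ τ₁ ((Js s h).symm (Js s h f))) = _
    rw [LinearEquiv.symm_apply_apply]
  have key : Φ = TT c₂ ρ₂ S₂ σ₂ τ₂ := by
    refine TT_unique c₂ hcs ρ₂ hρ hi hc S₂ σ₂ τ₂ Φ ⟨?_, ?_⟩ ?_
    · intro g' f'
      obtain ⟨g, rfl⟩ := (JT s).surjective g'
      obtain ⟨f, rfl⟩ := (Js s h).surjective f'
      rw [← Js_equi, hΦ, hΦ, hg.mem.1, Js_equi]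
    · intro y' f'
      obtain ⟨f, rfl⟩ := (Js s h).surjective f'
      rw [← DatIso_symm s.ε y', ← Js_op, hΦ, hΦ, hg.mem.2, Js_op]
    · have h1 := s.isLead (BcB_hβ s) (ordP_inj σ₁) (ordP_inj σ₂) (BcB_ord s h) (BcB_ord s h')
        (ev1 c₁ cst (ordP τ₁) (ordP_inj τ₁) (hat c₁ ρ₁) ∘ₗ TT c₁ ρ₁ S₁ σ₁ τ₁)
        (ldP S₁ σ₁ τ₁) hg.lead
      rw [BcB_ldP s S₁ S₂ he h h'] at h1
      have h2 : ev1 c₂ cst (ordP τ₂) (ordP_inj τ₂) (hat c₂ ρ₂) ∘ₗ Φ =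
          s.Fn (BcB_hβ s) (ordP_inj σ₁) (ordP_inj σ₂) (BcB_ord s h)
            (ev1 c₁ cst (ordP τ₁) (ordP_inj τ₁) (hat c₁ ρ₁) ∘ₗ TT c₁ ρ₁ S₁ σ₁ τ₁) := by
        refine LinearMap.ext fun f' => ?_
        obtain ⟨f, rfl⟩ := (Js s h).surjective f'
        refine Eq.trans ?_ (s.Fn_apply (BcB_hβ s) (ordP_inj σ₁) (ordP_inj σ₂) (BcB_ord s h)
          (ev1 c₁ cst (ordP τ₁) (ordP_inj τ₁) (hat c₁ ρ₁) ∘ₗ TT c₁ ρ₁ S₁ σ₁ τ₁) f).symm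
        show (Φ (Js s h f)).1 1 = _
        rw [hΦ, Js_one]
        rfl
      show IsLead c₂ cst (ordP σ₂) (ordP_inj σ₂) (ordP τ₂) ρ₂ _ _
      rw [h2]
      exact h1
  rw [← key, hΦ]

theorem BcB_perm (w₁ : Equiv.Perm κ₁) (w₂ : Equiv.Perm κ₂) (hw : ∀ i, s.e (w₁ i) = w₂ (s.e i)) :
    glT F s.e (permG F w₁) = permG F w₂ := by
  refine Units.ext (Matrix.ext fun i j => ?_)
  obtain ⟨i, rfl⟩ := s.e.surjective i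
  obtain ⟨j, rfl⟩ := s.e.surjective j
  rw [glT_apply]
  show (if w₁ j = i then (1 : F) else 0) = if w₂ (s.e j) = s.e i then 1 else 0
  rw [← hw]
  simp only [s.e.injective.eq_iff]

/-- transport of the renaming of strands -/
theorem Js_SW {W₁ W₂ : Subgroup (Equiv.Perm (Fin n))} (D₁ : SymD c₁ ρ₁ W₁) (D₂ : SymD c₂ ρ₂ W₂)
    (w₁ : W₁) (w₂ : W₂) (hbp : ∀ i, s.e (D₁.bp w₁ i) = D₂.bp w₂ (s.e i))
    (hA : ∀ v, s.A (D₁.A w₁ v) = D₂.A w₂ (s.A v))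
    (hw : (w₂ : Equiv.Perm (Fin n)) * s.ε = s.ε * (w₁ : Equiv.Perm (Fin n)))
    {σ₁ τ₁ σ₂ τ₂ : Equiv.Perm (Fin n)} (h₁ : τ₁ = (w₁ : Equiv.Perm (Fin n)) * σ₁)
    (h₂ : τ₂ = (w₂ : Equiv.Perm (Fin n)) * σ₂) (h : σ₂ = s.ε * σ₁) (h' : τ₂ = s.ε * τ₁)
    (f : IP c₁ ρ₁ σ₁) :
    Js s h' (SW D₁ w₁ σ₁ τ₁ h₁ f) = SW D₂ w₂ σ₂ τ₂ h₂ (Js s h f) := by
  have hAR : ∀ x, s.B (D₁.AR w₁ x) = D₂.AR w₂ (s.B x) := by
    intro x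
    induction x using TensorProduct.induction_on with
    | zero => simp only [map_zero]
    | add x y hx hy => rw [map_add, map_add, map_add, map_add, hx, hy]
    | tmul v p =>
      rw [SymD.AR_tmul, SIso.B_tmul, SIso.B_tmul, SymD.AR_tmul, hA]
      congr 1
      show MvPolynomial.rename s.ε (MvPolynomial.rename (w₁ : Equiv.Perm (Fin n)) p) =
        MvPolynomial.rename (w₂ : Equiv.Perm (Fin n)) (MvPolynomial.rename s.ε p)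
      rw [MvPolynomial.rename_rename, MvPolynomial.rename_rename]
      congr 1
      have h3 : (⇑s.ε ∘ ⇑(w₁ : Equiv.Perm (Fin n)) : Fin n → Fin n) =
          ⇑(w₂ : Equiv.Perm (Fin n)) ∘ ⇑s.ε := by
        funext x
        exact (congrArg (fun z : Equiv.Perm (Fin n) => z x) hw).symm
      rw [h3]
  have hp : (permC F c₂ (D₂.bp w₂))⁻¹ = JT s ((permC F c₁ (D₁.bp w₁))⁻¹) := by
    rw [map_inv]
    congr 1
    refine Subtype.ext ?_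
    exact (BcB_perm s _ _ hbp).symm
  refine Subtype.ext (funext fun g' => ?_)
  obtain ⟨g, rfl⟩ := (JT s).surjective g'
  rw [Js_apply, Sym_SW_apply, Sym_SW_apply, hp, ← map_mul, Js_apply, hAR]

end

end Pool.Agent.Lib.MP_ca1492_al.D5
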