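import Mathlib
import Pool.Agent.Lib.MP_ca1492_al.D5.Sys
import Pool.Agent.Lib.MP_ca1492_al.P.TrCusp

/-!
# MP_ca1492_al, S5/WR: the representation on the module of the words

`WR P`: the representation of `GL κ F` on the module `WT ℓ (SWt P)` of the words.
-/

set_option autoImplicit false

namespace Pool.Agent.Lib.MP_ca1492_al.L

open Topology Matrix TensorProduct ValuativeRel CA1492 CA1492.PA
open Pool.Agent.Lib.MP_ca1492_al.P Pool.Agent.Lib.MP_ca1492_al.Q Pool.Agent.Lib.MP_ca1492_al.D5

noncomputable section

variable {F : Type} [Field F] [ValuativeRel F] [TopologicalSpace F]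
  [IsNonarchimedeanLocalField F]

section

variable {κ : Type} [Fintype κ] [DecidableEq κ]
variable {V : Type} [AddCommGroup V] [Module ℂ V]
variable {n : ℕ}
variable {D : Dat} {ℓ : Fin n → D.J} {c : κ → Fin n} {ρ : Representation ℂ (lev F c) V}

variable (F) in
/-- elements of `GL` as elements of the block group of the constant colouring -/
def toC (c : κ → Fin n) : GL κ F →* lev F (fun i => (cst (c i) : Unit)) :=
  (levC F κ).toMulEquiv.toMonoidHom

theorem toC_val (c : κ → Fin n) (g : GL κ F) : (toC F c g).1 = g := rfl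

/-- the representation of `GL κ F` on the module of the words -/
def WR (P : Strands D ℓ c ρ) : Representation ℂ (GL κ F) (WT ℓ (SWt P)) where
  toFun g := gW (wsys P) (toC F c g)
  map_one' := by
    refine LinearMap.ext fun x => fam_ext fun σ => ?_
    rw [map_one]
    show gI c ρ 1 σ (fam x σ) = fam x σ
    unfold gI
    rw [map_one]
    rfl
  map_mul' := by
    intro a b
    refine LinearMap.ext fun x => fam_ext fun σ => ?_
    rw [map_mul]
    show gI c ρ (toC F c a * toC F c b) σ (fam x σ) =
      gI c ρ (toC F c a) σ (gI c ρ (toC F c b) σ (fam x σ))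
    unfold gI
    rw [map_mul]
    rfl

theorem WR_apply (P : Strands D ℓ c ρ) (g : GL κ F) (x : WT ℓ (SWt P))
    (σ : Equiv.Perm (Fin n)) : fam (WR P g x) σ = gI c ρ (toC F c g) σ (fam x σ) := rfl

end

end

end Pool.Agent.Lib.MP_ca1492_al.L
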