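import Mathlib
import Pool.Agent.Lib.MP_ca1492_al.D5.CK
import Pool.Agent.Lib.MP_ca1492_al.L5.Defs
import Pool.Agent.Lib.MP_ca1492_al.S5.WR

/-!
# MP_ca1492_al, S5/BdA: the algebra of the equivariant endomorphisms
-/

set_option autoImplicit false

namespace Pool.Agent.Lib.MP_ca1492_al.L

open Topology Matrix TensorProduct ValuativeRel CA1492 CA1492.PA
open Pool.Agent.Lib.MP_ca1492_al.P Pool.Agent.Lib.MP_ca1492_al.Q Pool.Agent.Lib.MP_ca1492_al.D5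

noncomputable section

variable {F : Type} [Field F] [ValuativeRel F] [TopologicalSpace F]
  [IsNonarchimedeanLocalField F]

section

variable {κ : Type} [Fintype κ] [DecidableEq κ]
variable {V : Type} [AddCommGroup V] [Module ℂ V]
variable {n : ℕ}
variable {D : Dat} {ℓ : Fin n → D.J} {c : κ → Fin n} {ρ : Representation ℂ (lev F c) V}

theorem bd_eqE (P : Strands D ℓ c ρ) : EqE (wsys P) = EndG (WR P) := by
  ext a
  constructor
  · intro h g x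
    exact h (toC F c g) x
  · intro h γ x
    exact h γ.1 x

/-- transport of the data to an equal subalgebra -/
theorem bd_tr (P : Strands D ℓ c ρ) (S' : Subalgebra ℂ (Module.End ℂ (WT ℓ (SWt P))))
    (h : EqE (wsys P) = S') :
    ∃ (φ : R D n →ₐ[ℂ] S') (θ : O n →ₐ[ℂ] S') (Φ : ℕ → S'),
      CKLR D n φ θ (orb ℓ) ∧
      (∀ (w : Wd D n) x (σ : Equiv.Perm (Fin n)),
        fam ((φ (ew w)).1 x) σ = if ℓ ∘ σ = w then fam x σ else 0) ∧
      (∀ f x σ, fam ((θ f).1 x) σ =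
        opI c cst (ordP σ) (ordP_inj σ) ρ (rn σ f) (fam x σ)) ∧
      (∀ r, r + 1 < n → ∀ x σ, fam ((Φ r).1 x) σ =
        TT c ρ P.S (σ * sw n r) σ (fam x (σ * sw n r))) ∧
      SSys D n (fun w => φ (ew w)) θ Φ (fun r => φ (ps r)) := by
  subst h
  obtain ⟨φ, h1, h2, h3, h4⟩ := ck P
  have e1 : (orb ℓ : Set (Wd D n)) = {w | ∃ σ : Equiv.Perm (Fin n), ℓ ∘ σ = w} := by
    ext w
    exact ⟨fun ⟨σ, hσ⟩ => ⟨σ, hσ.symm⟩, fun ⟨σ, hσ⟩ => ⟨σ, hσ.symm⟩⟩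
  refine ⟨φ, wθ (wsys P), wΦ (wsys P), ?_, ?_, ?_, ?_, ?_⟩
  · rw [e1]
    exact h4
  · intro w x σ
    rw [h1, wE_apply]
  · intro f x σ
    rw [wθ_apply]
    rfl
  · intro r hr x σ
    rw [wΦ_apply (wsys P) r hr]
  · have e2 : (fun w => φ (ew w)) = wE (wsys P) := funext h1
    rw [e2]
    exact h3

theorem bd_alg (P : Strands D ℓ c ρ) :
    ∃ (φ : R D n →ₐ[ℂ] EndG (WR P)) (θ : O n →ₐ[ℂ] EndG (WR P)) (Φ : ℕ → EndG (WR P)),
      CKLR D n φ θ (orb ℓ) ∧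
      (∀ (w : Wd D n) x (σ : Equiv.Perm (Fin n)),
        fam ((φ (ew w)).1 x) σ = if ℓ ∘ σ = w then fam x σ else 0) ∧
      (∀ f x σ, fam ((θ f).1 x) σ =
        opI c cst (ordP σ) (ordP_inj σ) ρ (rn σ f) (fam x σ)) ∧
      (∀ r, r + 1 < n → ∀ x σ, fam ((Φ r).1 x) σ =
        TT c ρ P.S (σ * sw n r) σ (fam x (σ * sw n r))) ∧
      SSys D n (fun w => φ (ew w)) θ Φ (fun r => φ (ps r)) :=
  bd_tr P _ (bd_eqE P)

end

end

end Pool.Agent.Lib.MP_ca1492_al.L
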