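import Mathlib
import Pool.Agent.Lib.MP_ca1492_al.S5.WR

/-!
# MP_ca1492_al, S5/BdI: the module of the words is smooth and injective
-/

set_option autoImplicit false

namespace Pool.Agent.Lib.MP_ca1492_al.L

open Topology Matrix TensorProduct ValuativeRel CA1492 CA1492.PA
open Pool.Agent.Lib.MP_ca1492_al.P Pool.Agent.Lib.MP_ca1492_al.Q Pool.Agent.Lib.MP_ca1492_al.D5

noncomputable section

variable {F : Type} [Field F] [ValuativeRel F] [TopologicalSpace F]
  [IsNonarchimedeanLocalField F]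

section

variable {κ : Type} [Fintype κ] [DecidableEq κ]
variable {V : Type} [AddCommGroup V] [Module ℂ V]
variable {n : ℕ}
variable {D : Dat} {ℓ : Fin n → D.J} {c : κ → Fin n} {ρ : Representation ℂ (lev F c) V}

theorem bd_sm (P : Strands D ℓ c ρ) : IsSm (WR P) := by
  intro x
  have h1 : {g : GL κ F | WR P g x = x} = ⋂ σ : Equiv.Perm (Fin n),
      (toC F c) ⁻¹' {g | IRp c cst (ordP σ) (ordP_inj σ) (hat c ρ) g (fam x σ) = fam x σ} := by
    ext g
    simp only [Set.mem_setOf_eq, Set.mem_iInter, Set.mem_preimage]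
    constructor
    · intro h σ
      exact congrArg (fun y => fam y σ) h
    · intro h
      exact fam_ext h
  rw [h1]
  refine isOpen_iInter_of_finite fun σ => ?_
  exact (ISp_smooth c cst (ordP σ) (ordP_inj σ) (hat c ρ) (fam x σ)).preimage
    (levC F κ).continuous_toFun

/-- the components are injective representations -/
theorem bd_injI (P : Strands D ℓ c ρ) (σ : Equiv.Perm (Fin n)) {E : Type} [AddCommGroup E]
    [Module ℂ E] (π : Representation ℂ (GL κ F) E) (hπ : IsSm π) (U : Submodule ℂ E)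
    (hU : Stab π U) (f : U →ₗ[ℂ] IP c ρ σ)
    (hf : ∀ (g : GL κ F) (u : U), f (subRep π U hU g u) = gI c ρ (toC F c g) σ (f u)) :
    ∃ G : E →ₗ[ℂ] IP c ρ σ, (∀ (g : GL κ F) (x : E), G (π g x) = gI c ρ (toC F c g) σ (G x)) ∧
      ∀ u : U, G u = f u := by
  have h1 := (pull_inj (levC F κ) (IRp c cst (ordP σ) (ordP_inj σ) (hat c ρ))).2
    (ISp_inj c P.hcs cst (ordP σ) (ordP_inj σ) ρ P.hρ P.hi P.hc)
  exact h1 E π hπ U hU f hf

theorem bd_inj (P : Strands D ℓ c ρ) : IsInjSm (WR P) := by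
  intro E _ _ π hπ U hU f hf
  have hcomp : ∀ σ : Equiv.Perm (Fin n), ∃ G : E →ₗ[ℂ] IP c ρ σ,
      (∀ (g : GL κ F) (x : E), G (π g x) = gI c ρ (toC F c g) σ (G x)) ∧
      ∀ u : U, G u = fam (f u) σ := by
    intro σ
    exact bd_injI P σ π hπ U hU
      { toFun := fun u => fam (f u) σ
        map_add' := fun a b => by rw [map_add, fam_add]
        map_smul' := fun z a => by rw [map_smul, fam_smul]; rfl }
      (fun g u => congrArg (fun y => fam y σ) (hf g u))
  choose G hG hGU using hcomp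
  haveI : Fintype (stab ℓ) := Fintype.ofFinite _
  have hW := wsys P
  have hN : (Fintype.card (stab ℓ) : ℂ) ≠ 0 := Nat.cast_ne_zero.2 Fintype.card_ne_zero
  -- the average
  let a : E → ∀ σ : Equiv.Perm (Fin n), IP c ρ σ := fun e σ =>
    (Fintype.card (stab ℓ) : ℂ)⁻¹ • ∑ t : stab ℓ, SWt P ((t : Equiv.Perm (Fin n))⁻¹ * σ) σ
      (G ((t : Equiv.Perm (Fin n))⁻¹ * σ) e)
  have ha : ∀ e, ∀ t : Equiv.Perm (Fin n), ℓ ∘ t = ℓ → ∀ σ σ', σ' = t * σ →
      SWt P σ σ' (a e σ) = a e σ' := by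
    intro e t ht σ σ' hσ
    show SWt P σ σ' (_ • ∑ _, _) = _ • ∑ _, _
    rw [map_smul, map_sum]
    congr 1
    refine Fintype.sum_equiv (Equiv.mulLeft (⟨t, ht⟩ : stab ℓ)) _ _ fun s => ?_
    have h1 : ((Equiv.mulLeft (⟨t, ht⟩ : stab ℓ) s : stab ℓ) : Equiv.Perm (Fin n))⁻¹ * σ' =
        (s : Equiv.Perm (Fin n))⁻¹ * σ := by
      show (t * (s : Equiv.Perm (Fin n)))⁻¹ * σ' = _
      rw [hσ]
      group
    have h2 : ∀ τ : Equiv.Perm (Fin n), τ = (s : Equiv.Perm (Fin n))⁻¹ * σ →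
        SWt P σ σ' (SWt P ((s : Equiv.Perm (Fin n))⁻¹ * σ) σ
          (G ((s : Equiv.Perm (Fin n))⁻¹ * σ) e)) = SWt P τ σ' (G τ e) := by
      rintro τ rfl
      exact hW.S_S (s : Equiv.Perm (Fin n)) t s.2 ht _ _ _ (by group) hσ _
    exact h2 _ h1
  have hadd : ∀ e e' σ, a (e + e') σ = a e σ + a e' σ := by
    intro e e' σ
    simp only [a, map_add, Finset.sum_add_distrib, smul_add]
  have hsmul : ∀ (z : ℂ) e σ, a (z • e) σ = z • a e σ := by
    intro z e σ
    simp only [a, map_smul, ← Finset.smul_sum]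
    rw [smul_comm]
  refine ⟨{ toFun := fun e => mkW (a e) (ha e)
            map_add' := fun e e' => fam_ext fun σ => hadd e e' σ
            map_smul' := fun z e => fam_ext fun σ => hsmul z e σ },
    fun g e => fam_ext fun σ => ?_, fun u => fam_ext fun σ => ?_⟩
  · show _ • ∑ _, _ = gI c ρ (toC F c g) σ (_ • ∑ _, _)
    rw [map_smul, map_sum]
    congr 1
    refine Finset.sum_congr rfl fun s _ => ?_
    rw [hG]
    exact hW.g_S (toC F c g) (s : Equiv.Perm (Fin n)) s.2 _ _ (by group) _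
  · show (Fintype.card (stab ℓ) : ℂ)⁻¹ • ∑ t : stab ℓ, SWt P ((t : Equiv.Perm (Fin n))⁻¹ * σ) σ
      (G ((t : Equiv.Perm (Fin n))⁻¹ * σ) u) = fam (f u) σ
    have h1 : ∀ s : stab ℓ, SWt P ((s : Equiv.Perm (Fin n))⁻¹ * σ) σ
        (G ((s : Equiv.Perm (Fin n))⁻¹ * σ) u) = fam (f u) σ := by
      intro s
      rw [hGU]
      exact fam_S (f u) (s : Equiv.Perm (Fin n)) s.2 _ _ (by group)
    rw [Finset.sum_congr rfl fun s _ => h1 s, Finset.sum_const, Finset.card_univ,
      ← Nat.cast_smul_eq_nsmul ℂ, smul_smul, inv_mul_cancel₀ hN, one_smul]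

end

end

end Pool.Agent.Lib.MP_ca1492_al.L
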