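import Mathlib
import Pool.Agent.Lib.MP_ca1492_al.D5.Cog
import Pool.Agent.Lib.MP_ca1492_al.L5.Defs
import Pool.Agent.Lib.MP_ca1492_al.S5.WR

/-!
# MP_ca1492_al, S5/Faith: the cogenerator property
-/

set_option autoImplicit false

namespace Pool.Agent.Lib.MP_ca1492_al.L

open Topology Matrix TensorProduct ValuativeRel CA1492 CA1492.PA
open Pool.Agent.Lib.MP_ca1492_al.P Pool.Agent.Lib.MP_ca1492_al.Q Pool.Agent.Lib.MP_ca1492_al.D5

noncomputable section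

variable {F : Type} [Field F] [ValuativeRel F] [TopologicalSpace F]
  [IsNonarchimedeanLocalField F]

section

variable {κ : Type} [Fintype κ] [DecidableEq κ]
variable {V : Type} [AddCommGroup V] [Module ℂ V]
variable {n : ℕ}
variable {D : Dat} {ℓ : Fin n → D.J} {c : κ → Fin n} {ρ : Representation ℂ (lev F c) V}

theorem SWt_zero (P : Strands D ℓ c ρ) (σ σ' : Equiv.Perm (Fin n)) (h : σ' * σ⁻¹ ∉ stab ℓ) :
    SWt P σ σ' = 0 := by
  unfold SWt
  rw [dif_neg h]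

/-- the embedding of a component -/
def embI (P : Strands D ℓ c ρ) (σ : Equiv.Perm (Fin n)) : IP c ρ σ →ₗ[ℂ] WT ℓ (SWt P) where
  toFun y := mkW (fun σ' => SWt P σ σ' y) (by
    intro t ht σ₁ σ₂ h12
    by_cases h : σ₁ * σ⁻¹ ∈ stab ℓ
    · exact (wsys P).S_S (σ₁ * σ⁻¹) t h ht σ σ₁ σ₂ (by group) h12 y
    · have h2 : σ₂ * σ⁻¹ ∉ stab ℓ := by
        intro h3
        apply h
        have h4 : σ₁ * σ⁻¹ = t⁻¹ * (σ₂ * σ⁻¹) := by
          rw [h12]
          group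
        rw [h4]
        exact (stab ℓ).mul_mem ((stab ℓ).inv_mem ht) h3
      rw [SWt_zero P σ σ₁ h, SWt_zero P σ σ₂ h2, LinearMap.zero_apply, LinearMap.zero_apply,
        map_zero])
  map_add' y y' := fam_ext fun σ' => map_add (SWt P σ σ') y y'
  map_smul' z y := fam_ext fun σ' => map_smul (SWt P σ σ') z y

theorem fam_embI (P : Strands D ℓ c ρ) (σ σ' : Equiv.Perm (Fin n)) (y : IP c ρ σ) :
    fam (embI P σ y) σ' = SWt P σ σ' y := rfl

theorem fam_embI_self (P : Strands D ℓ c ρ) (σ : Equiv.Perm (Fin n)) (y : IP c ρ σ) :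
    fam (embI P σ y) σ = y := (wsys P).S_one σ y

theorem embI_equi (P : Strands D ℓ c ρ) (σ : Equiv.Perm (Fin n)) (g : GL κ F)
    (y : IP c ρ σ) : embI P σ (gI c ρ (toC F c g) σ y) = WR P g (embI P σ y) := by
  refine fam_ext fun σ' => ?_
  rw [WR_apply, fam_embI, fam_embI]
  by_cases h : σ' * σ⁻¹ ∈ stab ℓ
  · exact (wsys P).g_S (toC F c g) (σ' * σ⁻¹) h σ σ' (by group) y
  · rw [SWt_zero P σ σ' h, LinearMap.zero_apply, LinearMap.zero_apply, map_zero]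

/-- every order of the strands is the order of a permutation -/
theorem exists_ordP (τ : Fin n → ℤ) (hτ : Function.Injective τ) :
    ∃ σ : Equiv.Perm (Fin n), ∀ x y, τ x < τ y ↔ ordP σ x < ordP σ y := by
  have hm : StrictMono (τ ∘ Tuple.sort τ) :=
    (Tuple.monotone_sort τ).strictMono_of_injective (hτ.comp (Tuple.sort τ).injective)
  refine ⟨Tuple.sort τ, fun x y => ?_⟩
  obtain ⟨i, rfl⟩ := (Tuple.sort τ).surjective x
  obtain ⟨j, rfl⟩ := (Tuple.sort τ).surjective y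
  rw [ordP_apply, ordP_apply]
  have h1 := hm.lt_iff_lt (a := i) (b := j)
  have h2 : τ (Tuple.sort τ i) < τ (Tuple.sort τ j) ↔ i < j := h1
  rw [h2, Fin.lt_def]
  exact_mod_cast Iff.rfl

/-- the cogenerator property for the components -/
theorem cog_IP (c : κ → Fin n) (hcs : Function.Surjective c) (ρ : Representation ℂ (lev F c) V)
    (hρ : IsSm ρ) (hi : Irr ρ) (hc : Cusp c ρ) (σ : Equiv.Perm (Fin n))
    (X : Submodule ℂ (IP c ρ σ))
    (hX : Stab (IRp c cst (ordP σ) (ordP_inj σ) (hat c ρ)) X) {U : Type} [AddCommGroup U]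
    [Module ℂ U] (π : Representation ℂ (lev F (fun i => (cst (c i) : Unit))) U) (p : X →ₗ[ℂ] U)
    (hp : Equi (V := X) (W := U) (subRep (IRp c cst (ordP σ) (ordP_inj σ) (hat c ρ)) X hX) π p)
    (hs : Function.Surjective p) (h0 : ∃ u : U, u ≠ 0) :
    ∃ (σ' : Equiv.Perm (Fin n)) (Φ : U →ₗ[ℂ] IP c ρ σ'),
      Equi π (IRp c cst (ordP σ') (ordP_inj σ') (hat c ρ)) Φ ∧ Φ ≠ 0 := by
  obtain ⟨τ, hτ, Φ, hΦ, hΦ0⟩ := cog_main c hcs ρ hρ hi hc (ordP σ) (ordP_inj σ) X hX π p hp hs h0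
  obtain ⟨σ', hσ'⟩ := exists_ordP τ hτ
  have h1 : ISp c cst τ hτ (hat c ρ) = IP c ρ σ' :=
    ISp_congr c cst τ (ordP σ') hτ (ordP_inj σ') (fun x y _ => hσ' x y) (hat c ρ)
  refine ⟨σ', (LinearEquiv.ofEq _ _ h1 : _ →ₗ[ℂ] _) ∘ₗ Φ, fun g u => ?_, fun h => hΦ0 ?_⟩
  · refine Subtype.ext (funext fun x => ?_)
    have h2 := congrArg (fun f : ISp c cst τ hτ (hat c ρ) => f.1 x) (hΦ g u)
    exact h2
  · refine LinearMap.ext fun u => ?_
    have h2 := LinearMap.congr_fun h u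
    exact (LinearEquiv.ofEq _ _ h1).map_eq_zero_iff.1 h2

theorem bd_faith (P : Strands D ℓ c ρ) (w : Wd D n) (hw : w ∈ orb ℓ)
    (X : Submodule ℂ (WT ℓ (SWt P))) (hX : Stab (WR P) X)
    (h : ∀ x ∈ X, ∀ σ : Equiv.Perm (Fin n), ℓ ∘ σ ≠ w → fam x σ = 0) (U : Type) [AddCommGroup U] [Module ℂ U]
    (π : Representation ℂ (GL κ F) U) (p : X →ₗ[ℂ] U) (hp : Equi (subRep (WR P) X hX) π p)
    (hs : Function.Surjective p) (h0 : ∃ u : U, u ≠ 0) :
    ∃ f : U →ₗ[ℂ] WT ℓ (SWt P), Equi π (WR P) f ∧ f ≠ 0 := by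
  obtain ⟨σ₀, rfl⟩ := hw
  -- evaluation at `σ₀`
  let ev : X →ₗ[ℂ] IP c ρ σ₀ :=
    { toFun := fun x => fam x.1 σ₀
      map_add' := fun x y => rfl
      map_smul' := fun z x => rfl }
  have hev : Function.Injective ev := by
    rw [injective_iff_map_eq_zero]
    intro x hx
    refine Subtype.ext (fam_ext fun σ => ?_)
    by_cases hσ : ℓ ∘ σ = ℓ ∘ σ₀
    · have ht : ℓ ∘ (σ * σ₀⁻¹ : Equiv.Perm (Fin n)) = ℓ := by
        funext i
        have h1 := congrFun hσ (σ₀⁻¹ i)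
        have h2 : ℓ (σ₀ (σ₀⁻¹ i)) = ℓ i := by
          rw [← Equiv.Perm.mul_apply, mul_inv_cancel, Equiv.Perm.one_apply]
        exact h1.trans h2
      have h1 := fam_S x.1 (σ * σ₀⁻¹) ht σ₀ σ (by group)
      have h2 : fam x.1 σ₀ = 0 := hx
      rw [← h1, h2, map_zero]
      rfl
    · exact h x.1 x.2 σ hσ
  set e := LinearEquiv.ofInjective ev hev with he
  have hXs : Stab (IRp c cst (ordP σ₀) (ordP_inj σ₀) (hat c ρ)) (LinearMap.range ev) := by
    rintro g _ ⟨x, rfl⟩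
    exact ⟨⟨WR P g.1 x.1, hX g.1 x.1 x.2⟩, rfl⟩
  obtain ⟨σ', Φ, hΦ, hΦ0⟩ := cog_IP c P.hcs ρ P.hρ P.hi P.hc σ₀ (LinearMap.range ev) hXs
    (pull (levC F κ).symm π) (p ∘ₗ (e.symm : _ →ₗ[ℂ] _)) (by
      intro g y
      obtain ⟨x, rfl⟩ := e.surjective y
      have h1 : subRep (IRp c cst (ordP σ₀) (ordP_inj σ₀) (hat c ρ)) (LinearMap.range ev) hXs g
          (e x) = e (subRep (WR P) X hX g.1 x) := Subtype.ext rfl
      rw [h1]
      show p (e.symm (e _)) = pull (levC F κ).symm π g (p (e.symm (e x)))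
      rw [LinearEquiv.symm_apply_apply, LinearEquiv.symm_apply_apply]
      exact hp g.1 x) (hs.comp e.symm.surjective) h0
  refine ⟨embI P σ' ∘ₗ Φ, fun g u => ?_, fun h1 => hΦ0 ?_⟩
  · show embI P σ' (Φ (π g u)) = WR P g (embI P σ' (Φ u))
    rw [← embI_equi]
    congr 1
    exact hΦ (toC F c g) u
  · refine LinearMap.ext fun u => ?_
    have h2 : embI P σ' (Φ u) = 0 := LinearMap.congr_fun h1 u
    have h3 := fam_embI_self P σ' (Φ u)
    rw [h2] at h3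
    exact h3.symm

end

end

end Pool.Agent.Lib.MP_ca1492_al.L
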