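import Mathlib
import Pool.Agent.Lib.MP_ca1492_al.Cmp.StrD
import Pool.Agent.Lib.MP_ca1492_al.D5.Mk
import Pool.Agent.Lib.MP_ca1492_al.S5.BdA
import Pool.Agent.Lib.MP_ca1492_al.S5.BdI
import Pool.Agent.Lib.MP_ca1492_al.S5.Faith

/-!
# MP_ca1492_al, S5/Defs: the block data of the strands

`WR P`: the representation of `GL κ F` on the module `WT ℓ (SWt P)` of the words.
`str h ℓ`: the strands of the word `ℓ` (explicit functionals and symmetries).
-/

set_option autoImplicit false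

namespace Pool.Agent.Lib.MP_ca1492_al.L

open Topology Matrix TensorProduct ValuativeRel CA1492 CA1492.PA
open Pool.Agent.Lib.MP_ca1492_al.P Pool.Agent.Lib.MP_ca1492_al.Q Pool.Agent.Lib.MP_ca1492_al.D5

noncomputable section

variable {F : Type} [Field F] [ValuativeRel F] [TopologicalSpace F]
  [IsNonarchimedeanLocalField F]

section

variable {κ : Type} [Fintype κ] [DecidableEq κ]
variable {V : Type} [AddCommGroup V] [Module ℂ V]
variable {n : ℕ}
variable {D : Dat} {ℓ : Fin n → D.J} {c : κ → Fin n} {ρ : Representation ℂ (lev F c) V}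

/-- the action of the KLR algebra -/
def bφ (P : Strands D ℓ c ρ) : R D n →ₐ[ℂ] EndG (WR P) := (bd_alg P).choose

/-- the action of the power series -/
def bθ (P : Strands D ℓ c ρ) : O n →ₐ[ℂ] EndG (WR P) := (bd_alg P).choose_spec.choose

/-- the crossings -/
def bΦ (P : Strands D ℓ c ρ) : ℕ → EndG (WR P) := (bd_alg P).choose_spec.choose_spec.choose

theorem b_spec (P : Strands D ℓ c ρ) :
    CKLR D n (bφ P) (bθ P) (orb ℓ) ∧
      (∀ (w : Wd D n) x (σ : Equiv.Perm (Fin n)),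
        fam ((bφ P (ew w)).1 x) σ = if ℓ ∘ σ = w then fam x σ else 0) ∧
      (∀ f x σ, fam ((bθ P f).1 x) σ =
        opI c cst (ordP σ) (ordP_inj σ) ρ (rn σ f) (fam x σ)) ∧
      (∀ r, r + 1 < n → ∀ x σ, fam ((bΦ P r).1 x) σ =
        TT c ρ P.S (σ * sw n r) σ (fam x (σ * sw n r))) ∧
      SSys D n (fun w => bφ P (ew w)) (bθ P) (bΦ P) (fun r => bφ P (ps r)) :=
  (bd_alg P).choose_spec.choose_spec.choose_spec

/-- the block datum of the strands -/
def bd (P : Strands D ℓ c ρ) : BD F D ℓ where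
  κ := κ
  V := WT ℓ (SWt P)
  W := WR P
  sm := bd_sm P
  inj := bd_inj P
  φ := bφ P
  θ := bθ P
  cklr := (b_spec P).1
  faith w hw X hX h U _ _ π p hp hs h0 := by
    refine bd_faith P w hw X hX (fun x hx σ hσ => ?_) U π p hp hs h0
    rw [← h x hx, (b_spec P).2.1, if_neg hσ]

end

section

variable {D : Dat} {RJ : D.J → GLRep F} {e : D.J → D.J → PowerSeries ℂ}

/-- the two forms of the normalised pairs -/
theorem toN (h : TwoD D RJ e) : TwoN D RJ e (q1 D) where
  cusp := h.hR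
  inj i j hij := by
    by_contra hne
    exact h.hne i j hne hij
  ps := h.h2
  hq _ _ := rfl
  hu := h.hu
  hu' := h.hu'

/-- the strands of the word `ℓ` -/
def str (h : TwoD D RJ e) {n : ℕ} (ℓ : Fin n → D.J) :
    Strands D ℓ (sc fun a => RJ (ℓ a)) (tenRep fun a => RJ (ℓ a)) := mkStrands ℓ (toN h)

theorem str_e (h : TwoD D RJ e) {n : ℕ} (ℓ : Fin n → D.J) (a b : Fin n) :
    (str h ℓ).S.e a b =
      (e (ℓ a) (ℓ b)).subst (MvPowerSeries.X a - MvPowerSeries.X b : MvPowerSeries _ ℂ) := rfl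

theorem str_bp (h : TwoD D RJ e) {n : ℕ} (ℓ : Fin n → D.J) (w : stab ℓ) :
    (str h ℓ).sy.bp w = bperm RJ ℓ w (stab_let ℓ w) := rfl

theorem str_A (h : TwoD D RJ e) {n : ℕ} (ℓ : Fin n → D.J) (w : stab ℓ) :
    (str h ℓ).sy.A w = Aw RJ ℓ w (stab_let ℓ w) := rfl

/-- the block datum of a word -/
def sysB (h : TwoD D RJ e) {n : ℕ} (v : Wd D n) : BD F D v := bd (str h v)

end

end

end Pool.Agent.Lib.MP_ca1492_al.L
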