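import Mathlib
import Pool.Agent.Lib.MP_ca1492_al.S5.BcA
import Pool.Agent.Lib.MP_ca1492_al.S5.BcB
import Pool.Agent.Lib.MP_ca1492_al.S5.Defs

/-!
# MP_ca1492_al, S5/Bc: permutations of the letters

`v' = v ∘ σ₀`. `reindex_exists` (Cmp/Split) gives an isomorphism of strand data from `v'` to `v` with `ε = σ₀`.
The component `σ'` of the image of `F ∈ W_v` is `s.I⁻¹ (F (σ₀ σ'))` (order `ordP σ' = ordP (σ₀ σ') ∘ σ₀`, word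
`v ∘ σ₀ ∘ σ'`). Crossings: `SIso.mem_X1`, `SIso.isLead`, `TT_unique`, `str_e`, `rename_subst`; renaming of strands:
explicit (`str_bp`, `str_A`); the `S r`: `lin_S`.
-/

set_option autoImplicit false

namespace Pool.Agent.Lib.MP_ca1492_al.L

open Topology Matrix TensorProduct ValuativeRel CA1492 CA1492.PA
open Pool.Agent.Lib.MP_ca1492_al.P Pool.Agent.Lib.MP_ca1492_al.Q Pool.Agent.Lib.MP_ca1492_al.D5

noncomputable section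

variable {F : Type} [Field F] [ValuativeRel F] [TopologicalSpace F]
  [IsNonarchimedeanLocalField F]

section

variable {κ₁ κ₂ : Type} [Fintype κ₁] [DecidableEq κ₁] [Fintype κ₂] [DecidableEq κ₂]
variable {V₁ V₂ : Type} [AddCommGroup V₁] [Module ℂ V₁] [AddCommGroup V₂] [Module ℂ V₂]
variable {n : ℕ} {D : Dat} {ℓ₁ ℓ₂ : Fin n → D.J}
variable {c₁ : κ₁ → Fin n} {ρ₁ : Representation ℂ (lev F c₁) V₁}
  {c₂ : κ₂ → Fin n} {ρ₂ : Representation ℂ (lev F c₂) V₂}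

theorem b_surj (P : Strands D ℓ₁ c₁ ρ₁) (f : O n) (hf : f ≠ 0) :
    Function.Surjective (bθ P f).1 := by
  intro y
  obtain ⟨x, hx⟩ := wθ_surj (wsys P) f hf y
  refine ⟨x, ?_⟩
  rw [← hx]
  refine fam_ext fun σ => ?_
  rw [(b_spec P).2.2.1, wθ_apply]
  rfl

/-- compatible strand data -/
structure SCmp (P₁ : Strands D ℓ₁ c₁ ρ₁) (P₂ : Strands D ℓ₂ c₂ ρ₂) (s : SIso c₁ ρ₁ c₂ ρ₂) :
    Prop where
  hl : ∀ x, ℓ₂ (s.ε x) = ℓ₁ x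
  he : ∀ a b : Fin n, a ≠ b → P₂.S.e (s.ε a) (s.ε b) = MvPowerSeries.rename s.ε (P₁.S.e a b)
  hbp : ∀ (w₁ : stab ℓ₁) (w₂ : stab ℓ₂), (w₂ : Equiv.Perm (Fin n)) * s.ε =
    s.ε * (w₁ : Equiv.Perm (Fin n)) → ∀ i, s.e (P₁.sy.bp w₁ i) = P₂.sy.bp w₂ (s.e i)
  hA : ∀ (w₁ : stab ℓ₁) (w₂ : stab ℓ₂), (w₂ : Equiv.Perm (Fin n)) * s.ε =
    s.ε * (w₁ : Equiv.Perm (Fin n)) → ∀ v, s.A (P₁.sy.A w₁ v) = P₂.sy.A w₂ (s.A v)

variable {P₁ : Strands D ℓ₁ c₁ ρ₁} {P₂ : Strands D ℓ₂ c₂ ρ₂} {s : SIso c₁ ρ₁ c₂ ρ₂}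

theorem Bc_SWt (C : SCmp P₁ P₂ s) (t₁ t₂ : Equiv.Perm (Fin n)) (h₁ : ℓ₁ ∘ t₁ = ℓ₁)
    (h₂ : ℓ₂ ∘ t₂ = ℓ₂) (hw : t₂ * s.ε = s.ε * t₁)
    {σ₁ τ₁ σ₂ τ₂ : Equiv.Perm (Fin n)} (e₁ : τ₁ = t₁ * σ₁)
    (e₂ : τ₂ = t₂ * σ₂) (h : σ₂ = s.ε * σ₁) (h' : τ₂ = s.ε * τ₁) (f : IP c₁ ρ₁ σ₁) :
    Js s h' (SWt P₁ σ₁ τ₁ f) = SWt P₂ σ₂ τ₂ (Js s h f) := by
  rw [SWt_eq P₁ ⟨t₁, h₁⟩ σ₁ τ₁ e₁, SWt_eq P₂ ⟨t₂, h₂⟩ σ₂ τ₂ e₂]
  exact Js_SW s P₁.sy P₂.sy ⟨t₁, h₁⟩ ⟨t₂, h₂⟩ (C.hbp ⟨t₁, h₁⟩ ⟨t₂, h₂⟩ hw)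
    (C.hA ⟨t₁, h₁⟩ ⟨t₂, h₂⟩ hw) hw e₁ e₂ h h' f

/-- the isomorphism of the modules of the words -/
theorem Bc_map (C : SCmp P₁ P₂ s) :
    ∃ f : WT ℓ₁ (SWt P₁) ≃ₗ[ℂ] WT ℓ₂ (SWt P₂), ∀ (x : WT ℓ₁ (SWt P₁))
      (σ₁ σ₂ : Equiv.Perm (Fin n)) (h : σ₂ = s.ε * σ₁), fam (f x) σ₂ = Js s h (fam x σ₁) := by
  have h0 : ∀ σ : Equiv.Perm (Fin n), σ = s.ε * (s.ε⁻¹ * σ) := fun σ => by
    rw [mul_inv_cancel_left]
  let f₁ : WT ℓ₁ (SWt P₁) →ₗ[ℂ] WT ℓ₂ (SWt P₂) :=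
    { toFun := fun x => mkW (fun σ => Js s (h0 σ) (fam x (s.ε⁻¹ * σ))) (by
        intro t ht σ σ' e
        have ht₁ : ℓ₁ ∘ (s.ε⁻¹ * t * s.ε : Equiv.Perm (Fin n)) = ℓ₁ := by
          funext x
          show ℓ₁ (s.ε⁻¹ (t (s.ε x))) = ℓ₁ x
          rw [← C.hl, ← C.hl]
          have h1 : s.ε (s.ε⁻¹ (t (s.ε x))) = t (s.ε x) := s.ε.apply_symm_apply _
          rw [h1]
          exact congrFun ht (s.ε x)
        have e₁ : s.ε⁻¹ * σ' = (s.ε⁻¹ * t * s.ε) * (s.ε⁻¹ * σ) := by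
          rw [e]
          group
        rw [← Bc_SWt C (s.ε⁻¹ * t * s.ε) t ht₁ ht (by group) e₁ e (h0 σ) (h0 σ')]
        congr 1
        exact fam_S x _ ht₁ _ _ e₁)
      map_add' := fun x y => fam_ext fun σ => map_add (Js s (h0 σ)) _ _
      map_smul' := fun c x => fam_ext fun σ => map_smul (Js s (h0 σ)) c _ }
  have hf₁ : ∀ (x : WT ℓ₁ (SWt P₁)) (σ₁ σ₂ : Equiv.Perm (Fin n)) (h : σ₂ = s.ε * σ₁),
      fam (f₁ x) σ₂ = Js s h (fam x σ₁) := by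
    intro x σ₁ σ₂ h
    have h1 : s.ε⁻¹ * σ₂ = σ₁ := by rw [h, inv_mul_cancel_left]
    subst h1
    rfl
  let f₂ : WT ℓ₂ (SWt P₂) →ₗ[ℂ] WT ℓ₁ (SWt P₁) :=
    { toFun := fun x => mkW (fun σ => (Js s (σ₁ := σ) rfl).symm (fam x (s.ε * σ))) (by
        intro t ht σ σ' e
        have ht₂ : ℓ₂ ∘ (s.ε * t * s.ε⁻¹ : Equiv.Perm (Fin n)) = ℓ₂ := by
          funext x
          show ℓ₂ (s.ε (t (s.ε⁻¹ x))) = ℓ₂ x
          rw [C.hl]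
          have h1 : ℓ₁ (t (s.ε⁻¹ x)) = ℓ₁ (s.ε⁻¹ x) := congrFun ht _
          rw [h1, ← C.hl]
          exact congrArg ℓ₂ (s.ε.apply_symm_apply x)
        have e₂ : s.ε * σ' = (s.ε * t * s.ε⁻¹) * (s.ε * σ) := by
          rw [e]
          group
        rw [LinearEquiv.eq_symm_apply, Bc_SWt C t (s.ε * t * s.ε⁻¹) ht ht₂ (by group) e e₂
          rfl rfl, LinearEquiv.apply_symm_apply]
        exact fam_S x _ ht₂ _ _ e₂)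
      map_add' := fun x y => fam_ext fun σ => map_add (Js s (σ₁ := σ) rfl).symm _ _
      map_smul' := fun c x => fam_ext fun σ => map_smul (Js s (σ₁ := σ) rfl).symm c _ }
  have hf₂ : ∀ (x : WT ℓ₂ (SWt P₂)) (σ : Equiv.Perm (Fin n)),
      fam (f₂ x) σ = (Js s (σ₁ := σ) rfl).symm (fam x (s.ε * σ)) := fun x σ => rfl
  refine ⟨LinearEquiv.ofLinear f₁ f₂ ?_ ?_, hf₁⟩
  · refine LinearMap.ext fun x => fam_ext fun σ => ?_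
    show fam (f₁ (f₂ x)) σ = fam x σ
    obtain ⟨τ, rfl⟩ : ∃ τ, σ = s.ε * τ := ⟨_, h0 σ⟩
    rw [hf₁ (f₂ x) τ (s.ε * τ) rfl, hf₂, LinearEquiv.apply_symm_apply]
  · refine LinearMap.ext fun x => fam_ext fun σ => ?_
    show fam (f₂ (f₁ x)) σ = fam x σ
    rw [hf₂, hf₁ x σ (s.ε * σ) rfl, LinearEquiv.symm_apply_apply]

theorem Bc_of (C : SCmp P₁ P₂ s) : (bd P₁).Bc (bd P₂) := by
  obtain ⟨f, hf⟩ := Bc_map C
  refine ⟨s.e, f, ?_, ?_⟩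
  · intro (g : GL κ₁ F) (x : WT ℓ₁ (SWt P₁))
    refine fam_ext fun σ₂ => ?_
    obtain ⟨σ₁, rfl⟩ : ∃ σ₁, σ₂ = s.ε * σ₁ := ⟨s.ε⁻¹ * σ₂, by rw [mul_inv_cancel_left]⟩
    refine (hf _ σ₁ _ rfl).trans ?_
    refine (Js_equi s rfl (toC F c₁ g) (fam x σ₁)).trans ?_
    refine Eq.trans ?_ (WR_apply P₂ (GLRep.glRe s.e g) (f x) (s.ε * σ₁)).symm
    rw [hf x σ₁ _ rfl]
    rfl
  · have key := lin_all (b_spec P₁).2.2.2.2 (b_spec P₂).2.2.2.2 (b_spec P₁).1.θ_X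
      (b_spec P₂).1.θ_X (EndG (WR P₁)).val (EndG (WR P₂)).val (f : _ →ₗ[ℂ] _) ?_ ?_ ?_ ?_
    · exact fun a x => key a x
    · intro w x
      refine fam_ext fun σ₂ => ?_
      obtain ⟨σ₁, rfl⟩ : ∃ σ₁, σ₂ = s.ε * σ₁ := ⟨s.ε⁻¹ * σ₂, by rw [mul_inv_cancel_left]⟩
      show fam (f ((bφ P₁ (ew w)).1 x)) (s.ε * σ₁) = fam ((bφ P₂ (ew w)).1 (f x)) (s.ε * σ₁)
      rw [hf _ σ₁ _ rfl, (b_spec P₁).2.1, (b_spec P₂).2.1, hf x σ₁ _ rfl]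
      have h1 : ℓ₂ ∘ (s.ε * σ₁ : Equiv.Perm (Fin n)) = ℓ₁ ∘ σ₁ := funext fun k => C.hl (σ₁ k)
      rw [h1]
      split_ifs
      · rfl
      · rw [map_zero]
    · intro g x
      refine fam_ext fun σ₂ => ?_
      obtain ⟨σ₁, rfl⟩ : ∃ σ₁, σ₂ = s.ε * σ₁ := ⟨s.ε⁻¹ * σ₂, by rw [mul_inv_cancel_left]⟩
      show fam (f ((bθ P₁ g).1 x)) (s.ε * σ₁) = fam ((bθ P₂ g).1 (f x)) (s.ε * σ₁)
      rw [hf _ σ₁ _ rfl, (b_spec P₁).2.2.1, (b_spec P₂).2.2.1, hf x σ₁ _ rfl, Js_op]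
      have h1 : MvPowerSeries.rename s.ε (rn σ₁ g) = rn (s.ε * σ₁) g := rn_rn s.ε σ₁ g
      rw [h1]
    · intro r hr x
      refine fam_ext fun σ₂ => ?_
      obtain ⟨σ₁, rfl⟩ : ∃ σ₁, σ₂ = s.ε * σ₁ := ⟨s.ε⁻¹ * σ₂, by rw [mul_inv_cancel_left]⟩
      show fam (f ((bΦ P₁ r).1 x)) (s.ε * σ₁) = fam ((bΦ P₂ r).1 (f x)) (s.ε * σ₁)
      rw [hf _ σ₁ _ rfl, (b_spec P₁).2.2.2.1 r hr, (b_spec P₂).2.2.2.1 r hr]
      rw [Js_TT s P₂.hcs P₂.hρ P₂.hi P₂.hc P₁.S P₂.S C.he (σ₂ := s.ε * σ₁ * sw n r)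
        (mul_assoc _ _ _) rfl, hf x (σ₁ * sw n r) _ (mul_assoc _ _ _)]
    · intro i j hij
      refine b_surj P₁ _ ?_
      intro h
      have h1 := congrArg (MvPowerSeries.coeff (Finsupp.single i 1)) h
      rw [map_sub, MvPowerSeries.coeff_index_single_X, MvPowerSeries.coeff_index_single_X,
        if_pos rfl, if_neg hij, sub_zero, map_zero] at h1
      exact one_ne_zero h1

end

/-- symmetry -/
theorem BD.Bc.symm' {D : Dat} {n : ℕ} {v v' : Wd D n} {B : BD F D v} {B' : BD F D v'}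
    (h : B.Bc B') : B'.Bc B := by
  obtain ⟨e, f, h1, h2⟩ := h
  refine ⟨e.symm, f.symm, fun g x => ?_, fun a x => ?_⟩
  · rw [LinearEquiv.symm_apply_eq, h1, LinearEquiv.apply_symm_apply]
    congr 1
    refine congrArg B'.W ?_
    refine Units.ext (Matrix.ext fun i j => ?_)
    obtain ⟨i, rfl⟩ := e.surjective i
    obtain ⟨j, rfl⟩ := e.surjective j
    have h3 := glT_apply (F := F) e (GLRep.glRe e.symm g) i j
    refine Eq.trans ?_ h3.symm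
    have h4 := glT_apply (F := F) e.symm g (e i) (e j)
    rw [e.symm_apply_apply, e.symm_apply_apply] at h4
    exact h4.symm
  · rw [LinearEquiv.symm_apply_eq, h2, LinearEquiv.apply_symm_apply]

variable {D : Dat} {RJ : D.J → GLRep F} {e : D.J → D.J → PowerSeries ℂ}

theorem Bc_castV {J ι : Type} (RJ : J → GLRep F) (l : ι → J) (v : ∀ a, (RJ (l a)).V) {a a' : ι}
    (h : a = a') {j : J} (e : l a = j) (e' : l a' = j) :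
    castV RJ e (v a) = castV RJ e' (v a') := by
  subst h
  rfl

theorem sys_bc (h : TwoD D RJ e) {n : ℕ} (v : Wd D n) (σ : Equiv.Perm (Fin n)) :
    (sysB h v).Bc (sysB h (v ∘ σ)) := by
  refine BD.Bc.symm' ?_
  obtain ⟨s, hs1, hs2, hs3⟩ := reindex_exists (fun a => RJ (v a)) σ
  have hsA : ∀ u : ∀ a, (RJ (v a)).V, s.A.symm (PiTensorProduct.tprod ℂ u) =
      PiTensorProduct.tprod ℂ fun x => u (σ x) := by
    intro u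
    rw [LinearEquiv.symm_apply_eq]
    exact (hs3 u).symm
  refine Bc_of (P₁ := str h (v ∘ σ)) (P₂ := str h v) (s := s) ⟨?_, ?_, ?_, ?_⟩
  · intro x
    rw [hs1]
    rfl
  · intro a b _
    rw [str_e, str_e, hs1]
    exact (PA.rename_subst σ.toEmbedding (e (v (σ a)) (v (σ b)))).symm
  · intro w₁ w₂ hw i
    obtain ⟨x, i⟩ := i
    rw [str_bp, str_bp]
    have h1 : bperm RJ (v ∘ σ) w₁ (stab_let (v ∘ σ) w₁) ⟨x, i⟩ =
        ⟨(w₁ : Equiv.Perm (Fin n)) x, castK RJ (stab_let (v ∘ σ) w₁ x).symm i⟩ := rfl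
    rw [h1]
    have h2 : s.e ⟨(w₁ : Equiv.Perm (Fin n)) x, castK RJ (stab_let (v ∘ σ) w₁ x).symm i⟩ =
        ⟨σ ((w₁ : Equiv.Perm (Fin n)) x), castK RJ (stab_let (v ∘ σ) w₁ x).symm i⟩ := hs2 _ _
    have h3 : s.e ⟨x, i⟩ = ⟨σ x, i⟩ := hs2 _ _
    rw [h2, h3]
    have h4 : σ ((w₁ : Equiv.Perm (Fin n)) x) = (w₂ : Equiv.Perm (Fin n)) (σ x) := by
      rw [hs1] at hw
      exact (congrArg (fun z : Equiv.Perm (Fin n) => z x) hw).symm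
    exact TenAw_sig RJ v h4 (stab_let (v ∘ σ) w₁ x).symm (stab_let v w₂ (σ x)).symm i
  · intro w₁ w₂ hw t
    rw [str_A, str_A]
    obtain ⟨t, rfl⟩ := s.A.symm.surjective t
    rw [LinearEquiv.apply_symm_apply, ← LinearEquiv.eq_symm_apply]
    induction t using PiTensorProduct.induction_on with
    | add x y hx hy => rw [map_add, map_add, map_add, map_add, hx, hy]
    | smul_tprod r u =>
      rw [map_smul, map_smul, map_smul, map_smul]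
      congr 1
      rw [hsA, Aw_tprod, Aw_tprod, hsA]
      congr 1
      funext x
      have h4 : σ ((w₁ : Equiv.Perm (Fin n)).symm x) = (w₂ : Equiv.Perm (Fin n)).symm (σ x) := by
        rw [hs1] at hw
        rw [Equiv.eq_symm_apply]
        have h5 := congrArg (fun z : Equiv.Perm (Fin n) => z ((w₁ : Equiv.Perm (Fin n)).symm x)) hw
        refine Eq.trans h5 ?_
        show σ ((w₁ : Equiv.Perm (Fin n)) ((w₁ : Equiv.Perm (Fin n)).symm x)) = σ x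
        rw [Equiv.apply_symm_apply]
      exact Bc_castV RJ v u h4 _ _

end

end Pool.Agent.Lib.MP_ca1492_al.L
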