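import Mathlib
import Pool.Agent.Lib.MP_ca1492_al.S5.Defs

/-!
# MP_ca1492_al, S5/Let: one letter, no letters

If there is at most one strand, the whole group is `lev F c` and the socle of the block datum is `ρ`, embedded by
`y ↦ (g ↦ ρ g y ⊗ 1)` (`Let_main`).
-/

set_option autoImplicit false

namespace Pool.Agent.Lib.MP_ca1492_al.L

open Topology Matrix TensorProduct ValuativeRel CA1492 CA1492.PA
open Pool.Agent.Lib.MP_ca1492_al.P Pool.Agent.Lib.MP_ca1492_al.Q Pool.Agent.Lib.MP_ca1492_al.D5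

noncomputable section

variable {F : Type} [Field F] [ValuativeRel F] [TopologicalSpace F]
  [IsNonarchimedeanLocalField F]

section

variable {κ : Type} [Fintype κ] [DecidableEq κ]
variable {V : Type} [AddCommGroup V] [Module ℂ V]
variable {n : ℕ}
variable {D : Dat} {ℓ : Fin n → D.J} {c : κ → Fin n} {ρ : Representation ℂ (lev F c) V}
  (hn : ∀ x y : Fin n, x = y)

omit [ValuativeRel F] [TopologicalSpace F] [IsNonarchimedeanLocalField F] in
include hn in
theorem Let_mem (c : κ → Fin n) (g : GL κ F) : g ∈ lev F c := fun _ _ h => absurd (hn _ _) h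

omit [ValuativeRel F] [TopologicalSpace F] [IsNonarchimedeanLocalField F] in
include hn in
theorem Let_uni (c : κ → Fin n) (σ : Equiv.Perm (Fin n)) (g : GL κ F)
    (hg : g ∈ uni F (fun i => (cst (c i) : Unit)) (fun i => ordP σ (c i))) : g = 1 := by
  apply Units.ext
  ext i j
  rw [Units.val_one]
  exact hg.2 i j (by
    show ordP σ (c i) = ordP σ (c j)
    rw [hn (c i) (c j)])

include hn in
theorem Let_dh (c : κ → Fin n) (σ : Equiv.Perm (Fin n)) (m : lev F c) :
    dh c (cst : Fin n → Unit) (ordP σ) m = 1 := by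
  have h1 : ex c (cst : Fin n → Unit) (ordP σ) m.1 = 0 := by
    unfold ex
    refine Finset.sum_eq_zero fun x _ => Finset.sum_eq_zero fun y _ => ?_
    rw [if_neg]
    rintro ⟨-, h⟩
    rw [hn x y] at h
    exact lt_irrefl _ h
  rw [dh_apply, h1, neg_zero, zpow_zero]

/-- the embedding of `ρ` -/
def Let_fn (c : κ → Fin n) (ρ : Representation ℂ (lev F c) V) (y : V) :
    lev F (fun i => (cst (c i) : Unit)) → V ⊗[ℂ] MvPolynomial (Fin n) ℂ :=
  fun g => inc1 V (Fin n) (ρ ⟨g.1, Let_mem hn c g.1⟩ y)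

theorem Let_fn_mem (hρ : IsSm ρ) (σ : Equiv.Perm (Fin n)) (y : V) :
    Let_fn hn c ρ y ∈ IP c ρ σ := by
  refine (mem_ISp c cst (ordP σ) (ordP_inj σ) (hat c ρ) _).2 ⟨fun m hm n' hn' g => ?_, ?_⟩
  · obtain rfl : n' = 1 := Let_uni hn c σ n' hn'
    rw [Let_dh hn c σ, Units.val_one, one_smul]
    show inc1 V (Fin n) _ = hat c ρ ⟨m, hm⟩ (inc1 V (Fin n) _)
    rw [← inc1_equi c ρ, ← Module.End.mul_apply, ← map_mul]
    congr 3
    exact Subtype.ext (by
      show m * 1 * g.1 = m * g.1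
      rw [mul_one])
  · have hcont : Continuous fun g : lev F (fun i => (cst (c i) : Unit)) =>
        (⟨g.1, Let_mem hn c g.1⟩ : lev F c) := continuous_subtype_val.subtype_mk _
    let φ : lev F (fun i => (cst (c i) : Unit)) →* lev F c :=
      { toFun := fun g => ⟨g.1, Let_mem hn c g.1⟩
        map_one' := rfl
        map_mul' := fun _ _ => rfl }
    refine ⟨(stabV ρ y).comap φ, (hρ y).preimage hcont, fun g u hu => ?_⟩
    have h1 : ρ (φ u) y = y := hu
    show inc1 V (Fin n) (ρ (φ (g * u)) y) = inc1 V (Fin n) (ρ (φ g) y)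
    rw [map_mul, map_mul, Module.End.mul_apply, h1]

/-- the embedding of `ρ` in the module of the words -/
def Let_f (P : Strands D ℓ c ρ) : V →ₗ[ℂ] WT ℓ (SWt P) where
  toFun y := mkW (fun σ => ⟨Let_fn hn c ρ y, Let_fn_mem hn P.hρ σ y⟩) (by
    intro t _ σ σ' _
    obtain rfl : σ' = σ := Equiv.ext fun x => hn _ _
    exact (wsys P).S_one σ' _)
  map_add' a b := fam_ext fun σ => Subtype.ext (funext fun g => by
    show inc1 V (Fin n) (ρ _ (a + b)) = inc1 V (Fin n) (ρ _ a) + inc1 V (Fin n) (ρ _ b)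
    rw [map_add, map_add])
  map_smul' z a := fam_ext fun σ => Subtype.ext (funext fun g => by
    show inc1 V (Fin n) (ρ _ (z • a)) = z • inc1 V (Fin n) (ρ _ a)
    rw [map_smul, map_smul])

theorem Let_f_apply (P : Strands D ℓ c ρ) (y : V) (σ : Equiv.Perm (Fin n))
    (g : lev F (fun i => (cst (c i) : Unit))) :
    (fam (Let_f hn P y) σ).1 g = inc1 V (Fin n) (ρ ⟨g.1, Let_mem hn c g.1⟩ y) := rfl

theorem Let_inj (P : Strands D ℓ c ρ) : Function.Injective (Let_f hn P) := by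
  intro a b hab
  have h1 : (fam (Let_f hn P a) 1).1 1 = (fam (Let_f hn P b) 1).1 1 := by rw [hab]
  rw [Let_f_apply, Let_f_apply] at h1
  have h2 : (⟨(1 : lev F (fun i => (cst (c i) : Unit))).1, Let_mem hn c _⟩ : lev F c) = 1 := rfl
  rw [h2, map_one, Module.End.one_apply, Module.End.one_apply] at h1
  have h3 := congrArg (Cof_cc V (Fin n)) h1
  have h4 : ∀ v : V, Cof_cc V (Fin n) (inc1 V (Fin n) v) = v := fun v => Cof_cc_one v
  rwa [h4, h4] at h3

theorem Let_equi (P : Strands D ℓ c ρ) (g : GL κ F) (y : V) :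
    Let_f hn P (ρ ⟨g, Let_mem hn c g⟩ y) = WR P g (Let_f hn P y) := by
  refine fam_ext fun σ => Subtype.ext (funext fun x => ?_)
  rw [Let_f_apply, ← Module.End.mul_apply, ← map_mul]
  rfl

theorem Let_soc (P : Strands D ℓ c ρ) (x : (bd P).V) :
    x ∈ (bd P).soc ℓ ↔ ∃ y, Let_f hn P y = x := by
  constructor
  · rintro ⟨-, h2⟩
    have h3 : ∀ (k : Fin n) (g : lev F (fun i => (cst (c i) : Unit))),
        opE V (MvPowerSeries.X k) ((fam (show WT ℓ (SWt P) from x) 1).1 g) = 0 := by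
      intro k g
      have h4 := h2 k
      have h5 : (bθ P (MvPowerSeries.X k)).1 x = 0 := by
        rw [(b_spec P).1.θ_X k]
        exact h4
      have h6 := (b_spec P).2.2.1 (MvPowerSeries.X k) x 1
      rw [h5, rn_X] at h6
      exact (congrFun (congrArg Subtype.val h6) g).symm
    choose a ha using fun g => Cof_ker ((fam (show WT ℓ (SWt P) from x) 1).1 g)
      (fun k => h3 k g)
    refine ⟨a 1, fam_ext fun σ => ?_⟩
    obtain rfl : σ = 1 := Equiv.ext fun x => hn _ _
    refine Subtype.ext (funext fun g => ?_)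
    rw [Let_f_apply]
    obtain ⟨h4, -⟩ := (mem_ISp c cst (ordP (1 : Equiv.Perm (Fin n))) (ordP_inj 1) (hat c ρ) _).1
      (fam (show WT ℓ (SWt P) from x) 1).2
    have h5 := h4 g.1 (Let_mem hn c g.1) 1 (Subgroup.one_mem _) 1
    rw [Let_dh hn c, Units.val_one, one_smul, ha 1] at h5
    have h6 : (⟨g.1, (ordD (F := F) c cst (ordP (1 : Equiv.Perm (Fin n))) (ordP_inj 1)).hM
        (Let_mem hn c g.1)⟩ * ⟨1, (ordD (F := F) c cst (ordP (1 : Equiv.Perm (Fin n)))
        (ordP_inj 1)).hN (Subgroup.one_mem _)⟩ * 1 : lev F (fun i => (cst (c i) : Unit))) = g :=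
      Subtype.ext (by
        show g.1 * 1 * 1 = g.1
        rw [mul_one, mul_one])
    rw [h6] at h5
    exact (h5.trans (inc1_equi c ρ ⟨g.1, Let_mem hn c g.1⟩ (a 1)).symm).symm
  · rintro ⟨y, rfl⟩
    refine ⟨?_, fun k => ?_⟩
    · refine fam_ext fun σ => ?_
      have h1 := (b_spec P).2.1 ℓ (Let_f hn P y) σ
      have h2 : ℓ ∘ σ = ℓ := by
        funext x
        show ℓ (σ x) = ℓ x
        rw [hn (σ x) x]
      rw [if_pos h2] at h1
      exact h1
    · have h0 : (bφ P (yk k)).1 (Let_f hn P y) = (bθ P (MvPowerSeries.X k)).1 (Let_f hn P y) := by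
        rw [(b_spec P).1.θ_X k]
      show (bφ P (yk k)).1 (Let_f hn P y) = 0
      rw [h0]
      refine fam_ext fun σ => Subtype.ext (funext fun g => ?_)
      rw [(b_spec P).2.2.1, rn_X]
      show opE V (MvPowerSeries.X (σ k)) (inc1 V (Fin n) _) = 0
      unfold opE
      show TensorProduct.map LinearMap.id (psEnd (MvPowerSeries.X (σ k)))
        (_ ⊗ₜ[ℂ] (1 : MvPolynomial (Fin n) ℂ)) = 0
      rw [TensorProduct.map_tmul, psEnd_X, MvPolynomial.pderiv_one, TensorProduct.tmul_zero]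

end

variable {D : Dat} {RJ : D.J → GLRep F} {e : D.J → D.J → PowerSeries ℂ}

theorem sys_letter (h : TwoD D RJ e) (j : D.J) :
    (sysB h (fun _ : Fin 1 => j)).IsSoc (RJ j) := by
  have hn : ∀ x y : Fin 1, x = y := fun x y => Subsingleton.elim x y
  let E : (⨂[ℂ] _ : Fin 1, (RJ j).V) ≃ₗ[ℂ] (RJ j).V := PiTensorProduct.subsingletonEquiv 0
  have hE : ∀ y, E.symm y = PiTensorProduct.tprod ℂ fun _ : Fin 1 => y := fun y =>
    PiTensorProduct.subsingletonEquiv_symm_apply' 0 y
  refine ⟨(Equiv.uniqueSigma (fun _ : Fin 1 => (RJ j).κ)).symm,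
    (Let_f hn (str h fun _ : Fin 1 => j)) ∘ₗ (E.symm : _ →ₗ[ℂ] _), ?_, ?_, ?_⟩
  · intro a b hab
    exact E.symm.injective (Let_inj hn (str h fun _ : Fin 1 => j) hab)
  · intro x
    rw [show x ∈ (sysB h (fun _ : Fin 1 => j)).soc (fun _ => j) ↔ _ from
      Let_soc hn (str h fun _ : Fin 1 => j) x]
    constructor
    · rintro ⟨y, hy⟩
      refine ⟨E y, ?_⟩
      show Let_f hn (str h fun _ : Fin 1 => j) (E.symm (E y)) = x
      rw [E.symm_apply_apply]
      exact hy
    · rintro ⟨y, hy⟩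
      exact ⟨E.symm y, hy⟩
  · intro g x
    have h1 := Let_equi hn (str h fun _ : Fin 1 => j)
      (GLRep.glRe (Equiv.uniqueSigma (fun _ : Fin 1 => (RJ j).κ)).symm g) (E.symm x)
    refine Eq.trans ?_ h1
    show Let_f hn (str h fun _ : Fin 1 => j) (E.symm ((RJ j).π g x)) = _
    congr 1
    rw [hE, hE]
    refine Eq.trans ?_ (tenRep_tprod (fun _ : Fin 1 => RJ j) _ _).symm
    congr 1
    funext a
    congr 2
    apply Units.ext
    ext i k
    obtain rfl : a = 0 := Subsingleton.elim _ _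
    exact (glT_apply (Equiv.uniqueSigma (fun _ : Fin 1 => (RJ j).κ)).symm g i k).symm

theorem sys_one (h : TwoD D RJ e) (v : Wd D 0) : (sysB h v).IsSoc GLRep.one := by
  have hn : ∀ x y : Fin 0, x = y := fun x => x.elim0
  let E : (⨂[ℂ] a : Fin 0, (RJ (v a)).V) ≃ₗ[ℂ] (GLRep.one (F := F)).V :=
    PiTensorProduct.isEmptyEquiv (Fin 0)
  have hke : IsEmpty (sk fun a : Fin 0 => RJ (v a)) := ⟨fun i => i.1.elim0⟩
  refine ⟨(Equiv.equivOfIsEmpty Empty (sk fun a : Fin 0 => RJ (v a))),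
    (Let_f hn (str h v)) ∘ₗ (E.symm : _ →ₗ[ℂ] _), ?_, ?_, ?_⟩
  · intro a b hab
    exact E.symm.injective (Let_inj hn (str h v) hab)
  · intro x
    rw [show x ∈ (sysB h v).soc v ↔ _ from Let_soc hn (str h v) x]
    constructor
    · rintro ⟨y, hy⟩
      refine ⟨E y, ?_⟩
      show Let_f hn (str h v) (E.symm (E y)) = x
      rw [E.symm_apply_apply]
      exact hy
    · rintro ⟨y, hy⟩
      exact ⟨E.symm y, hy⟩
  · intro g x
    have h1 := Let_equi hn (str h v)
      (GLRep.glRe (Equiv.equivOfIsEmpty Empty (sk fun a : Fin 0 => RJ (v a))) g) (E.symm x)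
    refine Eq.trans ?_ h1
    have h2 : (⟨GLRep.glRe (Equiv.equivOfIsEmpty Empty (sk fun a : Fin 0 => RJ (v a))) g,
        Let_mem hn _ _⟩ : lev F (sc fun a : Fin 0 => RJ (v a))) = 1 := by
      refine Subtype.ext (Units.ext ?_)
      ext i
      exact hke.elim i
    rw [h2, map_one]
    rfl

end

end Pool.Agent.Lib.MP_ca1492_al.L
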