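import Mathlib
import Pool.Agent.Lib.MP_ca1492_al.Cmp.DatIso
import Pool.Agent.Lib.MP_ca1492_al.D5.UpA
import Pool.Agent.Lib.MP_ca1492_al.P.FaithB

/-!
# MP_ca1492_al, S5/OrthA: equivariant maps between the cogenerators of two cuspidal data

`c₁ : κ → ι₁`, `c₂ : κ → ι₂` surjective colourings, `ρ₁`, `ρ₂` smooth irreducible cuspidal representations of
`lev F c₁`, `lev F c₂`. If there is a nonzero equivariant map `I_τ₁(hat ρ₁) → I_τ₂(hat ρ₂)` then the two data are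
conjugate: `Orth_main`.

* If no permutation maps the classes of `c₁` into classes of `c₂`, the Jacquet module of the source for the
  parabolic subgroup of the target vanishes (`all_dead`). This covers `card ι₁ < card ι₂`.
* `card ι₂ < card ι₁`: the image has a nonzero Jacquet module for some order of `c₁` (`faith_jac`), but the
  Jacquet module of the target vanishes (`all_dead`).
* `card ι₁ = card ι₂`: transport of the target to the colouring `c₁` (`SIso`), then `first_cell` and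
  `hat_hom_zero`.
-/

set_option autoImplicit false
set_option linter.unusedSectionVars false

namespace Pool.Agent.Lib.MP_ca1492_al.D5

open Pool.Agent.Lib.MP_ca1492_al.P
open Topology Matrix ValuativeRel TensorProduct

noncomputable section

variable {F : Type} [Field F] [ValuativeRel F] [TopologicalSpace F]
  [IsNonarchimedeanLocalField F]
variable {κ : Type} [Fintype κ] [DecidableEq κ]
variable {ι₁ ι₂ : Type} [Fintype ι₁] [DecidableEq ι₁] [Fintype ι₂] [DecidableEq ι₂]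
variable {E₁ E₂ V₁ V₂ : Type} [AddCommGroup E₁] [Module ℂ E₁] [AddCommGroup E₂] [Module ℂ E₂]
  [AddCommGroup V₁] [Module ℂ V₁] [AddCommGroup V₂] [Module ℂ V₂]

theorem Orth_map (c₁ : κ → ι₁) (hs₁ : Function.Surjective c₁) (c₂ : κ → ι₂)
    (hs₂ : Function.Surjective c₂) (w : Equiv.Perm κ)
    (h : ∀ i j, c₁ (w i) = c₁ (w j) → c₂ i = c₂ j) :
    ∃ g : ι₁ → ι₂, Function.Surjective g ∧ ∀ i, c₂ i = g (c₁ (w i)) := by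
  obtain ⟨s, hs⟩ := hs₁.hasRightInverse
  refine ⟨fun x => c₂ (w.symm (s x)), fun y => ?_, fun i => ?_⟩
  · obtain ⟨i, rfl⟩ := hs₂ y
    refine ⟨c₁ (w i), h _ _ ?_⟩
    rw [w.apply_symm_apply, hs]
  · refine h _ _ ?_
    rw [w.apply_symm_apply, hs]

theorem Orth_map_card (c₁ : κ → ι₁) (hs₁ : Function.Surjective c₁) (c₂ : κ → ι₂)
    (hs₂ : Function.Surjective c₂) (hcard : Fintype.card ι₁ < Fintype.card ι₂)
    (w : Equiv.Perm κ) : ¬ ∀ i j, c₁ (w i) = c₁ (w j) → c₂ i = c₂ j := by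
  intro h
  obtain ⟨g, hg, -⟩ := Orth_map c₁ hs₁ c₂ hs₂ w h
  have h1 := Fintype.card_le_of_surjective g hg
  omega

/-- the Jacquet module vanishes if no permutation maps classes into classes -/
theorem Orth_jac (c₁ : κ → ι₁) (c₂ : κ → ι₂) (τ₁ : ι₁ → ℤ) (hτ₁ : Function.Injective τ₁)
    (σ₁ : Representation ℂ (lev F c₁) E₁) (hσ₁ : IsSm σ₁) (hc₁ : Cusp c₁ σ₁)
    (hd : ∀ w : Equiv.Perm κ, ¬ ∀ i j, c₁ (w i) = c₁ (w j) → c₂ i = c₂ j) (o : κ → ℤ)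
    (h : ∀ i j, c₂ i = c₂ j ↔ (fun _ : κ => ()) i = (fun _ : κ => ()) j ∧ o i = o j) :
    (parD c₂ (fun _ : κ => ()) o h).kerJ (IRp c₁ cst τ₁ hτ₁ σ₁) = ⊤ :=
  all_dead (fun _ : κ => ()) c₁ (fun i => τ₁ (c₁ i)) (ordD_cond c₁ cst τ₁ hτ₁) c₂ o h
    (twist (dh c₁ cst τ₁) σ₁) (sm_twist c₁ cst τ₁ σ₁ hσ₁) (cusp_twist c₁ cst τ₁ σ₁ hc₁)
    (fun w _ => hd w)

theorem Orth_dead (c₁ : κ → ι₁) (c₂ : κ → ι₂) (τ₁ : ι₁ → ℤ) (hτ₁ : Function.Injective τ₁)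
    (τ₂ : ι₂ → ℤ) (hτ₂ : Function.Injective τ₂)
    (σ₁ : Representation ℂ (lev F c₁) E₁) (hσ₁ : IsSm σ₁) (hc₁ : Cusp c₁ σ₁)
    (σ₂ : Representation ℂ (lev F c₂) E₂)
    (hd : ∀ w : Equiv.Perm κ, ¬ ∀ i j, c₁ (w i) = c₁ (w j) → c₂ i = c₂ j)
    (Φ : ISp c₁ cst τ₁ hτ₁ σ₁ →ₗ[ℂ] ISp c₂ cst τ₂ hτ₂ σ₂)
    (hΦ : Equi (IRp c₁ cst τ₁ hτ₁ σ₁) (IRp c₂ cst τ₂ hτ₂ σ₂) Φ) : Φ = 0 := by
  have hk := Orth_jac c₁ c₂ τ₁ hτ₁ σ₁ hσ₁ hc₁ hd (fun i => τ₂ (c₂ i))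
    (ordD_cond c₂ cst τ₂ hτ₂)
  have hL : ∀ f, (Φ f).1 1 = 0 := by
    have h1 : (parD c₂ (fun _ : κ => ()) (fun i => τ₂ (c₂ i))
        (ordD_cond c₂ cst τ₂ hτ₂)).kerJ (IRp c₁ cst τ₁ hτ₁ σ₁) ≤
        LinearMap.ker (evL (ordD c₂ cst τ₂ hτ₂) (twist (dh c₂ cst τ₂) σ₂) Φ) := by
      refine Submodule.span_le.2 ?_
      rintro x ⟨n, hn, v, rfl⟩
      rw [SetLike.mem_coe, LinearMap.mem_ker, map_sub, sub_eq_zero]
      exact ev_inv (ordD c₂ cst τ₂ hτ₂) (IRp c₁ cst τ₁ hτ₁ σ₁) (twist (dh c₂ cst τ₂) σ₂) Φ hΦ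
        ⟨n, (ordD c₂ cst τ₂ hτ₂).hN hn⟩ hn v
    rw [hk] at h1
    intro f
    exact h1 (Submodule.mem_top : f ∈ (⊤ : Submodule ℂ _))
  refine LinearMap.ext fun f => Subtype.ext (funext fun g => ?_)
  have h2 := hL (IRp c₁ cst τ₁ hτ₁ σ₁ g f)
  rw [hΦ g f] at h2
  have h3 : (Φ f).1 (1 * g) = 0 := h2
  rw [one_mul] at h3
  exact h3

/-- a nonzero quotient has a nonzero Jacquet module -/
theorem Orth_img (c₁ : κ → ι₁) (τ₁ : ι₁ → ℤ) (hτ₁ : Function.Injective τ₁)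
    (σ₁ : Representation ℂ (lev F c₁) E₁) (hσ₁ : IsSm σ₁) (hc₁ : Cusp c₁ σ₁)
    {V : Type} [AddCommGroup V] [Module ℂ V]
    (π : Representation ℂ (lev F (fun _ : κ => ())) V)
    (q : ISp c₁ cst τ₁ hτ₁ σ₁ →ₗ[ℂ] V) (hq : Equi (IRp c₁ cst τ₁ hτ₁ σ₁) π q)
    (hs : Function.Surjective q) (h0 : ∃ v : V, v ≠ 0) :
    ∃ (o : κ → ℤ) (h : ∀ i j, c₁ i = c₁ j ↔ (fun _ : κ => ()) i = (fun _ : κ => ()) j ∧
      o i = o j), (parD c₁ (fun _ : κ => ()) o h).kerJ π ≠ ⊤ := by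
  have htop : Stab (IRp c₁ cst τ₁ hτ₁ σ₁) ⊤ := fun _ _ _ => Submodule.mem_top
  refine faith_jac (fun _ : κ => ()) c₁ (fun i => τ₁ (c₁ i))
    (ordD_cond c₁ cst τ₁ hτ₁) (twist (dh c₁ cst τ₁) σ₁) (sm_twist c₁ cst τ₁ σ₁ hσ₁)
    (cusp_twist c₁ cst τ₁ σ₁ hc₁) ⊤ htop π (q ∘ₗ Submodule.subtype ⊤) ?_ ?_ h0
  · intro g x
    exact hq g x.1
  · intro y
    obtain ⟨x, hx⟩ := hs y
    exact ⟨⟨x, Submodule.mem_top⟩, hx⟩

theorem Orth_sub {G : Type} [Group G] [TopologicalSpace G] [IsTopologicalGroup G]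
    {H M : Subgroup G} (D : PD H M) {V W : Type} [AddCommGroup V] [Module ℂ V] [AddCommGroup W]
    [Module ℂ W] (π : Representation ℂ H V) (σ : Representation ℂ H W) (hπ : IsSm π)
    (hσ : IsSm σ) (f : V →ₗ[ℂ] W) (hf : Equi π σ f) (hi : Function.Injective f)
    (hk : D.kerJ σ = ⊤) : D.kerJ π = ⊤ := by
  have hinj := D.jac_inj π σ hπ hσ f hf hi
  refine eq_top_iff.2 fun x _ => ?_
  rw [← Submodule.Quotient.mk_eq_zero]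
  apply hinj
  rw [map_zero, PD.jac_JMap_mk, Submodule.Quotient.mk_eq_zero, hk]
  exact Submodule.mem_top

theorem Orth_abs {G : Type} [Group G] [TopologicalSpace G] [IsTopologicalGroup G]
    {H M : Subgroup G} (S : Set (PD H M)) {A W : Type} [AddCommGroup A] [Module ℂ A]
    [AddCommGroup W] [Module ℂ W] (α : Representation ℂ H A) (σ : Representation ℂ H W)
    (hσ : IsSm σ) (Φ : A →ₗ[ℂ] W) (hΦ : Equi α σ Φ)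
    (hq : ∀ (V : Type) [AddCommGroup V] [Module ℂ V] (π : Representation ℂ H V)
      (q : A →ₗ[ℂ] V), Equi α π q → Function.Surjective q → (∃ v : V, v ≠ 0) →
      ∃ D ∈ S, D.kerJ π ≠ ⊤) (hk : ∀ D ∈ S, D.kerJ σ = ⊤) : Φ = 0 := by
  by_contra h0
  have hst : Stab σ (LinearMap.range Φ) := range_stab α σ Φ hΦ
  obtain ⟨D, hD, hne⟩ := hq (LinearMap.range Φ) (subRep σ (LinearMap.range Φ) hst)
    Φ.rangeRestrict (fun g x => Subtype.ext (hΦ g x)) (LinearMap.surjective_rangeRestrict Φ) (by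
      by_contra hcon
      push Not at hcon
      apply h0
      refine LinearMap.ext fun x => ?_
      have h1 := hcon ⟨Φ x, ⟨x, rfl⟩⟩
      exact congrArg Subtype.val h1)
  apply hne
  exact Orth_sub D (subRep σ (LinearMap.range Φ) hst) σ (smooth_sub _ hσ _ hst) hσ
    (LinearMap.range Φ).subtype (fun _ _ => rfl) Subtype.val_injective (hk D hD)

theorem Orth_dead' (c₁ : κ → ι₁) (c₂ : κ → ι₂) (τ₁ : ι₁ → ℤ) (hτ₁ : Function.Injective τ₁)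
    (τ₂ : ι₂ → ℤ) (hτ₂ : Function.Injective τ₂)
    (σ₁ : Representation ℂ (lev F c₁) E₁) (hσ₁ : IsSm σ₁) (hc₁ : Cusp c₁ σ₁)
    (σ₂ : Representation ℂ (lev F c₂) E₂) (hσ₂ : IsSm σ₂) (hc₂ : Cusp c₂ σ₂)
    (hd : ∀ w : Equiv.Perm κ, ¬ ∀ i j, c₂ (w i) = c₂ (w j) → c₁ i = c₁ j)
    (Φ : ISp c₁ cst τ₁ hτ₁ σ₁ →ₗ[ℂ] ISp c₂ cst τ₂ hτ₂ σ₂)
    (hΦ : Equi (IRp c₁ cst τ₁ hτ₁ σ₁) (IRp c₂ cst τ₂ hτ₂ σ₂) Φ) : Φ = 0 := by
  refine Orth_abs (M := lev F c₁) {D | ∃ (o : κ → ℤ) (h : ∀ i j, c₁ i = c₁ j ↔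
    (fun _ : κ => ()) i = (fun _ : κ => ()) j ∧ o i = o j), D = parD c₁ (fun _ : κ => ()) o h}
    (IRp c₁ cst τ₁ hτ₁ σ₁) (IRp c₂ cst τ₂ hτ₂ σ₂) (ISp_smooth c₂ cst τ₂ hτ₂ σ₂) Φ hΦ ?_ ?_
  · intro V _ _ π q hq hs h0
    obtain ⟨o, h, hne⟩ := Orth_img c₁ τ₁ hτ₁ σ₁ hσ₁ hc₁ π q hq hs h0
    exact ⟨_, ⟨o, h, rfl⟩, hne⟩
  · rintro D ⟨o, h, rfl⟩
    exact Orth_jac c₂ c₁ τ₂ hτ₂ σ₂ hσ₂ hc₂ hd o h

/-- conjugation by a permutation matrix as a transport -/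
theorem Orth_glT (w : Equiv.Perm κ) (g : GL κ F) :
    glT F w g = permG F w * g * (permG F w)⁻¹ := by
  apply Units.ext
  ext i j
  obtain ⟨i, rfl⟩ := w.surjective i
  obtain ⟨j, rfl⟩ := w.surjective j
  rw [glT_apply, permG_conj]

/-- conjugate data with the same colouring -/
theorem Orth_same {ι : Type} [Fintype ι] [DecidableEq ι] (c : κ → ι)
    (hs : Function.Surjective c) (ρ₁ : Representation ℂ (lev F c) V₁) (hρ₁ : IsSm ρ₁)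
    (hi₁ : Irr ρ₁) (hc₁ : Cusp c ρ₁) (ρ₂ : Representation ℂ (lev F c) V₂) (hρ₂ : IsSm ρ₂)
    (hi₂ : Irr ρ₂) (hc₂ : Cusp c ρ₂) (τ₁ τ₂ : ι → ℤ) (hτ₁ : Function.Injective τ₁)
    (hτ₂ : Function.Injective τ₂)
    (Φ : ISp c cst τ₁ hτ₁ (hat c ρ₁) →ₗ[ℂ] ISp c cst τ₂ hτ₂ (hat c ρ₂))
    (hΦ : Equi (IRp c cst τ₁ hτ₁ (hat c ρ₁)) (IRp c cst τ₂ hτ₂ (hat c ρ₂)) Φ) (h0 : Φ ≠ 0) :
    ∃ (w : Equiv.Perm κ) (ω : Equiv.Perm ι) (_ : ∀ i, c (w i) = ω (c i))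
      (hl : ∀ i j, c (w i) = c (w j) ↔ c i = c j), Iso (cjR c w hl ρ₁) ρ₂ := by
  have hL := FS_of_hom c cst τ₁ τ₂ hτ₁ hτ₂ (hat c ρ₁) (hat c ρ₂) Φ hΦ
  have hL0 : ev1 c cst τ₂ hτ₂ (hat c ρ₂) ∘ₗ Φ ≠ 0 := by
    intro h
    apply h0
    refine LinearMap.ext fun f => Subtype.ext (funext fun g => ?_)
    have h2 : (Φ (IRp c cst τ₁ hτ₁ (hat c ρ₁) g f)).1 1 = 0 := LinearMap.congr_fun h _
    rw [hΦ g f] at h2
    have h3 : (Φ f).1 (1 * g) = 0 := h2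
    rw [one_mul] at h3
    exact h3
  obtain ⟨w, hl, Ω', Ω, hst, a, ha0, -, -, ha⟩ := first_cell c cst τ₁ τ₂ hτ₁ hτ₂ (hat c ρ₁)
    (hat_smooth c ρ₁ hρ₁) (cusp_hat c ρ₁ hc₁) (hat c ρ₂) _ hL hL0
  obtain ⟨ω, hω⟩ := block_perm c hs w hl
  refine ⟨w, ω, hω, hl, ?_⟩
  have hT : Equi (hat c (cjR c w hl ρ₁)) (hat c ρ₂) (a ∘ₗ renE V₁ ω) := by
    intro m t
    show a (renE V₁ ω (hat c (cjR c w hl ρ₁) m t)) = hat c ρ₂ m (a (renE V₁ ω t))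
    rw [hat_cj c w ω hω hl ρ₁ m t]
    exact ha m (renE V₁ ω t)
  by_contra hn
  have hT0 := hat_hom_zero c hs (cjR c w hl ρ₁) (cj_smooth c w hl ρ₁ hρ₁) (cj_irr c w hl ρ₁ hi₁)
    (cj_cusp c w hl ρ₁ hc₁) ρ₂ hρ₂ hi₂ hc₂ hn _ hT
  apply ha0
  refine LinearMap.ext fun t => ?_
  have h1 := LinearMap.congr_fun hT0 (renE V₁ ω.symm t)
  rw [LinearMap.comp_apply, Mhom_renE_symm'] at h1
  exact h1

/-- **conjugacy of the data** -/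
theorem Orth_main (c₁ : κ → ι₁) (hs₁ : Function.Surjective c₁) (c₂ : κ → ι₂)
    (hs₂ : Function.Surjective c₂)
    (ρ₁ : Representation ℂ (lev F c₁) V₁) (hρ₁ : IsSm ρ₁) (hi₁ : Irr ρ₁) (hc₁ : Cusp c₁ ρ₁)
    (ρ₂ : Representation ℂ (lev F c₂) V₂) (hρ₂ : IsSm ρ₂) (hi₂ : Irr ρ₂) (hc₂ : Cusp c₂ ρ₂)
    (τ₁ : ι₁ → ℤ) (hτ₁ : Function.Injective τ₁) (τ₂ : ι₂ → ℤ) (hτ₂ : Function.Injective τ₂)
    (Φ : ISp c₁ cst τ₁ hτ₁ (hat c₁ ρ₁) →ₗ[ℂ] ISp c₂ cst τ₂ hτ₂ (hat c₂ ρ₂))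
    (hΦ : Equi (IRp c₁ cst τ₁ hτ₁ (hat c₁ ρ₁)) (IRp c₂ cst τ₂ hτ₂ (hat c₂ ρ₂)) Φ)
    (h0 : Φ ≠ 0) :
    ∃ (u : Equiv.Perm κ) (ub : ι₁ ≃ ι₂) (_ : ∀ i, c₂ (u i) = ub (c₁ i)) (T : V₂ ≃ₗ[ℂ] V₁),
      ∀ (m₁ : lev F c₁) (m₂ : lev F c₂), m₂.1 = glT F u m₁.1 →
        ∀ x, T (ρ₂ m₂ x) = ρ₁ m₁ (T x) := by
  have hlive : ∃ w : Equiv.Perm κ, ∀ i j, c₁ (w i) = c₁ (w j) → c₂ i = c₂ j := by
    by_contra hcon
    exact h0 (Orth_dead c₁ c₂ τ₁ hτ₁ τ₂ hτ₂ (hat c₁ ρ₁) (hat_smooth c₁ ρ₁ hρ₁)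
      (cusp_hat c₁ ρ₁ hc₁) (hat c₂ ρ₂) (fun w hw => hcon ⟨w, hw⟩) Φ hΦ)
  have hlive' : ∃ w : Equiv.Perm κ, ∀ i j, c₂ (w i) = c₂ (w j) → c₁ i = c₁ j := by
    by_contra hcon
    exact h0 (Orth_dead' c₁ c₂ τ₁ hτ₁ τ₂ hτ₂ (hat c₁ ρ₁) (hat_smooth c₁ ρ₁ hρ₁)
      (cusp_hat c₁ ρ₁ hc₁) (hat c₂ ρ₂) (hat_smooth c₂ ρ₂ hρ₂) (cusp_hat c₂ ρ₂ hc₂)
      (fun w hw => hcon ⟨w, hw⟩) Φ hΦ)
  obtain ⟨w, hw⟩ := hlive
  obtain ⟨w', hw'⟩ := hlive'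
  obtain ⟨g, hg, hgw⟩ := Orth_map c₁ hs₁ c₂ hs₂ w hw
  obtain ⟨g', hg', -⟩ := Orth_map c₂ hs₂ c₁ hs₁ w' hw'
  have hcard : Fintype.card ι₁ = Fintype.card ι₂ :=
    le_antisymm (Fintype.card_le_of_surjective g' hg') (Fintype.card_le_of_surjective g hg)
  have hgb : Function.Bijective g := (Fintype.bijective_iff_surjective_and_card g).2 ⟨hg, hcard⟩
  obtain ⟨G, hG⟩ : ∃ G : ι₂ ≃ ι₁, ∀ i, c₁ (w i) = G (c₂ i) := by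
    refine ⟨(Equiv.ofBijective g hgb).symm, fun i => ?_⟩
    rw [hgw]
    exact ((Equiv.ofBijective g hgb).symm_apply_apply _).symm
  have hcl : ∀ i j, c₁ (w i) = c₁ (w j) ↔ c₂ i = c₂ j := SIso_cls w G hG
  -- the transport of the target
  obtain ⟨ρ', hρ'⟩ : ∃ ρ' : Representation ℂ (lev F c₁) V₂,
      ρ' = pull (levT F w hcl).symm ρ₂ := ⟨_, rfl⟩
  have hρm : ∀ (m : lev F c₂) (v : V₂), ρ₂ m v = ρ' (levT F w hcl m) v := by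
    intro m v
    rw [hρ', pull_apply, (levT F w hcl).symm_apply_apply]
  have hpull : pull (levT F w hcl) ρ' = ρ₂ := by
    apply MonoidHom.ext
    intro m
    exact LinearMap.ext fun v => (hρm m v).symm
  have hsm' : IsSm ρ' := by
    rw [hρ']
    exact (pull_sm _ ρ₂).2 hρ₂
  have hi' : Irr ρ' := by
    rw [hρ']
    exact (pull_irr _ ρ₂).2 hi₂
  have hc' : Cusp c₁ ρ' := by
    rw [← cusp_T w hcl ρ', hpull]
    exact hc₂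
  let s : SIso c₂ ρ₂ c₁ ρ' := ⟨w, G, hG, LinearEquiv.refl ℂ V₂, hρm⟩
  have hτ' : Function.Injective fun x => τ₂ (G.symm x) := fun x y h => G.symm.injective (hτ₂ h)
  have hβ : ∀ x y : ι₂, (cst (s.ε x) : Unit) = cst (s.ε y) ↔ (cst x : Unit) = cst y :=
    fun _ _ => Iff.rfl
  have hττ : ∀ x y : ι₂, (cst x : Unit) = cst y →
      (τ₂ x < τ₂ y ↔ τ₂ (G.symm (s.ε x)) < τ₂ (G.symm (s.ε y))) := by
    intro x y _
    show _ ↔ τ₂ (G.symm (G x)) < τ₂ (G.symm (G y))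
    rw [G.symm_apply_apply, G.symm_apply_apply]
  have hall : ∀ x : GL κ F, x ∈ lev F (fun i => (cst (c₁ i) : Unit)) :=
    fun x i j h => absurd rfl h
  let Ψ : ISp c₂ cst τ₂ hτ₂ (hat c₂ ρ₂) ≃ₗ[ℂ] ISp c₁ cst (fun x => τ₂ (G.symm x)) hτ' (hat c₁ ρ') :=
    s.I hβ hτ₂ hτ' hττ
  have hΨ : ∀ (g : lev F (fun i => (cst (c₁ i) : Unit))) (f : ISp c₂ cst τ₂ hτ₂ (hat c₂ ρ₂)),
      Ψ (IRp c₂ cst τ₂ hτ₂ (hat c₂ ρ₂) g f) =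
        IRp c₁ cst (fun x => τ₂ (G.symm x)) hτ' (hat c₁ ρ')
          (⟨permG F w, hall _⟩ * g * ⟨permG F w, hall _⟩⁻¹) (Ψ f) := by
    intro g f
    have h1 := s.I_equi hβ hτ₂ hτ' hττ g f
    have h2 : s.T hβ g = ⟨permG F w, hall _⟩ * g * ⟨permG F w, hall _⟩⁻¹ :=
      Subtype.ext (Orth_glT w g.1)
    rw [h2] at h1
    exact h1
  obtain ⟨Φ', hΦ'⟩ : ∃ Φ' : ISp c₁ cst τ₁ hτ₁ (hat c₁ ρ₁) →ₗ[ℂ]
      ISp c₁ cst (fun x => τ₂ (G.symm x)) hτ' (hat c₁ ρ'), ∀ f,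
      Φ' f = IRp c₁ cst (fun x => τ₂ (G.symm x)) hτ' (hat c₁ ρ')
        (⟨permG F w, hall _⟩⁻¹) (Ψ (Φ f)) :=
    ⟨(IRp c₁ cst (fun x => τ₂ (G.symm x)) hτ' (hat c₁ ρ') (⟨permG F w, hall _⟩⁻¹)) ∘ₗ
      (Ψ : _ →ₗ[ℂ] _) ∘ₗ Φ, fun _ => rfl⟩
  have hΦe : Equi (IRp c₁ cst τ₁ hτ₁ (hat c₁ ρ₁))
      (IRp c₁ cst (fun x => τ₂ (G.symm x)) hτ' (hat c₁ ρ')) Φ' := by
    intro g f
    rw [hΦ', hΦ', hΦ g f, hΨ, ← Module.End.mul_apply, ← map_mul, ← Module.End.mul_apply,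
      ← map_mul]
    congr 2
    group
  have hΦ0 : Φ' ≠ 0 := by
    intro h
    apply h0
    refine LinearMap.ext fun f => ?_
    have h1 : Φ' f = 0 := by rw [h]; rfl
    rw [hΦ'] at h1
    have h2 := congrArg (IRp c₁ cst (fun x => τ₂ (G.symm x)) hτ' (hat c₁ ρ')
      ⟨permG F w, hall _⟩) h1
    rw [map_zero, ← Module.End.mul_apply, ← map_mul, mul_inv_cancel, map_one,
      Module.End.one_apply] at h2
    exact Ψ.map_eq_zero_iff.1 h2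
  obtain ⟨w₁, ω, hω, hl, A, hA⟩ := Orth_same c₁ hs₁ ρ₁ hρ₁ hi₁ hc₁ ρ' hsm' hi' hc' τ₁ _ hτ₁ hτ'
    Φ' hΦe hΦ0
  refine ⟨w₁.symm.trans w.symm, ω.symm.trans G.symm, fun i => ?_, A.symm, ?_⟩
  · obtain ⟨i, rfl⟩ := w₁.surjective i
    obtain ⟨j, rfl⟩ := w.surjective i
    show c₂ (w.symm (w₁.symm (w₁ (w j)))) = G.symm (ω.symm (c₁ (w₁ (w j))))
    rw [w₁.symm_apply_apply, w.symm_apply_apply, hω, ω.symm_apply_apply, hG, G.symm_apply_apply]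
  · intro m₁ m₂ hm x
    obtain ⟨y, rfl⟩ := A.surjective x
    obtain ⟨m, rfl⟩ := Mhom_cjH_surj c₁ w₁ hl m₁
    apply A.injective
    rw [A.apply_symm_apply, A.symm_apply_apply]
    have h1 : A (ρ₁ (cjH c₁ w₁ hl m) y) = ρ' m (A y) := hA m y
    rw [h1, hρm]
    congr 2
    refine Subtype.ext ?_
    rw [levT_val, hm]
    apply Units.ext
    ext i j
    obtain ⟨i, rfl⟩ := w.surjective i
    obtain ⟨j, rfl⟩ := w.surjective j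
    rw [glT_apply]
    have h2 := glT_apply (w₁.symm.trans w.symm) (cjH c₁ w₁ hl m).1 (w₁ (w i)) (w₁ (w j))
    have h3 : ∀ k, (w₁.symm.trans w.symm) (w₁ (w k)) = k := fun k => by
      show w.symm (w₁.symm (w₁ (w k))) = k
      rw [w₁.symm_apply_apply, w.symm_apply_apply]
    rw [h3, h3] at h2
    rw [h2]
    exact permG_conj w₁ m.1 (w i) (w j)

end

end Pool.Agent.Lib.MP_ca1492_al.D5
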