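import Mathlib
import Pool.Agent.Lib.MP_ca1492_al.P.LevT
import Pool.Agent.Lib.MP_ca1492_al.P.TenIso

/-!
# MP_ca1492_al, S5/OrthT: isomorphisms of external tensor products of different families

`u : sk R ≃ sk R'` a bijection mapping the block `a` to the block `ub a`. If the transport of `tenRep R'`
along `u` is isomorphic to `tenRep R`, then `R a` is isomorphic to `R' (ub a)` for all `a`
(as in `P/TenIso.lean`, which is the case `R' = R`).
-/

set_option autoImplicit false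

namespace Pool.Agent.Lib.MP_ca1492_al.P

open Topology Matrix ValuativeRel TensorProduct
open Pool.Agent.Lib.MP_ca1492_al.Q (GLRep)

noncomputable section

variable {F : Type} [Field F] [ValuativeRel F] [TopologicalSpace F]
  [IsNonarchimedeanLocalField F]
variable {ι ι' : Type} [Fintype ι] [DecidableEq ι] [Fintype ι'] [DecidableEq ι']
  (R : ι → GLRep F) (R' : ι' → GLRep F)

omit [ValuativeRel F] [TopologicalSpace F] [IsNonarchimedeanLocalField F] [Fintype ι]
  [DecidableEq ι] [Fintype ι'] [DecidableEq ι'] in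
/-- the bijection of the index sets of the blocks `a` and `ub a` -/
theorem OrthT_equiv (u : sk R ≃ sk R') (ub : ι ≃ ι')
    (hu : ∀ i, (u i).1 = ub i.1) (a : ι) :
    ∃ e : (R a).κ ≃ (R' (ub a)).κ, ∀ x, u ⟨a, x⟩ = ⟨ub a, e x⟩ := by
  have h1 : ∀ x : (R a).κ, ∃ y : (R' (ub a)).κ, u ⟨a, x⟩ = ⟨ub a, y⟩ := by
    intro x
    have h2 := hu ⟨a, x⟩
    rcases h3 : u ⟨a, x⟩ with ⟨b, y⟩
    rw [h3] at h2
    change b = ub a at h2
    subst h2
    exact ⟨y, rfl⟩
  choose e he using h1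
  refine ⟨Equiv.ofBijective e ⟨fun x y hxy => ?_, fun y => ?_⟩, he⟩
  · have h2 : u ⟨a, x⟩ = u ⟨a, y⟩ := by rw [he, he, hxy]
    exact eq_of_heq (Sigma.mk.inj (u.injective h2)).2
  · have h2 := hu (u.symm ⟨ub a, y⟩)
    rw [Equiv.apply_symm_apply] at h2
    change ub a = ub (u.symm ⟨ub a, y⟩).1 at h2
    have h3 : a = (u.symm ⟨ub a, y⟩).1 := ub.injective h2
    rcases h4 : u.symm ⟨ub a, y⟩ with ⟨b, x⟩
    rw [h4] at h3
    change a = b at h3
    subst h3
    refine ⟨x, ?_⟩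
    have h5 : u ⟨a, x⟩ = ⟨ub a, y⟩ := by rw [← h4, Equiv.apply_symm_apply]
    rw [he] at h5
    exact eq_of_heq (Sigma.mk.inj h5).2

/-- blocks of the transport -/
theorem OrthT_blk (u : sk R ≃ sk R') (ub : ι ≃ ι') (a : ι)
    (e : (R a).κ ≃ (R' (ub a)).κ) (he : ∀ x, u ⟨a, x⟩ = ⟨ub a, e x⟩) (m : lev F (sc R))
    (m' : lev F (sc R')) (hm : m'.1 = glT F u m.1) :
    blkM F (fun a => (R' a).κ) (ub a) m' =
      Q.GLRep.glRe (F := F) e (blkM F (fun a => (R a).κ) a m) := by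
  apply Units.ext
  ext x y
  obtain ⟨x, rfl⟩ := e.surjective x
  obtain ⟨y, rfl⟩ := e.surjective y
  have h1 : (blkM F (fun a => (R' a).κ) (ub a) m' :
      Matrix (R' (ub a)).κ (R' (ub a)).κ F) (e x) (e y) =
      (m'.1 : Matrix (sk R') (sk R') F) ⟨ub a, e x⟩ ⟨ub a, e y⟩ := rfl
  rw [h1, ← he, ← he, hm, glT_apply]
  exact (glT_apply e (blkM F (fun a => (R a).κ) a m) x y).symm

/-- the transport of one block in place -/
theorem OrthT_inM (u : sk R ≃ sk R') (ub : ι ≃ ι') (hu : ∀ i, (u i).1 = ub i.1) (a : ι)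
    (e : (R a).κ ≃ (R' (ub a)).κ) (he : ∀ x, u ⟨a, x⟩ = ⟨ub a, e x⟩) (h : GL (R a).κ F) :
    (inM F (fun a => (R' a).κ) (ub a) (Q.GLRep.glRe (F := F) e h)).1 =
      glT F u (inM F (fun a => (R a).κ) a h).1 := by
  have hcl : ∀ i j, sc R' (u i) = sc R' (u j) ↔ sc R i = sc R j := by
    intro i j
    show (u i).1 = (u j).1 ↔ i.1 = j.1
    rw [hu, hu, ub.apply_eq_iff_eq]
  have h1 : levT F u hcl (inM F (fun a => (R a).κ) a h) =
      inM F (fun a => (R' a).κ) (ub a) (Q.GLRep.glRe (F := F) e h) := by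
    apply TenIso_ext
    intro b
    obtain ⟨a', rfl⟩ := ub.surjective b
    by_cases haa : a' = a
    · subst haa
      rw [OrthT_blk R R' u ub a' e he _ _ (levT_val u hcl _), blkM_inM, blkM_inM]
    · obtain ⟨e', he'⟩ := OrthT_equiv R R' u ub hu a'
      rw [OrthT_blk R R' u ub a' e' he' _ _ (levT_val u hcl _), blkM_inM_ne _ _ _ haa,
        blkM_inM_ne _ _ _ (fun h' => haa (ub.injective h')), map_one]
  rw [← h1, levT_val]

theorem ten_iso2 (hR : ∀ a, (R a).Cusp) (hR' : ∀ b, (R' b).Cusp) (u : sk R ≃ sk R')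
    (ub : ι ≃ ι') (hu : ∀ i, (u i).1 = ub i.1)
    (T : (⨂[ℂ] b, (R' b).V) ≃ₗ[ℂ] (⨂[ℂ] a, (R a).V))
    (hT : ∀ (m : lev F (sc R)) (m' : lev F (sc R')), m'.1 = glT F u m.1 →
      ∀ x, T (tenRep R' m' x) = tenRep R m (T x)) (a : ι) : (R a).Isom (R' (ub a)) := by
  obtain ⟨e, he⟩ := OrthT_equiv R R' u ub hu a
  have hT' : ∀ (h : GL (R a).κ F) (x : ⨂[ℂ] b, (R' b).V),
      T (tenRep R' (inM F (fun a => (R' a).κ) (ub a) (Q.GLRep.glRe (F := F) e h)) x) =
        tenRep R (inM F (fun a => (R a).κ) a h) (T x) := fun h x =>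
    hT _ _ (OrthT_inM R R' u ub hu a e he h) x
  have hv : ∀ b, ∃ v : (R' b).V, v ≠ 0 := fun b => (hR' b).2.1.1
  choose v hv using hv
  let S₁ : (R' (ub a)).V →ₗ[ℂ] (⨂[ℂ] a, (R' a).V) :=
    (PiTensorProduct.tprod ℂ (s := fun a => (R' a).V)).toLinearMap v (ub a)
  have hS₁ : ∀ y, S₁ y = PiTensorProduct.tprod ℂ (Function.update v (ub a) y) := fun _ => rfl
  have hS₁e : ∀ (g : GL (R' (ub a)).κ F) (y : (R' (ub a)).V),
      S₁ ((R' (ub a)).π g y) = tenRep R' (inM F (fun a => (R' a).κ) (ub a) g) (S₁ y) := by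
    intro g y
    rw [hS₁, hS₁, TenIso_act, Function.update_self, Function.update_idem]
  have ht : T (S₁ (v (ub a))) ≠ 0 := by
    intro h0
    have h1 : S₁ (v (ub a)) = 0 := by
      apply T.injective
      rw [h0, map_zero]
    rw [hS₁, Function.update_eq_self] at h1
    exact tprod_ne_zero R' v hv h1
  obtain ⟨l, C, hC, hCt⟩ := ten_sep R a _ ht
  have hCe : ∀ (h : GL (R a).κ F) (x : ⨂[ℂ] a, (R a).V),
      C (tenRep R (inM F (fun a => (R a).κ) a h) x) = (R a).π h (C x) := by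
    intro h x
    have h1 : C ∘ₗ tenRep R (inM F (fun a => (R a).κ) a h) = (R a).π h ∘ₗ C := by
      apply PiTensorProduct.ext
      ext w
      change C (tenRep R (inM F (fun a => (R a).κ) a h) (PiTensorProduct.tprod ℂ w)) =
        (R a).π h (C (PiTensorProduct.tprod ℂ w))
      rw [TenIso_act, hC, hC, Function.update_self, map_smul]
      congr 1
      refine Finset.prod_congr rfl fun b hb => ?_
      rw [Function.update_of_ne (Finset.ne_of_mem_erase hb)]
    exact LinearMap.congr_fun h1 x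
  let f : (R' (ub a)).V →ₗ[ℂ] (R a).V := C ∘ₗ (T : (⨂[ℂ] a, (R' a).V) →ₗ[ℂ] _) ∘ₗ S₁
  have hfa : ∀ y, f y = C (T (S₁ y)) := fun _ => rfl
  have hf : ∀ (h : GL (R a).κ F) (y : (R' (ub a)).V),
      f ((R' (ub a)).π (Q.GLRep.glRe (F := F) e h) y) = (R a).π h (f y) := by
    intro h y
    rw [hfa, hfa, hS₁e, hT', hCe]
  have hbij : Function.Bijective f := by
    refine irr_equi (pull (glT F e) (R' (ub a)).π) (R a).π f (fun h y => hf h y)
      ((pull_irr _ _).2 (hR' (ub a)).2.1) (hR a).2.1 ?_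
    intro h0
    apply hCt
    rw [← hfa, h0]
    rfl
  let E := LinearEquiv.ofBijective f hbij
  refine ⟨e, E.symm, fun g x => ?_⟩
  apply E.injective
  rw [LinearEquiv.apply_symm_apply]
  have h2 : E ((R' (ub a)).π (Q.GLRep.glRe (F := F) e g) (E.symm x)) =
      (R a).π g (E (E.symm x)) := hf g (E.symm x)
  rw [h2, LinearEquiv.apply_symm_apply]

end

end Pool.Agent.Lib.MP_ca1492_al.P
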