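import Mathlib
import Pool.Agent.Lib.MP_ca1492_al.S5.Defs
import Pool.Agent.Lib.MP_ca1492_al.S5.OrthA
import Pool.Agent.Lib.MP_ca1492_al.S5.OrthT

/-!
# MP_ca1492_al, S5/Orth: words with different letters

No equivariant maps between `W_v` and `W_w` if the letters of `v` and `w` (with multiplicities) are different.
A nonzero equivariant map has a nonzero component `IP σ → IP τ` (`emb`, `fam`), transport to the index set of `v`
(`SIso`), `Orth_main` (conjugate data), `ten_iso2` (the letters agree up to a bijection of the strands).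
-/

set_option autoImplicit false

namespace Pool.Agent.Lib.MP_ca1492_al.L

open Topology Matrix TensorProduct ValuativeRel CA1492 CA1492.PA
open Pool.Agent.Lib.MP_ca1492_al.P Pool.Agent.Lib.MP_ca1492_al.Q Pool.Agent.Lib.MP_ca1492_al.D5

noncomputable section

variable {F : Type} [Field F] [ValuativeRel F] [TopologicalSpace F]
  [IsNonarchimedeanLocalField F]
variable {D : Dat} {RJ : D.J → GLRep F} {e : D.J → D.J → PowerSeries ℂ}

theorem Orth_trans {κ κ' κ'' : Type} [Fintype κ] [DecidableEq κ] [Fintype κ'] [DecidableEq κ']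
    [Fintype κ''] [DecidableEq κ''] (u : κ ≃ κ') (u' : κ' ≃ κ'') (g : GL κ F) :
    glT F (u.trans u') g = glT F u' (glT F u g) := by
  apply Units.ext
  ext i j
  obtain ⟨i, rfl⟩ := u'.surjective i
  obtain ⟨j, rfl⟩ := u'.surjective j
  obtain ⟨i, rfl⟩ := u.surjective i
  obtain ⟨j, rfl⟩ := u.surjective j
  rw [glT_apply u', glT_apply u]
  exact glT_apply (u.trans u') g i j

theorem Orth_ms {J : Type} {n m : ℕ} (v : Fin n → J) (w : Fin m → J) (ub : Fin n ≃ Fin m)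
    (h : ∀ a, v a = w (ub a)) : (List.ofFn v : Multiset J) = (List.ofFn w : Multiset J) := by
  rw [← Fin.univ_val_map, ← Fin.univ_val_map]
  have h1 : v = w ∘ ub := funext h
  rw [h1, ← Multiset.map_map, Multiset.map_univ_val_equiv]

theorem Orth_IP (h : TwoD D RJ e) {n m : ℕ} (v : Wd D n) (w : Wd D m)
    (e₀ : sk (fun a => RJ (v a)) ≃ sk (fun a => RJ (w a))) (σ : Equiv.Perm (Fin n))
    (τ : Equiv.Perm (Fin m))
    (Φ : IP (sc fun a => RJ (v a)) (tenRep fun a => RJ (v a)) σ →ₗ[ℂ]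
      IP (sc fun a => RJ (w a)) (tenRep fun a => RJ (w a)) τ)
    (hΦ : ∀ (g : GL (sk (fun a => RJ (v a))) F) f,
      Φ (gI _ (tenRep fun a => RJ (v a)) (toC F _ g) σ f) =
        gI _ (tenRep fun a => RJ (w a)) (toC F _ (GLRep.glRe e₀ g)) τ (Φ f)) (h0 : Φ ≠ 0) :
    (List.ofFn v : Multiset D.J) = (List.ofFn w : Multiset D.J) := by
  have hRv : ∀ a, (RJ (v a)).Cusp := fun a => h.hR _
  have hRw : ∀ a, (RJ (w a)).Cusp := fun a => h.hR _
  -- transport of the target to the index set of `v`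
  obtain ⟨c₂, hc₂⟩ : ∃ c₂ : sk (fun a => RJ (v a)) → Fin m,
      ∀ i, (sc fun a => RJ (w a)) (e₀ i) = c₂ i := ⟨_, fun _ => rfl⟩
  have hcl : ∀ i j, (sc fun a => RJ (w a)) (e₀ i) = (sc fun a => RJ (w a)) (e₀ j) ↔
      c₂ i = c₂ j := fun i j => by rw [hc₂, hc₂]
  obtain ⟨ρ₂, hρ₂⟩ : ∃ ρ₂ : Representation ℂ (lev F c₂) _,
      ρ₂ = pull (levT F e₀ hcl) (tenRep fun a => RJ (w a)) := ⟨_, rfl⟩
  have hρm : ∀ (m' : lev F c₂) x, ρ₂ m' x = (tenRep fun a => RJ (w a)) (levT F e₀ hcl m') x := by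
    intro m' x
    rw [hρ₂, pull_apply]
  have hs₂ : Function.Surjective c₂ := by
    intro x
    obtain ⟨y, hy⟩ := sc_surj _ hRw x
    obtain ⟨i, rfl⟩ := e₀.surjective y
    exact ⟨i, by rw [← hc₂, hy]⟩
  have hsm₂ : IsSm ρ₂ := by
    rw [hρ₂]
    exact (pull_sm _ _).2 (ten_smooth _ fun a => (hRw a).1)
  have hi₂ : Irr ρ₂ := by
    rw [hρ₂]
    exact (pull_irr _ _).2 (ten_irr _ hRw)
  have hcu₂ : Cusp c₂ ρ₂ := by
    rw [hρ₂, cusp_T]
    exact ten_cusp _ hRw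
  let s : SIso c₂ ρ₂ (sc fun a => RJ (w a)) (tenRep fun a => RJ (w a)) :=
    ⟨e₀, Equiv.refl _, hc₂, LinearEquiv.refl ℂ _, hρm⟩
  have hβ : ∀ x y : Fin m, (cst (s.ε x) : Unit) = cst (s.ε y) ↔ (cst x : Unit) = cst y :=
    fun _ _ => Iff.rfl
  have hττ : ∀ x y : Fin m, (cst x : Unit) = cst y →
      (ordP τ x < ordP τ y ↔ ordP τ (s.ε x) < ordP τ (s.ε y)) := fun _ _ _ => Iff.rfl
  let Ψ : ISp c₂ cst (ordP τ) (ordP_inj τ) (hat c₂ ρ₂) ≃ₗ[ℂ]
      IP (sc fun a => RJ (w a)) (tenRep fun a => RJ (w a)) τ :=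
    s.I hβ (ordP_inj τ) (ordP_inj τ) hττ
  have hΨ : ∀ (g : GL (sk (fun a => RJ (v a))) F)
      (f : ISp c₂ cst (ordP τ) (ordP_inj τ) (hat c₂ ρ₂)),
      Ψ (IRp c₂ cst (ordP τ) (ordP_inj τ) (hat c₂ ρ₂) ⟨g, fun _ _ h => absurd rfl h⟩ f) =
        gI _ (tenRep fun a => RJ (w a)) (toC F _ (GLRep.glRe e₀ g)) τ (Ψ f) := fun g f =>
    s.I_equi hβ (ordP_inj τ) (ordP_inj τ) hττ ⟨g, fun _ _ h => absurd rfl h⟩ f
  obtain ⟨Φ', hΦ'⟩ : ∃ Φ' : IP (sc fun a => RJ (v a)) (tenRep fun a => RJ (v a)) σ →ₗ[ℂ]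
      ISp c₂ cst (ordP τ) (ordP_inj τ) (hat c₂ ρ₂), ∀ f, Ψ (Φ' f) = Φ f :=
    ⟨(Ψ.symm : _ →ₗ[ℂ] _) ∘ₗ Φ, fun f => Ψ.apply_symm_apply _⟩
  have hΦe : ∀ (g : lev F (fun i => (cst ((sc fun a => RJ (v a)) i) : Unit)))
      (f : IP (sc fun a => RJ (v a)) (tenRep fun a => RJ (v a)) σ),
      Φ' (IRp (sc fun a => RJ (v a)) cst (ordP σ) (ordP_inj σ)
        (hat (sc fun a => RJ (v a)) (tenRep fun a => RJ (v a))) g f) =
        IRp c₂ cst (ordP τ) (ordP_inj τ) (hat c₂ ρ₂) g (Φ' f) := by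
    intro g f
    apply Ψ.injective
    rw [hΦ']
    exact (hΦ g.1 f).trans ((congrArg _ (hΦ' f).symm).trans (hΨ g.1 (Φ' f)).symm)
  have hΦ0 : Φ' ≠ 0 := by
    intro hz
    apply h0
    refine LinearMap.ext fun f => ?_
    rw [← hΦ', hz]
    exact map_zero Ψ
  obtain ⟨u, ub, hu, T, hT⟩ := Orth_main (sc fun a => RJ (v a)) (sc_surj _ hRv) c₂ hs₂
    (tenRep fun a => RJ (v a)) (ten_smooth _ fun a => (hRv a).1) (ten_irr _ hRv) (ten_cusp _ hRv)
    ρ₂ hsm₂ hi₂ hcu₂ (ordP σ) (ordP_inj σ) (ordP τ) (ordP_inj τ) Φ' hΦe hΦ0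
  refine Orth_ms v w ub fun a => ?_
  by_contra hne
  refine h.hne _ _ hne (ten_iso2 (fun a => RJ (v a)) (fun a => RJ (w a)) hRv hRw (u.trans e₀) ub
    (fun i => ?_) T (fun m₁ m₂ hm x => ?_) a)
  · exact (hc₂ (u i)).trans (hu i)
  · obtain ⟨m₂, rfl⟩ := (levT F e₀ hcl).surjective m₂
    rw [← hρm]
    refine hT m₁ m₂ ?_ x
    rw [levT_val, Orth_trans] at hm
    exact (glT F e₀).injective hm

theorem Orth_WT (h : TwoD D RJ e) {n m : ℕ} (v : Wd D n) (w : Wd D m)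
    (e₀ : sk (fun a => RJ (v a)) ≃ sk (fun a => RJ (w a)))
    (f : WT v (SWt (str h v)) →ₗ[ℂ] WT w (SWt (str h w)))
    (hf : ∀ (g : GL (sk (fun a => RJ (v a))) F) (x : WT v (SWt (str h v))),
      f (WR (str h v) g x) = WR (str h w) (GLRep.glRe e₀ g) (f x))
    (h0 : f ≠ 0) : (List.ofFn v : Multiset D.J) = (List.ofFn w : Multiset D.J) := by
  -- a nonzero component
  have h1 : ∃ (σ : Equiv.Perm (Fin n)) (y : IP (sc fun a => RJ (v a))
      (tenRep fun a => RJ (v a)) σ), f (emb (wsys (str h v)) σ y) ≠ 0 := by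
    by_contra hcon
    push Not at hcon
    apply h0
    refine LinearMap.ext fun x => ?_
    have h2 : ∀ σ : Equiv.Perm (Fin n), f ((wE (wsys (str h v)) (v ∘ σ)).1 x) = 0 := by
      intro σ
      have h3 : emb (wsys (str h v)) σ (fam ((wE (wsys (str h v)) (v ∘ σ)).1 x) σ) =
          (wE (wsys (str h v)) (v ∘ σ)).1 x := by
        refine emb_fam (wsys (str h v)) σ _ ?_
        refine fam_ext fun τ => ?_
        rw [wE_apply, wE_apply]
        split_ifs <;> rfl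
      rw [← h3]
      exact hcon σ _
    have h4 : x = ∑ w' ∈ Finset.univ.image (fun σ : Equiv.Perm (Fin n) => v ∘ σ),
        (wE (wsys (str h v)) w').1 x := by
      refine fam_ext fun τ => ?_
      have h5 : ∀ s : Finset (Wd D n), fam (∑ w' ∈ s, (wE (wsys (str h v)) w').1 x) τ =
          ∑ w' ∈ s, fam ((wE (wsys (str h v)) w').1 x) τ := by
        intro s
        induction s using Finset.induction_on with
        | empty => rfl
        | insert a s ha ih => rw [Finset.sum_insert ha, Finset.sum_insert ha, fam_add, ih]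
      rw [h5, Finset.sum_eq_single (v ∘ τ)]
      · rw [wE_apply, if_pos rfl]
      · intro w' _ hne
        rw [wE_apply, if_neg (fun h' => hne h'.symm)]
      · intro hn
        exact absurd (Finset.mem_image.2 ⟨τ, Finset.mem_univ _, rfl⟩) hn
    rw [h4, map_sum]
    refine Finset.sum_eq_zero fun w' hw' => ?_
    obtain ⟨σ, -, rfl⟩ := Finset.mem_image.1 hw'
    exact h2 σ
  obtain ⟨σ, y, hy⟩ := h1
  have h2 : ∃ τ : Equiv.Perm (Fin m), fam (f (emb (wsys (str h v)) σ y)) τ ≠ 0 := by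
    by_contra hcon
    push Not at hcon
    exact hy (fam_ext fun τ => hcon τ)
  obtain ⟨τ, hτ⟩ := h2
  refine Orth_IP h v w e₀ σ τ
    { toFun := fun y => fam (f (emb (wsys (str h v)) σ y)) τ
      map_add' := fun a b => by rw [map_add, map_add, fam_add]
      map_smul' := fun z a => by rw [map_smul, map_smul, fam_smul]; rfl } (fun g y => ?_) ?_
  · have h3 := gW_emb (wsys (str h v)) (toC F _ g) σ y
    have h4 := hf g (emb (wsys (str h v)) σ y)
    show fam (f (emb (wsys (str h v)) σ (gI _ _ (toC F _ g) σ y))) τ = _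
    rw [← h3]
    exact congrArg (fun z => fam z τ) h4
  · intro hz
    exact hτ (LinearMap.congr_fun hz y)

theorem sys_orth (h : TwoD D RJ e) {n m : ℕ} (v : Wd D n) (w : Wd D m)
    (hvw : (List.ofFn v : Multiset D.J) ≠ (List.ofFn w : Multiset D.J)) :
    (sysB h v).Orth (sysB h w) := by
  intro e₀ f hf
  by_contra h0
  exact hvw (Orth_WT h v w e₀ f hf h0)

end

end Pool.Agent.Lib.MP_ca1492_al.L
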