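import Mathlib
import Pool.Agent.Lib.MP_ca1492_al.Cmp.PairS

/-!
# MP_ca1492_al, S5/ProdA: letter preserving permutations and the splitting of the strands
-/

set_option autoImplicit false
set_option linter.unusedSectionVars false

namespace Pool.Agent.Lib.MP_ca1492_al.P

open Topology Matrix ValuativeRel TensorProduct
open Pool.Agent.Lib.MP_ca1492_al.Q (GLRep)

noncomputable section

variable {F : Type} [Field F] [ValuativeRel F] [TopologicalSpace F]
  [IsNonarchimedeanLocalField F]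

section

variable {J : Type} (RJ : J → GLRep F) {ι ι₁ ι₂ : Type} [Fintype ι] [DecidableEq ι]
  [Fintype ι₁] [DecidableEq ι₁] [Fintype ι₂] [DecidableEq ι₂] (l : ι → J)
  (ε : ι₁ ⊕ ι₂ ≃ ι)
    (s : SIso (Sum.map (sc fun x => RJ (l (ε (Sum.inl x)))) (sc fun y => RJ (l (ε (Sum.inr y)))))
        (ext (tenRep fun x => RJ (l (ε (Sum.inl x)))) (tenRep fun y => RJ (l (ε (Sum.inr y)))))
        (sc fun a => RJ (l a)) (tenRep fun a => RJ (l a)))
    (hε : s.ε = ε) (he₁ : ∀ x i, s.e (Sum.inl ⟨x, i⟩) = ⟨ε (Sum.inl x), i⟩)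
    (he₂ : ∀ y i, s.e (Sum.inr ⟨y, i⟩) = ⟨ε (Sum.inr y), i⟩)
    (hA : ∀ v : ∀ a, (RJ (l a)).V, s.A ((PiTensorProduct.tprod ℂ fun x => v (ε (Sum.inl x))) ⊗ₜ[ℂ]
        (PiTensorProduct.tprod ℂ fun y => v (ε (Sum.inr y)))) = PiTensorProduct.tprod ℂ v)
    (w : Equiv.Perm ι) (w₁ : Equiv.Perm ι₁) (w₂ : Equiv.Perm ι₂)
    (hl : ∀ x, w (ε (Sum.inl x)) = ε (Sum.inl (w₁ x)))
    (hr : ∀ y, w (ε (Sum.inr y)) = ε (Sum.inr (w₂ y)))
    (hw : ∀ a, l (w a) = l a)
    (hw₁ : ∀ x, l (ε (Sum.inl (w₁ x))) = l (ε (Sum.inl x)))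
    (hw₂ : ∀ y, l (ε (Sum.inr (w₂ y))) = l (ε (Sum.inr y)))

theorem pa_poly (p : MvPolynomial ι₁ ℂ) (q : MvPolynomial ι₂ ℂ)
    (hl : ∀ x, w (ε (Sum.inl x)) = ε (Sum.inl (w₁ x)))
    (hr : ∀ y, w (ε (Sum.inr y)) = ε (Sum.inr (w₂ y))) :
    MvPolynomial.rename w (MvPolynomial.rename ε
        (MvPolynomial.rename Sum.inl p * MvPolynomial.rename Sum.inr q)) =
      MvPolynomial.rename ε (MvPolynomial.rename Sum.inl (MvPolynomial.rename w₁ p) *
        MvPolynomial.rename Sum.inr (MvPolynomial.rename w₂ q)) := by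
  have e1 : MvPolynomial.rename w (MvPolynomial.rename ε (MvPolynomial.rename Sum.inl p)) =
      MvPolynomial.rename ε (MvPolynomial.rename Sum.inl (MvPolynomial.rename w₁ p)) := by
    rw [MvPolynomial.rename_rename, MvPolynomial.rename_rename, MvPolynomial.rename_rename,
      MvPolynomial.rename_rename]
    exact congrArg (fun f => MvPolynomial.rename f p) (funext hl)
  have e2 : MvPolynomial.rename w (MvPolynomial.rename ε (MvPolynomial.rename Sum.inr q)) =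
      MvPolynomial.rename ε (MvPolynomial.rename Sum.inr (MvPolynomial.rename w₂ q)) := by
    rw [MvPolynomial.rename_rename, MvPolynomial.rename_rename, MvPolynomial.rename_rename,
      MvPolynomial.rename_rename]
    exact congrArg (fun f => MvPolynomial.rename f q) (funext hr)
  rw [map_mul, map_mul, map_mul, e1, e2]

include he₁ he₂ hl hr in
/-- the block permutations correspond -/
theorem pa_bperm (i : sk (fun x => RJ (l (ε (Sum.inl x)))) ⊕
    sk (fun y => RJ (l (ε (Sum.inr y))))) :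
    bperm RJ l w hw (s.e i) =
      s.e (Sum.map (bperm RJ (fun x => l (ε (Sum.inl x))) w₁ hw₁)
        (bperm RJ (fun y => l (ε (Sum.inr y))) w₂ hw₂) i) := by
  rcases i with ⟨x, k⟩ | ⟨y, k⟩
  · rw [he₁]
    show _ = s.e (Sum.inl ⟨w₁ x, castK RJ _ k⟩)
    rw [he₁]
    exact TenAw_sig RJ l (hl x) _ _ k
  · rw [he₂]
    show _ = s.e (Sum.inr ⟨w₂ y, castK RJ _ k⟩)
    rw [he₂]
    exact TenAw_sig RJ l (hr y) _ _ k

include he₁ he₂ hl hr in
/-- the elements correspond -/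
theorem pa_blk : (permG F (bperm RJ l w hw))⁻¹ = glT F s.e (Q.blk F
    (permG F (bperm RJ (fun x => l (ε (Sum.inl x))) w₁ hw₁))⁻¹
    (permG F (bperm RJ (fun y => l (ε (Sum.inr y))) w₂ hw₂))⁻¹ 0) := by
  refine Units.ext (Matrix.ext fun i j => ?_)
  obtain ⟨i, rfl⟩ := s.e.surjective i
  obtain ⟨j, rfl⟩ := s.e.surjective j
  rw [glT_apply, PairS_perm_inv, pa_bperm RJ l ε s he₁ he₂ w w₁ w₂ hl hr hw hw₁ hw₂, LevT_one]
  show _ = Matrix.fromBlocks
    (((permG F (bperm RJ (fun x => l (ε (Sum.inl x))) w₁ hw₁))⁻¹ : GL _ F) : Matrix _ _ F) 0 0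
    (((permG F (bperm RJ (fun y => l (ε (Sum.inr y))) w₂ hw₂))⁻¹ : GL _ F) : Matrix _ _ F) i j
  rcases i with i | i <;> rcases j with j | j
  · rw [Matrix.fromBlocks_apply₁₁, PairS_perm_inv, Sum.map_inl, Matrix.one_apply,
      Matrix.one_apply]
    simp only [Sum.inl.injEq]
  · rw [Matrix.fromBlocks_apply₁₂, Sum.map_inl, Matrix.one_apply, if_neg (by simp)]
    rfl
  · rw [Matrix.fromBlocks_apply₂₁, Sum.map_inr, Matrix.one_apply, if_neg (by simp)]
    rfl
  · rw [Matrix.fromBlocks_apply₂₂, PairS_perm_inv, Sum.map_inr, Matrix.one_apply,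
      Matrix.one_apply]
    simp only [Sum.inr.injEq]

include hε hA hl hr in
/-- the spaces correspond -/
theorem pa_B (x : (⨂[ℂ] x, (RJ (l (ε (Sum.inl x)))).V) ⊗[ℂ] MvPolynomial ι₁ ℂ)
    (y : (⨂[ℂ] y, (RJ (l (ε (Sum.inr y)))).V) ⊗[ℂ] MvPolynomial ι₂ ℂ) :
    (siW RJ l w hw).B (s.B (hE _ _ _ _ (x ⊗ₜ[ℂ] y))) =
      s.B (hE _ _ _ _ ((siW RJ (fun x => l (ε (Sum.inl x))) w₁ hw₁).B x ⊗ₜ[ℂ]
        (siW RJ (fun y => l (ε (Sum.inr y))) w₂ hw₂).B y)) := by
  induction x using TensorProduct.induction_on with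
  | zero => simp
  | add x x' hx hx' => simp only [TensorProduct.add_tmul, map_add, hx, hx']
  | tmul x p =>
  induction y using TensorProduct.induction_on with
  | zero => simp
  | add y y' hy hy' => simp only [TensorProduct.tmul_add, map_add, hy, hy']
  | tmul y q =>
  induction x using PiTensorProduct.induction_on with
  | add x x' hx hx' => simp only [TensorProduct.add_tmul, map_add, hx, hx']
  | smul_tprod r v₁ =>
  induction y using PiTensorProduct.induction_on with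
  | add y y' hy hy' => simp only [TensorProduct.add_tmul, TensorProduct.tmul_add, map_add, hy, hy']
  | smul_tprod r' v₂ =>
  obtain ⟨v, hv₁, hv₂⟩ : ∃ v : ∀ a, (RJ (l a)).V, (∀ x, v (ε (Sum.inl x)) = v₁ x) ∧
      ∀ y, v (ε (Sum.inr y)) = v₂ y := by
    refine ⟨Equiv.piCongrLeft (fun a => (RJ (l a)).V) ε
      (fun x => Sum.rec (motive := fun x => (RJ (l (ε x))).V) v₁ v₂ x), fun x => ?_, fun y => ?_⟩
    · exact Equiv.piCongrLeft_apply_apply (fun a => (RJ (l a)).V) ε _ (Sum.inl x)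
    · exact Equiv.piCongrLeft_apply_apply (fun a => (RJ (l a)).V) ε _ (Sum.inr y)
  obtain rfl : v₁ = fun x => v (ε (Sum.inl x)) := funext fun x => (hv₁ x).symm
  obtain rfl : v₂ = fun y => v (ε (Sum.inr y)) := funext fun y => (hv₂ y).symm
  rw [SIso.B_tmul, SIso.B_tmul, hE_tmul, hE_tmul, SIso.B_tmul, SIso.B_tmul, SIso.B_tmul]
  show Aw RJ l w hw (s.A _) ⊗ₜ[ℂ] _ =
    s.A (Aw RJ (fun x => l (ε (Sum.inl x))) w₁ hw₁ _
      ⊗ₜ[ℂ] Aw RJ (fun y => l (ε (Sum.inr y))) w₂ hw₂ _) ⊗ₜ[ℂ] _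
  rw [TensorProduct.smul_tmul_smul, map_smul, map_smul, map_smul, map_smul, hA, Aw_tprod, Aw_tprod,
    Aw_tprod, TensorProduct.smul_tmul_smul, map_smul]
  have hli : ∀ x, w.symm (ε (Sum.inl x)) = ε (Sum.inl (w₁.symm x)) := by
    intro x
    rw [Equiv.symm_apply_eq, hl, Equiv.apply_symm_apply]
  have hri : ∀ y, w.symm (ε (Sum.inr y)) = ε (Sum.inr (w₂.symm y)) := by
    intro y
    rw [Equiv.symm_apply_eq, hr, Equiv.apply_symm_apply]
  congr 1
  · congr 1
    rw [← hA]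
    congr 2
    · congr 1
      funext x
      exact PairS_cast RJ l (hli x) _ _ v
    · congr 1
      funext y
      exact PairS_cast RJ l (hri y) _ _ v
  · show MvPolynomial.rename w
      (MvPolynomial.rename s.ε _) = MvPolynomial.rename s.ε (MvPolynomial.rename Sum.inl
        (MvPolynomial.rename w₁ p) * MvPolynomial.rename Sum.inr (MvPolynomial.rename w₂ q))
    rw [hε]
    exact pa_poly ε w w₁ w₂ p q hl hr

end

end

end Pool.Agent.Lib.MP_ca1492_al.P
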