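import Mathlib
import Pool.Agent.Lib.MP_ca1492_al.Cmp.ProdX
import Pool.Agent.Lib.MP_ca1492_al.Cmp.Split
import Pool.Agent.Lib.MP_ca1492_al.S5.WR

/-!
# MP_ca1492_al, S5/ProdB: products of the induced representations of the orders
-/

set_option autoImplicit false
set_option linter.unusedSectionVars false

namespace Pool.Agent.Lib.MP_ca1492_al.L

open Topology Matrix TensorProduct ValuativeRel CA1492 CA1492.PA
open Pool.Agent.Lib.MP_ca1492_al.P Pool.Agent.Lib.MP_ca1492_al.Q Pool.Agent.Lib.MP_ca1492_al.D5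

noncomputable section

/-! ### permutations -/

section

variable {m k : ℕ}

/-- permutations of the two groups of strands -/
def apP (p : Equiv.Perm (Fin m)) (q : Equiv.Perm (Fin k)) : Equiv.Perm (Fin (m + k)) :=
  finSumFinEquiv.permCongr (Equiv.sumCongr p q)

def apP_l (p : Equiv.Perm (Fin m)) (q : Equiv.Perm (Fin k)) (x : Fin m) :
    apP p q (finSumFinEquiv (Sum.inl x)) = finSumFinEquiv (Sum.inl (p x)) := by
  unfold apP
  rw [Equiv.permCongr_apply, Equiv.symm_apply_apply]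
  rfl

def apP_r (p : Equiv.Perm (Fin m)) (q : Equiv.Perm (Fin k)) (x : Fin k) :
    apP p q (finSumFinEquiv (Sum.inr x)) = finSumFinEquiv (Sum.inr (q x)) := by
  unfold apP
  rw [Equiv.permCongr_apply, Equiv.symm_apply_apply]
  rfl

def apP_ext {σ τ : Equiv.Perm (Fin (m + k))}
    (h₁ : ∀ x : Fin m, σ (finSumFinEquiv (Sum.inl x)) = τ (finSumFinEquiv (Sum.inl x)))
    (h₂ : ∀ x : Fin k, σ (finSumFinEquiv (Sum.inr x)) = τ (finSumFinEquiv (Sum.inr x))) :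
    σ = τ := by
  refine Equiv.ext fun x => ?_
  obtain ⟨x | x, rfl⟩ := finSumFinEquiv.surjective x
  · exact h₁ x
  · exact h₂ x

def apP_mul (p p' : Equiv.Perm (Fin m)) (q q' : Equiv.Perm (Fin k)) :
    apP (p * p') (q * q') = apP p q * apP p' q' := by
  refine apP_ext (fun x => ?_) fun x => ?_
  · rw [Equiv.Perm.mul_apply, apP_l, apP_l, apP_l]
    rfl
  · rw [Equiv.Perm.mul_apply, apP_r, apP_r, apP_r]
    rfl

def apP_sl (p : Equiv.Perm (Fin m)) (q : Equiv.Perm (Fin k)) (x : Fin m) :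
    (apP p q).symm (finSumFinEquiv (Sum.inl x)) = finSumFinEquiv (Sum.inl (p.symm x)) := by
  rw [Equiv.symm_apply_eq, apP_l, Equiv.apply_symm_apply]

def apP_sr (p : Equiv.Perm (Fin m)) (q : Equiv.Perm (Fin k)) (x : Fin k) :
    (apP p q).symm (finSumFinEquiv (Sum.inr x)) = finSumFinEquiv (Sum.inr (q.symm x)) := by
  rw [Equiv.symm_apply_eq, apP_r, Equiv.apply_symm_apply]

def fs_l (x : Fin m) : ((finSumFinEquiv (Sum.inl x) : Fin (m + k)) : ℕ) = x := rfl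

def fs_r (x : Fin k) : ((finSumFinEquiv (Sum.inr x) : Fin (m + k)) : ℕ) = m + x := rfl

def ordP_l (p : Equiv.Perm (Fin m)) (q : Equiv.Perm (Fin k)) (x : Fin m) :
    ordP (apP p q) (finSumFinEquiv (Sum.inl x)) = ordP p x := by
  unfold ordP
  rw [apP_sl, fs_l]

def ordP_r (p : Equiv.Perm (Fin m)) (q : Equiv.Perm (Fin k)) (x : Fin k) :
    ordP (apP p q) (finSumFinEquiv (Sum.inr x)) = m + ordP q x := by
  unfold ordP
  rw [apP_sr, fs_r, Nat.cast_add]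

def bordP (p : Equiv.Perm (Fin m)) (q : Equiv.Perm (Fin k)) :
    BOrd (ordP p) (ordP q) (fun x => ordP (apP p q) (finSumFinEquiv x)) := by
  refine ⟨fun x y => ?_, fun x y => ?_, fun x y => ?_⟩
  · show _ ↔ ordP (apP p q) (finSumFinEquiv (Sum.inl x)) <
      ordP (apP p q) (finSumFinEquiv (Sum.inl y))
    rw [ordP_l, ordP_l]
  · show _ ↔ ordP (apP p q) (finSumFinEquiv (Sum.inr x)) <
      ordP (apP p q) (finSumFinEquiv (Sum.inr y))
    rw [ordP_r, ordP_r]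
    omega
  · show ordP (apP p q) (finSumFinEquiv (Sum.inl x)) <
      ordP (apP p q) (finSumFinEquiv (Sum.inr y))
    rw [ordP_l, ordP_r]
    unfold ordP
    have := (p.symm x).2
    omega

def apP_sw_l (p : Equiv.Perm (Fin m)) (q : Equiv.Perm (Fin k)) (r : ℕ) (hr : r + 1 < m) :
    apP (p * sw m r) q = apP p q * sw (m + k) r := by
  have h1 : sw (m + k) r = apP (sw m r) 1 := by
    refine apP_ext (fun x => Fin.ext ?_) fun x => Fin.ext ?_
    · rw [apP_l, sw_val (by omega), fs_l, fs_l, sw_val hr]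
    · rw [apP_r, sw_val (by omega), fs_r, fs_r]
      split_ifs with h1 h2
      · omega
      · omega
      · rfl
  rw [h1, ← apP_mul, mul_one]

def apP_sw_r (p : Equiv.Perm (Fin m)) (q : Equiv.Perm (Fin k)) (r : ℕ) (hr : r + 1 < k) :
    apP p (q * sw k r) = apP p q * sw (m + k) (m + r) := by
  have h1 : sw (m + k) (m + r) = apP 1 (sw k r) := by
    refine apP_ext (fun x => Fin.ext ?_) fun x => Fin.ext ?_
    · rw [apP_l, sw_val (by omega), fs_l, fs_l]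
      have := x.2
      split_ifs with h1 h2
      · omega
      · omega
      · rfl
    · rw [apP_r, sw_val (by omega), fs_r, fs_r, sw_val hr]
      split_ifs <;> omega
  rw [h1, ← apP_mul, mul_one]

end

variable {F : Type} [Field F] [ValuativeRel F] [TopologicalSpace F]
  [IsNonarchimedeanLocalField F]

section

variable {J : Type} (RJ : J → GLRep F) {m k : ℕ} (ℓ : Fin (m + k) → J)

/-- the letters of the first group -/
abbrev wl : Fin m → J := fun x => ℓ (finSumFinEquiv (Sum.inl x))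

/-- the letters of the second group -/
abbrev wr : Fin k → J := fun x => ℓ (finSumFinEquiv (Sum.inr x))

/-- the splitting -/
def sP : SIso (Sum.map (sc fun x => RJ (wl ℓ x)) (sc fun y => RJ (wr ℓ y)))
    (ext (tenRep fun x => RJ (wl ℓ x)) (tenRep fun y => RJ (wr ℓ y)))
    (sc fun a => RJ (ℓ a)) (tenRep fun a => RJ (ℓ a)) :=
  (split_exists (fun a => RJ (ℓ a)) finSumFinEquiv).choose

def sP_ε : (sP RJ ℓ).ε = finSumFinEquiv :=
  (split_exists (fun a => RJ (ℓ a)) finSumFinEquiv).choose_spec.1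

def sP_l (x : Fin m) (i : (RJ (wl ℓ x)).κ) :
    (sP RJ ℓ).e (Sum.inl ⟨x, i⟩) = ⟨finSumFinEquiv (Sum.inl x), i⟩ :=
  (split_exists (fun a => RJ (ℓ a)) finSumFinEquiv).choose_spec.2.1 x i

def sP_r (x : Fin k) (i : (RJ (wr ℓ x)).κ) :
    (sP RJ ℓ).e (Sum.inr ⟨x, i⟩) = ⟨finSumFinEquiv (Sum.inr x), i⟩ :=
  (split_exists (fun a => RJ (ℓ a)) finSumFinEquiv).choose_spec.2.2.1 x i

def sP_A (v : ∀ a, (RJ (ℓ a)).V) : (sP RJ ℓ).A
    ((PiTensorProduct.tprod ℂ fun x : Fin m => v (finSumFinEquiv (Sum.inl x))) ⊗ₜ[ℂ]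
      (PiTensorProduct.tprod ℂ fun y : Fin k => v (finSumFinEquiv (Sum.inr y)))) =
        PiTensorProduct.tprod ℂ v :=
  (split_exists (fun a => RJ (ℓ a)) finSumFinEquiv).choose_spec.2.2.2 v

def sP_β (x y : Fin m ⊕ Fin k) : (cst ((sP RJ ℓ).ε x) : Unit) = cst ((sP RJ ℓ).ε y) ↔
    (fun _ : Fin m ⊕ Fin k => ()) x = (fun _ => ()) y := Iff.rfl

variable (p p' : Equiv.Perm (Fin m)) (q q' : Equiv.Perm (Fin k))

def tau_inj : Function.Injective
    (fun x : Fin m ⊕ Fin k => ordP (apP p q) (finSumFinEquiv x)) :=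
  (ordP_inj _).comp finSumFinEquiv.injective

def sP_τ (x y : Fin m ⊕ Fin k) (_ : (fun _ : Fin m ⊕ Fin k => ()) x = (fun _ => ()) y) :
    ordP (apP p q) (finSumFinEquiv x) < ordP (apP p q) (finSumFinEquiv y) ↔
      ordP (apP p q) ((sP RJ ℓ).ε x) < ordP (apP p q) ((sP RJ ℓ).ε y) := by
  rw [sP_ε]

/-- the representation of the order -/
abbrev iG {n : ℕ} (ℓ : Fin n → J) (σ : Equiv.Perm (Fin n)) : GLRep F :=
  indG (sc fun a => RJ (ℓ a)) (ordP σ) (ordP_inj σ)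
    (hat (sc fun a => RJ (ℓ a)) (tenRep fun a => RJ (ℓ a)))

/-- products of the representations of the orders -/
def th : Q.GLRep.indSp (iG RJ (wl ℓ) p) (iG RJ (wr ℓ) q) ≃ₗ[ℂ]
    IP (sc fun a => RJ (ℓ a)) (tenRep fun a => RJ (ℓ a)) (apP p q) :=
  (prodH (ordP_inj p) (ordP_inj q) (tau_inj p q) (bordP p q) (tenRep fun x => RJ (wl ℓ x))
    (tenRep fun y => RJ (wr ℓ y))).trans
    ((sP RJ ℓ).I (sP_β RJ ℓ) (tau_inj p q) (ordP_inj (apP p q)) (sP_τ RJ ℓ p q))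

/-- the group elements -/
def tP_eq (g : GL (sk (fun x => RJ (wl ℓ x)) ⊕ sk (fun y => RJ (wr ℓ y))) F) :
    (sP RJ ℓ).T (sP_β RJ ℓ) (levC F _ g) =
      toC F (sc fun a => RJ (ℓ a)) (GLRep.glRe (sP RJ ℓ).e g) := rfl

def tP_surj (x : lev F (fun i => (cst (sc (fun a => RJ (ℓ a)) i) : Unit))) :
    ∃ g, (sP RJ ℓ).T (sP_β RJ ℓ) (levC F _ g) = x := by
  obtain ⟨y, hy⟩ := ((sP RJ ℓ).T (sP_β RJ ℓ)).surjective x
  exact ⟨y.1, hy⟩

def th_apply (f : Q.GLRep.indSp (iG RJ (wl ℓ) p) (iG RJ (wr ℓ) q))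
    (g : GL (sk (fun x => RJ (wl ℓ x)) ⊕ sk (fun y => RJ (wr ℓ y))) F) :
    (th RJ ℓ p q f).1 ((sP RJ ℓ).T (sP_β RJ ℓ) (levC F _ g)) =
      (sP RJ ℓ).B (hE _ _ _ _ (TensorProduct.map
        (ev1 (sc fun x => RJ (wl ℓ x)) (fun _ => ()) (ordP p) (ordP_inj p)
          (hat _ (tenRep fun x => RJ (wl ℓ x))))
        (ev1 (sc fun y => RJ (wr ℓ y)) (fun _ => ()) (ordP q) (ordP_inj q)
          (hat _ (tenRep fun y => RJ (wr ℓ y)))) (f.1 g))) := by
  have h1 := (sP RJ ℓ).I_apply (sP_β RJ ℓ) (tau_inj p q) (ordP_inj (apP p q)) (sP_τ RJ ℓ p q)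
    (prodH (ordP_inj p) (ordP_inj q) (tau_inj p q) (bordP p q) (tenRep fun x => RJ (wl ℓ x))
      (tenRep fun y => RJ (wr ℓ y)) f) (levC F _ g)
  refine h1.trans ?_
  congr 1
  exact prodH_apply (ordP_inj p) (ordP_inj q) (tau_inj p q) (bordP p q)
    (tenRep fun x => RJ (wl ℓ x)) (tenRep fun y => RJ (wr ℓ y)) f g

/-- equivariance -/
def th_equi (g : GL (sk (fun x => RJ (wl ℓ x)) ⊕ sk (fun y => RJ (wr ℓ y))) F)
    (f : Q.GLRep.indSp (iG RJ (wl ℓ) p) (iG RJ (wr ℓ) q)) :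
    th RJ ℓ p q (Q.GLRep.indRep (iG RJ (wl ℓ) p) (iG RJ (wr ℓ) q) g f) =
      gI (sc fun a => RJ (ℓ a)) (tenRep fun a => RJ (ℓ a))
        (toC F _ (GLRep.glRe (sP RJ ℓ).e g)) (apP p q) (th RJ ℓ p q f) := by
  have h1 := prodH_equi (ordP_inj p) (ordP_inj q) (tau_inj p q) (bordP p q)
    (tenRep fun x => RJ (wl ℓ x)) (tenRep fun y => RJ (wr ℓ y)) g f
  refine (congrArg _ h1).trans ?_
  exact (sP RJ ℓ).I_equi (sP_β RJ ℓ) (tau_inj p q) (ordP_inj (apP p q)) (sP_τ RJ ℓ p q)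
    (levC F _ g) _

/-- power series -/
def th_op (y₁ : MvPowerSeries (Fin m) ℂ) (y₂ : MvPowerSeries (Fin k) ℂ)
    (f : Q.GLRep.indSp (iG RJ (wl ℓ) p) (iG RJ (wr ℓ) q)) :
    th RJ ℓ p q (prMap _ _ _ _
        (opI (sc fun x => RJ (wl ℓ x)) (fun _ => ()) (ordP p) (ordP_inj p)
          (tenRep fun x => RJ (wl ℓ x)) y₁)
        (opI (sc fun y => RJ (wr ℓ y)) (fun _ => ()) (ordP q) (ordP_inj q)
          (tenRep fun y => RJ (wr ℓ y)) y₂) (fun g v => rfl) (fun g v => rfl) f) =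
      opI (sc fun a => RJ (ℓ a)) cst (ordP (apP p q)) (ordP_inj _) (tenRep fun a => RJ (ℓ a))
        (MvPowerSeries.rename finSumFinEquiv
          (MvPowerSeries.rename Sum.inl y₁ * MvPowerSeries.rename Sum.inr y₂))
        (th RJ ℓ p q f) := by
  have h1 := ProdX_op (ordP_inj p) (ordP_inj q) (tau_inj p q) (bordP p q)
    (tenRep fun x => RJ (wl ℓ x)) (tenRep fun y => RJ (wr ℓ y)) y₁ y₂ f
  have h2 := (sP RJ ℓ).I_op (sP_β RJ ℓ) (tau_inj p q) (ordP_inj (apP p q)) (sP_τ RJ ℓ p q)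
    (MvPowerSeries.rename Sum.inl y₁ * MvPowerSeries.rename Sum.inr y₂)
    (prodH (ordP_inj p) (ordP_inj q) (tau_inj p q) (bordP p q) (tenRep fun x => RJ (wl ℓ x))
      (tenRep fun y => RJ (wr ℓ y)) f)
  rw [sP_ε] at h2
  exact (congrArg _ h1.symm).trans h2

end

end

end Pool.Agent.Lib.MP_ca1492_al.L
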