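import Mathlib
import Pool.Agent.Lib.MP_ca1492_al.D5.Mk
import Pool.Agent.Lib.MP_ca1492_al.S5.ProdA
import Pool.Agent.Lib.MP_ca1492_al.S5.ProdB

/-!
# MP_ca1492_al, S5/ProdC: naturality of the products of the representations of the orders
-/

set_option autoImplicit false
set_option linter.unusedSectionVars false

namespace Pool.Agent.Lib.MP_ca1492_al.L

open Topology Matrix TensorProduct ValuativeRel CA1492 CA1492.PA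
open Pool.Agent.Lib.MP_ca1492_al.P Pool.Agent.Lib.MP_ca1492_al.Q Pool.Agent.Lib.MP_ca1492_al.D5

noncomputable section

variable {F : Type} [Field F] [ValuativeRel F] [TopologicalSpace F]
  [IsNonarchimedeanLocalField F]

section

variable {J : Type} (RJ : J → GLRep F) {m k : ℕ} (ℓ : Fin (m + k) → J)
variable (p p' : Equiv.Perm (Fin m)) (q q' : Equiv.Perm (Fin k))

/-- operators with leading coefficients -/
def th_XI (hR : ∀ j, (RJ j).Cusp)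
    (S : RkSys (sc fun a => RJ (ℓ a)) (tenRep fun a => RJ (ℓ a)))
    (Φ₁ : IP (sc fun x => RJ (wl ℓ x)) (tenRep fun x => RJ (wl ℓ x)) p →ₗ[ℂ]
      IP (sc fun x => RJ (wl ℓ x)) (tenRep fun x => RJ (wl ℓ x)) p')
    (Φ₂ : IP (sc fun x => RJ (wr ℓ x)) (tenRep fun x => RJ (wr ℓ x)) q →ₗ[ℂ]
      IP (sc fun x => RJ (wr ℓ x)) (tenRep fun x => RJ (wr ℓ x)) q')
    (h₁ : Φ₁ ∈ XI (sc fun x => RJ (wl ℓ x)) cst (ordP p) (ordP_inj p) (ordP p') (ordP_inj p')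
      (tenRep fun x => RJ (wl ℓ x)))
    (h₂ : Φ₂ ∈ XI (sc fun x => RJ (wr ℓ x)) cst (ordP q) (ordP_inj q) (ordP q') (ordP_inj q')
      (tenRep fun x => RJ (wr ℓ x)))
    (l₁ : MvPowerSeries (Fin m) ℂ) (l₂ : MvPowerSeries (Fin k) ℂ)
    (hl₁ : LeadI (sc fun x => RJ (wl ℓ x)) cst (ordP p) (ordP_inj p) (ordP p') (ordP_inj p')
      (tenRep fun x => RJ (wl ℓ x)) Φ₁ l₁)
    (hl₂ : LeadI (sc fun x => RJ (wr ℓ x)) cst (ordP q) (ordP_inj q) (ordP q') (ordP_inj q')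
      (tenRep fun x => RJ (wr ℓ x)) Φ₂ l₂)
    (hl : ldP S (apP p q) (apP p' q') = MvPowerSeries.rename finSumFinEquiv
      (MvPowerSeries.rename Sum.inl l₁ * MvPowerSeries.rename Sum.inr l₂))
    (hΦ₁ : Equi (iG RJ (wl ℓ) p).π (iG RJ (wl ℓ) p').π Φ₁)
    (hΦ₂ : Equi (iG RJ (wr ℓ) q).π (iG RJ (wr ℓ) q').π Φ₂)
    (f : Q.GLRep.indSp (iG RJ (wl ℓ) p) (iG RJ (wr ℓ) q)) :
    TT (sc fun a => RJ (ℓ a)) (tenRep fun a => RJ (ℓ a)) S (apP p q) (apP p' q')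
        (th RJ ℓ p q f) =
      th RJ ℓ p' q' (prMap _ _ _ _ Φ₁ Φ₂ hΦ₁ hΦ₂ f) := by
  have hL₁ := XI_X1 _ cst (ordP p) (ordP_inj p) (ordP p') (ordP_inj p') _ Φ₁ h₁
  have hL₂ := XI_X1 _ cst (ordP q) (ordP_inj q) (ordP q') (ordP_inj q') _ Φ₂ h₂
  have hL := pfn_X1 (ordP_inj p) (ordP_inj q) (tau_inj p q) (bordP p q) (bordP p' q')
    (tenRep fun x => RJ (wl ℓ x)) (tenRep fun x => RJ (wr ℓ x)) _ _ hL₁ hL₂
  have hLd := pfn_lead (ordP_inj p) (ordP_inj q) (tau_inj p q) (bordP p q) (bordP p' q')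
    (tenRep fun x => RJ (wl ℓ x)) (tenRep fun x => RJ (wr ℓ x)) _ _ l₁ l₂ hl₁ hl₂
  have hK := (sP RJ ℓ).mem_X1 (sP_β RJ ℓ) (tau_inj p q) (ordP_inj (apP p q)) (sP_τ RJ ℓ p q)
    (sP_τ RJ ℓ p' q') _ hL
  have hKd := (sP RJ ℓ).isLead (sP_β RJ ℓ) (tau_inj p q) (ordP_inj (apP p q)) (sP_τ RJ ℓ p q)
    (sP_τ RJ ℓ p' q') _ _ hLd
  rw [sP_ε, ← hl] at hKd
  have hT := TT_unique (sc fun a => RJ (ℓ a)) (sc_surj _ fun a => hR (ℓ a))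
    (tenRep fun a => RJ (ℓ a)) (ten_smooth _ fun a => (hR (ℓ a)).1)
    (ten_irr _ fun a => hR (ℓ a)) (ten_cusp _ fun a => hR (ℓ a)) S (apP p q) (apP p' q') _
    (homL_XI _ cst (ordP (apP p q)) (ordP_inj _) (ordP (apP p' q')) (ordP_inj _) _ _ hK)
    (homL_lead _ cst (ordP (apP p q)) (ordP_inj _) (ordP (apP p' q')) (ordP_inj _) _ _ hK _ hKd)
  refine (LinearMap.congr_fun hT (th RJ ℓ p q f)).symm.trans ?_
  refine Subtype.ext (funext fun x => ?_)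
  refine (homL_apply _ cst (ordP (apP p q)) (ordP (apP p' q')) (ordP_inj _) (ordP_inj _) _ _ _
    hK.1 _ x).trans ?_
  have h2 := fun g : GL (sk (fun x => RJ (wl ℓ x)) ⊕ sk (fun y => RJ (wr ℓ y))) F =>
    pfn_nat (ordP_inj p) (ordP_inj q) (tau_inj p q) (bordP p q) (ordP_inj p')
      (ordP_inj q') (tau_inj p' q') (bordP p' q') (tenRep fun x => RJ (wl ℓ x))
      (tenRep fun y => RJ (wr ℓ y)) Φ₁ Φ₂ hΦ₁ hΦ₂ f g
  have h3 := (sP RJ ℓ).comp (sP_β RJ ℓ) (tau_inj p q) (tau_inj p' q') (ordP_inj (apP p q))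
    (ordP_inj (apP p' q')) (sP_τ RJ ℓ p q) (sP_τ RJ ℓ p' q') _ _ _ (fun g => h2 g.1) x
  exact h3.symm

end

section

variable {D : Dat} (RJ : D.J → GLRep F) {m k : ℕ} (ℓ : Fin (m + k) → D.J)
variable (p p' : Equiv.Perm (Fin m)) (q q' : Equiv.Perm (Fin k))

/-- renaming of strands -/
def th_SW (t : stab ℓ) (t₁ : stab (wl ℓ)) (t₂ : stab (wr ℓ))
    (ht : (t : Equiv.Perm (Fin (m + k))) = apP t₁ t₂)
    (hp : p' = (t₁ : Equiv.Perm (Fin m)) * p) (hq : q' = (t₂ : Equiv.Perm (Fin k)) * q)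
    (h : apP p' q' = (t : Equiv.Perm (Fin (m + k))) * apP p q)
    (hΦ₁ : Equi (iG RJ (wl ℓ) p).π (iG RJ (wl ℓ) p').π (D5.SW (mkSym (wl ℓ) RJ) t₁ p p' hp))
    (hΦ₂ : Equi (iG RJ (wr ℓ) q).π (iG RJ (wr ℓ) q').π (D5.SW (mkSym (wr ℓ) RJ) t₂ q q' hq))
    (f : Q.GLRep.indSp (iG RJ (wl ℓ) p) (iG RJ (wr ℓ) q)) :
    D5.SW (mkSym ℓ RJ) t (apP p q) (apP p' q') h (th RJ ℓ p q f) =
      th RJ ℓ p' q' (prMap (iG RJ (wl ℓ) p).π (iG RJ (wr ℓ) q).π (iG RJ (wl ℓ) p').π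
        (iG RJ (wr ℓ) q').π (D5.SW (mkSym (wl ℓ) RJ) t₁ p p' hp)
        (D5.SW (mkSym (wr ℓ) RJ) t₂ q q' hq) hΦ₁ hΦ₂ f) := by
  refine Subtype.ext (funext fun x => ?_)
  obtain ⟨g, rfl⟩ := tP_surj RJ ℓ x
  have hblk := pa_blk (F := F) RJ ℓ finSumFinEquiv (sP RJ ℓ) (sP_l RJ ℓ) (sP_r RJ ℓ) t t₁ t₂
    (fun x => by rw [ht, apP_l]) (fun x => by rw [ht, apP_r]) (stab_let ℓ t)
    (stab_let (wl ℓ) t₁) (stab_let (wr ℓ) t₂)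
  have h1 : (permC F (sc fun a => RJ (ℓ a)) ((mkSym ℓ RJ).bp t))⁻¹ *
      (sP RJ ℓ).T (sP_β RJ ℓ) (levC F _ g) = (sP RJ ℓ).T (sP_β RJ ℓ) (levC F _
        (Q.blk F (permG F (bperm RJ (wl ℓ) t₁ (stab_let (wl ℓ) t₁)))⁻¹
          (permG F (bperm RJ (wr ℓ) t₂ (stab_let (wr ℓ) t₂)))⁻¹ 0 * g)) := by
    rw [map_mul, map_mul]
    congr 1
    exact Subtype.ext hblk
  have h2 := f.2.1 (permG F (bperm RJ (wl ℓ) t₁ (stab_let (wl ℓ) t₁)))⁻¹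
    (permG F (bperm RJ (wr ℓ) t₂ (stab_let (wr ℓ) t₂)))⁻¹ 0 g
  refine (Sym_SW_apply (mkSym ℓ RJ) t (apP p q) (apP p' q') h (th RJ ℓ p q f) _).trans ?_
  rw [h1, th_apply, th_apply, h2]
  have h3 : ∀ {κ : Type} [Fintype κ] [DecidableEq κ] (w : Equiv.Perm κ),
      vl (fun _ : κ => ()) (permG F w)⁻¹ () = 0 := fun w =>
    vl_Kc _ _ (fun _ _ h => absurd rfl h) ((Kc F _ 0).inv_mem (permG_mem_Kc w)) ()
  rw [ProdX_sqmod _ _ (h3 _) (h3 _), Complex.ofReal_one, one_smul]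
  have h4 : (prMap (iG RJ (wl ℓ) p).π (iG RJ (wr ℓ) q).π (iG RJ (wl ℓ) p').π
        (iG RJ (wr ℓ) q').π (D5.SW (mkSym (wl ℓ) RJ) t₁ p p' hp)
        (D5.SW (mkSym (wr ℓ) RJ) t₂ q q' hq) hΦ₁ hΦ₂ f).1 g =
      TensorProduct.map (D5.SW (mkSym (wl ℓ) RJ) t₁ p p' hp)
        (D5.SW (mkSym (wr ℓ) RJ) t₂ q q' hq) (f.1 g) := rfl
  rw [h4]
  generalize f.1 g = z
  induction z using TensorProduct.induction_on with
  | zero => simp only [map_zero]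
  | add a b ha hb => simp only [map_add, ha, hb]
  | tmul a b =>
    have h5 := pa_B (F := F) RJ ℓ finSumFinEquiv (sP RJ ℓ) (sP_ε RJ ℓ) (sP_A RJ ℓ) t t₁ t₂
      (fun x => by rw [ht, apP_l]) (fun x => by rw [ht, apP_r]) (stab_let ℓ t)
      (stab_let (wl ℓ) t₁) (stab_let (wr ℓ) t₂)
      (a.1 ((permC F (sc fun a => RJ (wl ℓ a)) ((mkSym (wl ℓ) RJ).bp t₁))⁻¹))
      (b.1 ((permC F (sc fun a => RJ (wr ℓ a)) ((mkSym (wr ℓ) RJ).bp t₂))⁻¹))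
    have e1 : a.1 (1 * levC F _ (permG F (bperm RJ (wl ℓ) t₁ (stab_let (wl ℓ) t₁)))⁻¹) =
        a.1 ((permC F (sc fun a => RJ (wl ℓ a)) ((mkSym (wl ℓ) RJ).bp t₁))⁻¹) :=
      congrArg a.1 (one_mul _)
    have e2 : b.1 (1 * levC F _ (permG F (bperm RJ (wr ℓ) t₂ (stab_let (wr ℓ) t₂)))⁻¹) =
        b.1 ((permC F (sc fun a => RJ (wr ℓ a)) ((mkSym (wr ℓ) RJ).bp t₂))⁻¹) :=
      congrArg b.1 (one_mul _)
    have e3 : (D5.SW (mkSym (wl ℓ) RJ) t₁ p p' hp a).1 1 = (mkSym (wl ℓ) RJ).AR t₁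
        (a.1 ((permC F (sc fun a => RJ (wl ℓ a)) ((mkSym (wl ℓ) RJ).bp t₁))⁻¹)) :=
      congrArg (fun z => (mkSym (wl ℓ) RJ).AR t₁ (a.1 z)) (mul_one _)
    have e4 : (D5.SW (mkSym (wr ℓ) RJ) t₂ q q' hq b).1 1 = (mkSym (wr ℓ) RJ).AR t₂
        (b.1 ((permC F (sc fun a => RJ (wr ℓ a)) ((mkSym (wr ℓ) RJ).bp t₂))⁻¹)) :=
      congrArg (fun z => (mkSym (wr ℓ) RJ).AR t₂ (b.1 z)) (mul_one _)
    rw [TensorProduct.map_tmul, TensorProduct.map_tmul, TensorProduct.map_tmul,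
      TensorProduct.map_tmul]
    exact (congrArg (fun z => (mkSym ℓ RJ).AR t ((sP RJ ℓ).B (hE _ _ _ _ z)))
      (congrArg₂ (fun x y => x ⊗ₜ[ℂ] y) e1 e2)).trans (h5.trans
        (congrArg (fun z => (sP RJ ℓ).B (hE _ _ _ _ z))
          (congrArg₂ (fun x y => x ⊗ₜ[ℂ] y) e3 e4).symm))

end

end

end Pool.Agent.Lib.MP_ca1492_al.L
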