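import Mathlib
import Pool.Agent.Lib.MP_ca1492_al.S5.Defs
import Pool.Agent.Lib.MP_ca1492_al.S5.ProdC

/-!
# MP_ca1492_al, S5/ProdD: the map from the product of the block data
-/

set_option autoImplicit false
set_option linter.unusedSectionVars false

namespace Pool.Agent.Lib.MP_ca1492_al.L

open Topology Matrix TensorProduct ValuativeRel CA1492 CA1492.PA
open Pool.Agent.Lib.MP_ca1492_al.P Pool.Agent.Lib.MP_ca1492_al.Q Pool.Agent.Lib.MP_ca1492_al.D5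

noncomputable section

variable {F : Type} [Field F] [ValuativeRel F] [TopologicalSpace F]
  [IsNonarchimedeanLocalField F]

/-! ### the components as linear maps -/

section

variable {κ : Type} [Fintype κ] [DecidableEq κ]
variable {V : Type} [AddCommGroup V] [Module ℂ V]
variable {n : ℕ}
variable {D : Dat} {ℓ : Fin n → D.J} {c : κ → Fin n} {ρ : Representation ℂ (lev F c) V}

/-- the component `σ` -/
def faL (P : Strands D ℓ c ρ) (σ : Equiv.Perm (Fin n)) : WT ℓ (SWt P) →ₗ[ℂ] IP c ρ σ where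
  toFun x := fam x σ
  map_add' _ _ := rfl
  map_smul' _ _ := rfl

def faL_apply (P : Strands D ℓ c ρ) (σ : Equiv.Perm (Fin n)) (x : WT ℓ (SWt P)) :
    faL P σ x = fam x σ := rfl

def faL_equi (P : Strands D ℓ c ρ) (σ : Equiv.Perm (Fin n)) :
    Equi (WR P) (indG c (ordP σ) (ordP_inj σ) (hat c ρ)).π (faL P σ) := fun g x =>
  WR_apply P g x σ

def emb_equi (P : Strands D ℓ c ρ) (σ : Equiv.Perm (Fin n)) :
    Equi (indG c (ordP σ) (ordP_inj σ) (hat c ρ)).π (WR P) (emb (wsys P) σ) := fun g x =>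
  (gW_emb (wsys P) (toC F c g) σ x).symm

def SWt_equi (P : Strands D ℓ c ρ) (σ τ : Equiv.Perm (Fin n)) (e : ℓ ∘ τ = ℓ ∘ σ) :
    Equi (indG c (ordP τ) (ordP_inj τ) (hat c ρ)).π (indG c (ordP σ) (ordP_inj σ) (hat c ρ)).π
      (SWt P τ σ) := fun g x =>
  (wsys P).g_S (toC F c g) (σ * τ⁻¹) (stab_of σ τ e) τ σ (stab_mul σ τ) x

def SWt_SWt (P : Strands D ℓ c ρ) (σ τ υ : Equiv.Perm (Fin n)) (e : ℓ ∘ τ = ℓ ∘ σ)
    (e' : ℓ ∘ υ = ℓ ∘ τ) (x : IP c ρ σ) : SWt P τ υ (SWt P σ τ x) = SWt P σ υ x :=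
  (wsys P).S_S (τ * σ⁻¹) (υ * τ⁻¹) (stab_of τ σ e.symm) (stab_of υ τ e'.symm) σ τ υ
    (stab_mul τ σ) (stab_mul υ τ) x

end

/-! ### the map -/

section

variable {D : Dat} {RJ : D.J → GLRep F} {e : D.J → D.J → PowerSeries ℂ} {m k : ℕ}

/-- words of the products -/
def QP (ℓ : Fin (m + k) → D.J) (σ : Equiv.Perm (Fin (m + k))) : Prop :=
  ∃ pq : Equiv.Perm (Fin m) × Equiv.Perm (Fin k), ℓ ∘ σ = ℓ ∘ apP pq.1 pq.2

def word_ap (ℓ : Fin (m + k) → D.J) (p : Equiv.Perm (Fin m)) (q : Equiv.Perm (Fin k)) :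
    ℓ ∘ apP p q = Fin.append (wl ℓ ∘ p) (wr ℓ ∘ q) := by
  funext x
  obtain ⟨x | x, rfl⟩ := finSumFinEquiv.surjective x
  · rw [Function.comp_apply, apP_l]
    exact (Fin.append_left (wl ℓ ∘ p) (wr ℓ ∘ q) x).symm
  · rw [Function.comp_apply, apP_r]
    exact (Fin.append_right (wl ℓ ∘ p) (wr ℓ ∘ q) x).symm

def append_inj' {J : Type} {a a' : Fin m → J} {b b' : Fin k → J}
    (h : Fin.append a b = Fin.append a' b') : a = a' ∧ b = b' := by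
  constructor
  · funext x
    have h1 := congrFun h (Fin.castAdd k x)
    rwa [Fin.append_left, Fin.append_left] at h1
  · funext x
    have h1 := congrFun h (Fin.natAdd m x)
    rwa [Fin.append_right, Fin.append_right] at h1

def ap_iff (ℓ : Fin (m + k) → D.J) (p p' : Equiv.Perm (Fin m)) (q q' : Equiv.Perm (Fin k)) :
    ℓ ∘ apP p q = ℓ ∘ apP p' q' ↔ wl ℓ ∘ p = wl ℓ ∘ p' ∧ wr ℓ ∘ q = wr ℓ ∘ q' := by
  rw [word_ap, word_ap]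
  constructor
  · exact append_inj'
  · rintro ⟨h1, h2⟩
    rw [h1, h2]

variable (h : TwoD D RJ e) (ℓ : Fin (m + k) → D.J)

/-- the component of the map for the permutations `p`, `q` -/
def gp (p : Equiv.Perm (Fin m)) (q : Equiv.Perm (Fin k)) :
    mulSp (WR (str h (wl ℓ))) (WR (str h (wr ℓ))) →ₗ[ℂ]
      IP (sc fun a => RJ (ℓ a)) (tenRep fun a => RJ (ℓ a)) (apP p q) :=
  (th RJ ℓ p q : _ →ₗ[ℂ] _) ∘ₗ prMap (WR (str h (wl ℓ))) (WR (str h (wr ℓ))) (iG RJ (wl ℓ) p).π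
    (iG RJ (wr ℓ) q).π (faL (str h (wl ℓ)) p) (faL (str h (wr ℓ)) q)
    (faL_equi (str h (wl ℓ)) p) (faL_equi (str h (wr ℓ)) q)

def gp_apply (p : Equiv.Perm (Fin m)) (q : Equiv.Perm (Fin k))
    (x : mulSp (WR (str h (wl ℓ))) (WR (str h (wr ℓ)))) :
    gp h ℓ p q x = th RJ ℓ p q (prMap (WR (str h (wl ℓ))) (WR (str h (wr ℓ)))
      (iG RJ (wl ℓ) p).π (iG RJ (wr ℓ) q).π (faL (str h (wl ℓ)) p) (faL (str h (wr ℓ)) q)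
      (faL_equi (str h (wl ℓ)) p) (faL_equi (str h (wr ℓ)) q) x) := rfl

def gp_equi (p : Equiv.Perm (Fin m)) (q : Equiv.Perm (Fin k))
    (g : GL (sk (fun x => RJ (wl ℓ x)) ⊕ sk (fun y => RJ (wr ℓ y))) F)
    (x : mulSp (WR (str h (wl ℓ))) (WR (str h (wr ℓ)))) :
    gp h ℓ p q (mulR (WR (str h (wl ℓ))) (WR (str h (wr ℓ))) g x) =
      gI (sc fun a => RJ (ℓ a)) (tenRep fun a => RJ (ℓ a))
        (toC F _ (GLRep.glRe (sP RJ ℓ).e g)) (apP p q) (gp h ℓ p q x) :=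
  th_equi RJ ℓ p q g (prMap (WR (str h (wl ℓ))) (WR (str h (wr ℓ)))
      (iG RJ (wl ℓ) p).π (iG RJ (wr ℓ) q).π (faL (str h (wl ℓ)) p) (faL (str h (wr ℓ)) q)
      (faL_equi (str h (wl ℓ)) p) (faL_equi (str h (wr ℓ)) q) x)

/-- compositions of `prMap` -/
def prMap_prMap {κ₁ κ₂ : Type} [Fintype κ₁] [DecidableEq κ₁] [Fintype κ₂] [DecidableEq κ₂]
    {V₁ V₂ W₁ W₂ U₁ U₂ : Type} [AddCommGroup V₁] [Module ℂ V₁] [AddCommGroup V₂] [Module ℂ V₂]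
    [AddCommGroup W₁] [Module ℂ W₁] [AddCommGroup W₂] [Module ℂ W₂]
    [AddCommGroup U₁] [Module ℂ U₁] [AddCommGroup U₂] [Module ℂ U₂]
    (π₁ : Representation ℂ (GL κ₁ F) V₁) (π₂ : Representation ℂ (GL κ₂ F) V₂)
    (σ₁ : Representation ℂ (GL κ₁ F) W₁) (σ₂ : Representation ℂ (GL κ₂ F) W₂)
    (υ₁ : Representation ℂ (GL κ₁ F) U₁) (υ₂ : Representation ℂ (GL κ₂ F) U₂)
    (Φ₁ : V₁ →ₗ[ℂ] W₁) (Φ₂ : V₂ →ₗ[ℂ] W₂) (h₁ : Equi π₁ σ₁ Φ₁) (h₂ : Equi π₂ σ₂ Φ₂)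
    (Ψ₁ : W₁ →ₗ[ℂ] U₁) (Ψ₂ : W₂ →ₗ[ℂ] U₂) (h₁' : Equi σ₁ υ₁ Ψ₁) (h₂' : Equi σ₂ υ₂ Ψ₂)
    (Θ₁ : V₁ →ₗ[ℂ] U₁) (Θ₂ : V₂ →ₗ[ℂ] U₂) (h₁'' : Equi π₁ υ₁ Θ₁) (h₂'' : Equi π₂ υ₂ Θ₂)
    (e₁ : ∀ v, Ψ₁ (Φ₁ v) = Θ₁ v) (e₂ : ∀ v, Ψ₂ (Φ₂ v) = Θ₂ v)
    (f : Q.GLRep.indSp (F := F) ⟨κ₁, V₁, π₁⟩ ⟨κ₂, V₂, π₂⟩) :
    prMap σ₁ σ₂ υ₁ υ₂ Ψ₁ Ψ₂ h₁' h₂' (prMap π₁ π₂ σ₁ σ₂ Φ₁ Φ₂ h₁ h₂ f) =
      prMap π₁ π₂ υ₁ υ₂ Θ₁ Θ₂ h₁'' h₂'' f := by
  refine Subtype.ext (funext fun g => ?_)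
  show TensorProduct.map Ψ₁ Ψ₂ (TensorProduct.map Φ₁ Φ₂ (f.1 g)) =
    TensorProduct.map Θ₁ Θ₂ (f.1 g)
  have e1 : Θ₁ = Ψ₁ ∘ₗ Φ₁ := LinearMap.ext fun v => (e₁ v).symm
  have e2 : Θ₂ = Ψ₂ ∘ₗ Φ₂ := LinearMap.ext fun v => (e₂ v).symm
  rw [e1, e2, TensorProduct.map_comp]
  rfl

def gp_nat (p p' : Equiv.Perm (Fin m)) (q q' : Equiv.Perm (Fin k))
    (hp : wl ℓ ∘ p = wl ℓ ∘ p') (hq : wr ℓ ∘ q = wr ℓ ∘ q')
    (x : mulSp (WR (str h (wl ℓ))) (WR (str h (wr ℓ)))) :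
    SWt (str h ℓ) (apP p q) (apP p' q') (gp h ℓ p q x) = gp h ℓ p' q' x := by
  have h1 := stab_of (ℓ := wl ℓ) p' p hp
  have h2 := stab_of (ℓ := wr ℓ) q' q hq
  have h3 : ℓ ∘ apP (p' * p⁻¹) (q' * q⁻¹) = ℓ := by
    have h5 := (ap_iff ℓ (p' * p⁻¹) 1 (q' * q⁻¹) 1).2 ⟨h1, h2⟩
    have h6 : apP (1 : Equiv.Perm (Fin m)) (1 : Equiv.Perm (Fin k)) = 1 :=
      apP_ext (fun x => apP_l 1 1 x) (fun x => apP_r 1 1 x)
    rw [h5, h6]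
    rfl
  have h4 : apP p' q' = apP (p' * p⁻¹) (q' * q⁻¹) * apP p q := by
    rw [← apP_mul, ← stab_mul, ← stab_mul]
  have k1 := SWt_eq (str h ℓ) ⟨_, h3⟩ (apP p q) (apP p' q') h4
  have k2 := SWt_eq (str h (wl ℓ)) ⟨_, h1⟩ p p' (stab_mul p' p)
  have k3 := SWt_eq (str h (wr ℓ)) ⟨_, h2⟩ q q' (stab_mul q' q)
  have hΦ₁ : Equi (iG RJ (wl ℓ) p).π (iG RJ (wl ℓ) p').π
      (D5.SW (mkSym (wl ℓ) RJ) ⟨_, h1⟩ p p' (stab_mul p' p)) := by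
    have := SWt_equi (str h (wl ℓ)) p' p hp
    rw [k2] at this
    exact this
  have hΦ₂ : Equi (iG RJ (wr ℓ) q).π (iG RJ (wr ℓ) q').π
      (D5.SW (mkSym (wr ℓ) RJ) ⟨_, h2⟩ q q' (stab_mul q' q)) := by
    have := SWt_equi (str h (wr ℓ)) q' q hq
    rw [k3] at this
    exact this
  have k0 := th_SW RJ ℓ p p' q q' ⟨_, h3⟩ ⟨_, h1⟩ ⟨_, h2⟩ rfl (stab_mul p' p) (stab_mul q' q) h4
    hΦ₁ hΦ₂ (prMap (WR (str h (wl ℓ))) (WR (str h (wr ℓ)))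
      (iG RJ (wl ℓ) p).π (iG RJ (wr ℓ) q).π (faL (str h (wl ℓ)) p) (faL (str h (wr ℓ)) q)
      (faL_equi (str h (wl ℓ)) p) (faL_equi (str h (wr ℓ)) q) x)
  refine (LinearMap.congr_fun k1 _).trans (k0.trans (congrArg (th RJ ℓ p' q') ?_))
  have e1 : ∀ v : WT (wl ℓ) (SWt (str h (wl ℓ))),
      D5.SW (mkSym (wl ℓ) RJ) ⟨_, h1⟩ p p' (stab_mul p' p) (faL (str h (wl ℓ)) p v) =
        faL (str h (wl ℓ)) p' v := fun v =>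
    (LinearMap.congr_fun k2 (fam v p)).symm.trans
      (fam_S v (p' * p⁻¹) h1 p p' (stab_mul p' p))
  have e2 : ∀ v : WT (wr ℓ) (SWt (str h (wr ℓ))),
      D5.SW (mkSym (wr ℓ) RJ) ⟨_, h2⟩ q q' (stab_mul q' q) (faL (str h (wr ℓ)) q v) =
        faL (str h (wr ℓ)) q' v := fun v =>
    (LinearMap.congr_fun k3 (fam v q)).symm.trans
      (fam_S v (q' * q⁻¹) h2 q q' (stab_mul q' q))
  exact prMap_prMap (WR (str h (wl ℓ))) (WR (str h (wr ℓ))) (iG RJ (wl ℓ) p).π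
    (iG RJ (wr ℓ) q).π (iG RJ (wl ℓ) p').π (iG RJ (wr ℓ) q').π (faL (str h (wl ℓ)) p)
    (faL (str h (wr ℓ)) q) (faL_equi (str h (wl ℓ)) p) (faL_equi (str h (wr ℓ)) q) _ _
    hΦ₁ hΦ₂ _ _ (faL_equi (str h (wl ℓ)) p') (faL_equi (str h (wr ℓ)) q') e1 e2 x

open Classical in
/-- the components of the image -/
def XiF (x : mulSp (WR (str h (wl ℓ))) (WR (str h (wr ℓ)))) (σ : Equiv.Perm (Fin (m + k))) :
    IP (sc fun a => RJ (ℓ a)) (tenRep fun a => RJ (ℓ a)) σ :=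
  if hq : QP ℓ σ then SWt (str h ℓ) (apP hq.choose.1 hq.choose.2) σ
    (gp h ℓ hq.choose.1 hq.choose.2 x) else 0

def XiF_eq (x : mulSp (WR (str h (wl ℓ))) (WR (str h (wr ℓ))))
    (σ : Equiv.Perm (Fin (m + k))) (p : Equiv.Perm (Fin m)) (q : Equiv.Perm (Fin k))
    (hσ : ℓ ∘ σ = ℓ ∘ apP p q) :
    XiF h ℓ x σ = SWt (str h ℓ) (apP p q) σ (gp h ℓ p q x) := by
  have hq : QP ℓ σ := ⟨(p, q), hσ⟩
  unfold XiF
  rw [dif_pos hq]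
  have h1 := hq.choose_spec
  have h2 := (ap_iff ℓ hq.choose.1 p hq.choose.2 q).1 (h1.symm.trans hσ)
  rw [← gp_nat h ℓ hq.choose.1 p hq.choose.2 q h2.1 h2.2 x]
  exact (SWt_SWt (str h ℓ) _ _ _ (hσ.symm.trans h1) hσ _).symm

def XiF_ne (x : mulSp (WR (str h (wl ℓ))) (WR (str h (wr ℓ))))
    (σ : Equiv.Perm (Fin (m + k))) (hσ : ¬ QP ℓ σ) : XiF h ℓ x σ = 0 := by
  unfold XiF
  rw [dif_neg hσ]

/-- the map -/
def Xi : mulSp (WR (str h (wl ℓ))) (WR (str h (wr ℓ))) →ₗ[ℂ] WT ℓ (SWt (str h ℓ)) where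
  toFun x := mkW (XiF h ℓ x) (by
    intro t ht σ σ' hσ
    have e1 : ℓ ∘ σ' = ℓ ∘ σ := by
      rw [hσ]
      funext y
      exact congrFun ht (σ y)
    by_cases hq : QP ℓ σ
    · obtain ⟨⟨p, q⟩, hpq⟩ := hq
      exact (congrArg (SWt (str h ℓ) σ σ') (XiF_eq h ℓ x σ p q hpq)).trans
        ((SWt_SWt (str h ℓ) _ _ _ hpq e1 _).trans (XiF_eq h ℓ x σ' p q (e1.trans hpq)).symm)
    · rw [XiF_ne h ℓ x σ hq, XiF_ne h ℓ x σ' fun hq' => hq (by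
        obtain ⟨pq, hpq⟩ := hq'
        exact ⟨pq, e1.symm.trans hpq⟩), map_zero])
  map_add' x y := fam_ext fun σ => by
    show XiF h ℓ (x + y) σ = XiF h ℓ x σ + XiF h ℓ y σ
    by_cases hq : QP ℓ σ
    · obtain ⟨⟨p, q⟩, hpq⟩ := hq
      exact (XiF_eq h ℓ (x + y) σ p q hpq).trans
        ((congrArg (SWt (str h ℓ) (apP p q) σ) ((gp h ℓ p q).map_add x y)).trans
          (((SWt (str h ℓ) (apP p q) σ).map_add (gp h ℓ p q x) (gp h ℓ p q y)).trans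
            (congrArg₂ (fun a b => a + b) (XiF_eq h ℓ x σ p q hpq).symm
              (XiF_eq h ℓ y σ p q hpq).symm)))
    · exact (XiF_ne h ℓ (x + y) σ hq).trans ((add_zero _).symm.trans
        (congrArg₂ (fun a b => a + b) (XiF_ne h ℓ x σ hq).symm (XiF_ne h ℓ y σ hq).symm))
  map_smul' z x := fam_ext fun σ => by
    show XiF h ℓ (z • x) σ = z • XiF h ℓ x σ
    by_cases hq : QP ℓ σ
    · obtain ⟨⟨p, q⟩, hpq⟩ := hq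
      exact (XiF_eq h ℓ (z • x) σ p q hpq).trans
        ((congrArg (SWt (str h ℓ) (apP p q) σ) ((gp h ℓ p q).map_smul z x)).trans
          (((SWt (str h ℓ) (apP p q) σ).map_smul z (gp h ℓ p q x)).trans
            (congrArg (fun a => z • a) (XiF_eq h ℓ x σ p q hpq).symm)))
    · exact (XiF_ne h ℓ (z • x) σ hq).trans ((smul_zero z).symm.trans
        (congrArg (fun a => z • a) (XiF_ne h ℓ x σ hq).symm))

def fam_Xi (x : mulSp (WR (str h (wl ℓ))) (WR (str h (wr ℓ))))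
    (p : Equiv.Perm (Fin m)) (q : Equiv.Perm (Fin k)) :
    fam (Xi h ℓ x) (apP p q) = gp h ℓ p q x := by
  show XiF h ℓ x (apP p q) = _
  rw [XiF_eq h ℓ x (apP p q) p q rfl]
  exact (wsys (str h ℓ)).S_one _ _

def fam_Xi0 (x : mulSp (WR (str h (wl ℓ))) (WR (str h (wr ℓ))))
    (σ : Equiv.Perm (Fin (m + k))) (hσ : ¬ QP ℓ σ) : fam (Xi h ℓ x) σ = 0 :=
  XiF_ne h ℓ x σ hσ

def wt_ext (z z' : WT ℓ (SWt (str h ℓ)))
    (h₁ : ∀ (p : Equiv.Perm (Fin m)) (q : Equiv.Perm (Fin k)),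
      fam z (apP p q) = fam z' (apP p q))
    (h₂ : ∀ σ, ¬ QP ℓ σ → fam z σ = fam z' σ) : z = z' := by
  refine fam_ext fun σ => ?_
  by_cases hq : QP ℓ σ
  · obtain ⟨⟨p, q⟩, hpq⟩ := hq
    rw [fam_S' z σ (apP p q) hpq.symm, fam_S' z' σ (apP p q) hpq.symm, h₁]
  · exact h₂ σ hq

end

end

end Pool.Agent.Lib.MP_ca1492_al.L
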