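import Mathlib
import Pool.Agent.Lib.MP_ca1492_al.L5.MulMap
import Pool.Agent.Lib.MP_ca1492_al.S5.ProdD

/-!
# MP_ca1492_al, S5/ProdE: properties of the map from the product of the block data
-/

set_option autoImplicit false
set_option linter.unusedSectionVars false

namespace Pool.Agent.Lib.MP_ca1492_al.L

open Topology Matrix TensorProduct ValuativeRel CA1492 CA1492.PA
open Pool.Agent.Lib.MP_ca1492_al.P Pool.Agent.Lib.MP_ca1492_al.Q Pool.Agent.Lib.MP_ca1492_al.D5

noncomputable section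

variable {F : Type} [Field F] [ValuativeRel F] [TopologicalSpace F]
  [IsNonarchimedeanLocalField F]

/-! ### the actions of the two factors -/

section

variable {κ₁ κ₂ : Type} [Fintype κ₁] [DecidableEq κ₁] [Fintype κ₂] [DecidableEq κ₂]
variable {V₁ V₂ : Type} [AddCommGroup V₁] [Module ℂ V₁] [AddCommGroup V₂] [Module ℂ V₂]
  (π₁ : Representation ℂ (GL κ₁ F) V₁) (π₂ : Representation ℂ (GL κ₂ F) V₂)

/-- the action of the endomorphisms of the first factor -/
def acL : EndG π₁ →ₐ[ℂ] Module.End ℂ (mulSp π₁ π₂) where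
  toFun a := mulMap π₁ π₁ π₂ π₂ a.1 a.2 LinearMap.id (fun _ _ => rfl)
  map_one' := LinearMap.ext fun x => Subtype.ext (funext fun g => by
    show TensorProduct.map LinearMap.id LinearMap.id (x.1 g) = x.1 g
    rw [TensorProduct.map_id]
    rfl)
  map_mul' a b := LinearMap.ext fun x => Subtype.ext (funext fun g => by
    show TensorProduct.map (a.1 ∘ₗ b.1) (LinearMap.id ∘ₗ LinearMap.id) (x.1 g) =
      TensorProduct.map a.1 LinearMap.id (TensorProduct.map b.1 LinearMap.id (x.1 g))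
    rw [TensorProduct.map_comp]
    rfl)
  map_zero' := LinearMap.ext fun x => Subtype.ext (funext fun g => by
    show TensorProduct.map (0 : V₁ →ₗ[ℂ] V₁) LinearMap.id (x.1 g) = 0
    rw [TensorProduct.map_zero_left]
    rfl)
  map_add' a b := LinearMap.ext fun x => Subtype.ext (funext fun g => by
    show TensorProduct.map (a.1 + b.1) LinearMap.id (x.1 g) =
      TensorProduct.map a.1 LinearMap.id (x.1 g) + TensorProduct.map b.1 LinearMap.id (x.1 g)
    rw [TensorProduct.map_add_left]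
    rfl)
  commutes' c := LinearMap.ext fun x => Subtype.ext (funext fun g => by
    show TensorProduct.map (algebraMap ℂ (Module.End ℂ V₁) c) LinearMap.id (x.1 g) = c • x.1 g
    have h1 : algebraMap ℂ (Module.End ℂ V₁) c = c • LinearMap.id := LinearMap.ext fun v => rfl
    rw [h1, TensorProduct.map_smul_left, TensorProduct.map_id]
    rfl)

/-- the action of the endomorphisms of the second factor -/
def acR : EndG π₂ →ₐ[ℂ] Module.End ℂ (mulSp π₁ π₂) where
  toFun a := mulMap π₁ π₁ π₂ π₂ LinearMap.id (fun _ _ => rfl) a.1 a.2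
  map_one' := LinearMap.ext fun x => Subtype.ext (funext fun g => by
    show TensorProduct.map LinearMap.id LinearMap.id (x.1 g) = x.1 g
    rw [TensorProduct.map_id]
    rfl)
  map_mul' a b := LinearMap.ext fun x => Subtype.ext (funext fun g => by
    show TensorProduct.map (LinearMap.id ∘ₗ LinearMap.id) (a.1 ∘ₗ b.1) (x.1 g) =
      TensorProduct.map LinearMap.id a.1 (TensorProduct.map LinearMap.id b.1 (x.1 g))
    rw [TensorProduct.map_comp]
    rfl)
  map_zero' := LinearMap.ext fun x => Subtype.ext (funext fun g => by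
    show TensorProduct.map LinearMap.id (0 : V₂ →ₗ[ℂ] V₂) (x.1 g) = 0
    rw [TensorProduct.map_zero_right]
    rfl)
  map_add' a b := LinearMap.ext fun x => Subtype.ext (funext fun g => by
    show TensorProduct.map LinearMap.id (a.1 + b.1) (x.1 g) =
      TensorProduct.map LinearMap.id a.1 (x.1 g) + TensorProduct.map LinearMap.id b.1 (x.1 g)
    rw [TensorProduct.map_add_right]
    rfl)
  commutes' c := LinearMap.ext fun x => Subtype.ext (funext fun g => by
    show TensorProduct.map LinearMap.id (algebraMap ℂ (Module.End ℂ V₂) c) (x.1 g) = c • x.1 g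
    have h1 : algebraMap ℂ (Module.End ℂ V₂) c = c • LinearMap.id := LinearMap.ext fun v => rfl
    rw [h1, TensorProduct.map_smul_right, TensorProduct.map_id]
    rfl)

def ac_eq (a : EndG π₁) (b : EndG π₂) (x : mulSp π₁ π₂) :
    acL π₁ π₂ a (acR π₁ π₂ b x) = mulMap π₁ π₁ π₂ π₂ a.1 a.2 b.1 b.2 x := by
  refine Subtype.ext (funext fun g => ?_)
  show TensorProduct.map a.1 LinearMap.id (TensorProduct.map LinearMap.id b.1 (x.1 g)) =
    TensorProduct.map a.1 b.1 (x.1 g)
  rw [← LinearMap.comp_apply, ← TensorProduct.map_comp, LinearMap.comp_id, LinearMap.id_comp]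

def ac_comm (a : EndG π₁) (b : EndG π₂) (x : mulSp π₁ π₂) :
    acL π₁ π₂ a (acR π₁ π₂ b x) = acR π₁ π₂ b (acL π₁ π₂ a x) := by
  rw [ac_eq]
  refine Subtype.ext (funext fun g => ?_)
  show TensorProduct.map a.1 b.1 (x.1 g) =
    TensorProduct.map LinearMap.id b.1 (TensorProduct.map a.1 LinearMap.id (x.1 g))
  rw [← LinearMap.comp_apply, ← TensorProduct.map_comp, LinearMap.comp_id, LinearMap.id_comp]

def acL_surj (a : EndG π₁) (h₁ : IsSm π₁) (h₂ : IsSm π₂) (ha : Function.Surjective a.1) :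
    Function.Surjective (acL π₁ π₂ a) :=
  mulMap_surj π₁ π₁ π₂ π₂ a.1 a.2 LinearMap.id (fun _ _ => rfl) h₁ h₂ ha Function.surjective_id

def acR_surj (a : EndG π₂) (h₁ : IsSm π₁) (h₂ : IsSm π₂) (ha : Function.Surjective a.1) :
    Function.Surjective (acR π₁ π₂ a) :=
  mulMap_surj π₁ π₁ π₂ π₂ LinearMap.id (fun _ _ => rfl) a.1 a.2 h₁ h₂ Function.surjective_id ha

end

/-! ### power series and idempotents on one block datum -/

section

variable {κ : Type} [Fintype κ] [DecidableEq κ]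
variable {V : Type} [AddCommGroup V] [Module ℂ V]
variable {n : ℕ}
variable {D : Dat} {ℓ : Fin n → D.J} {c : κ → Fin n} {ρ : Representation ℂ (lev F c) V}

def bθ_surj (P : Strands D ℓ c ρ) (f : O n) (hf : f ≠ 0) :
    Function.Surjective (bθ P f).1 := by
  have h1 : (bθ P f).1 = (wθ (wsys P) f).1 := LinearMap.ext fun x => fam_ext fun σ => by
    rw [(b_spec P).2.2.1, wθ_apply]
    rfl
  rw [h1]
  exact wθ_surj (wsys P) f hf

def be_sum (P : Strands D ℓ c ρ) :
    (∑ w, (bφ P (ew w)).1 : Module.End ℂ (WT ℓ (SWt P))) = LinearMap.id := by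
  have h1 := congrArg Subtype.val (b_spec P).2.2.2.2.base.E_sum
  have h2 := map_sum (EndG (WR P)).val (fun w => bφ P (ew w)) Finset.univ
  exact h2.symm.trans h1

def be_emb (P : Strands D ℓ c ρ) (σ : Equiv.Perm (Fin n)) :
    (bφ P (ew (ℓ ∘ σ))).1 = emb (wsys P) σ ∘ₗ faL P σ := by
  refine LinearMap.ext fun x => fam_ext fun τ => ?_
  rw [(b_spec P).2.1, LinearMap.comp_apply, faL_apply, fam_emb]
  split_ifs with e1
  · exact fam_S' x τ σ e1.symm
  · rfl

def be_zero (P : Strands D ℓ c ρ) (w : Wd D n) (hw : ∀ σ : Equiv.Perm (Fin n), ℓ ∘ σ ≠ w) :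
    (bφ P (ew w)).1 = 0 := by
  refine LinearMap.ext fun x => fam_ext fun τ => ?_
  rw [(b_spec P).2.1, if_neg (hw τ)]
  rfl

def fa_e (P : Strands D ℓ c ρ) (w : Wd D n) (σ : Equiv.Perm (Fin n)) (x : WT ℓ (SWt P)) :
    faL P σ ((bφ P (ew w)).1 x) = if ℓ ∘ σ = w then faL P σ x else 0 :=
  (b_spec P).2.1 w x σ

def fa_θ (P : Strands D ℓ c ρ) (f : O n) (σ : Equiv.Perm (Fin n)) (x : WT ℓ (SWt P)) :
    faL P σ ((bθ P f).1 x) = opI c cst (ordP σ) (ordP_inj σ) ρ (rn σ f) (faL P σ x) :=
  (b_spec P).2.2.1 f x σ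

def fa_Φ (P : Strands D ℓ c ρ) (r : ℕ) (hr : r + 1 < n) (σ : Equiv.Perm (Fin n))
    (x : WT ℓ (SWt P)) :
    faL P σ ((bΦ P r).1 x) = TT c ρ P.S (σ * sw n r) σ (faL P (σ * sw n r) x) :=
  (b_spec P).2.2.2.1 r hr x σ

end

end

end Pool.Agent.Lib.MP_ca1492_al.L
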