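import Mathlib
import Pool.Agent.Lib.MP_ca1492_al.S5.ProdE

/-!
# MP_ca1492_al, S5/ProdF: compatibility with the idempotents, variables and crossings
-/

set_option autoImplicit false
set_option linter.unusedSectionVars false

namespace Pool.Agent.Lib.MP_ca1492_al.L

open Topology Matrix TensorProduct ValuativeRel CA1492 CA1492.PA
open Pool.Agent.Lib.MP_ca1492_al.P Pool.Agent.Lib.MP_ca1492_al.Q Pool.Agent.Lib.MP_ca1492_al.D5

noncomputable section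

variable {F : Type} [Field F] [ValuativeRel F] [TopologicalSpace F]
  [IsNonarchimedeanLocalField F]

section

variable {D : Dat} {RJ : D.J → GLRep F} {e : D.J → D.J → PowerSeries ℂ} {m k : ℕ}
variable (h : TwoD D RJ e) (ℓ : Fin (m + k) → D.J)

attribute [local irreducible] Xi gp th bφ bθ bΦ WR

def equi_ite {G V : Type} [Group G] [AddCommGroup V] [Module ℂ V] (P : Prop) [Decidable P]
    (π : Representation ℂ G V) :
    Equi π π (if P then LinearMap.id else 0 : V →ₗ[ℂ] V) := by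
  split_ifs
  · exact fun _ _ => rfl
  · exact fun _ _ => (map_zero _).symm

section

variable {κ₁ κ₂ : Type} [Fintype κ₁] [DecidableEq κ₁] [Fintype κ₂] [DecidableEq κ₂]
    {V₁ V₂ W₁ W₂ : Type} [AddCommGroup V₁] [Module ℂ V₁] [AddCommGroup V₂] [Module ℂ V₂]
    [AddCommGroup W₁] [Module ℂ W₁] [AddCommGroup W₂] [Module ℂ W₂]
    (π₁ : Representation ℂ (GL κ₁ F) V₁) (π₂ : Representation ℂ (GL κ₂ F) V₂)
    (σ₁ : Representation ℂ (GL κ₁ F) W₁) (σ₂ : Representation ℂ (GL κ₂ F) W₂)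

def prMap_id (Φ₁ : V₁ →ₗ[ℂ] V₁) (Φ₂ : V₂ →ₗ[ℂ] V₂) (h₁ : Equi π₁ π₁ Φ₁)
    (h₂ : Equi π₂ π₂ Φ₂) (e₁ : ∀ v, Φ₁ v = v) (e₂ : ∀ v, Φ₂ v = v)
    (f : Q.GLRep.indSp (F := F) ⟨κ₁, V₁, π₁⟩ ⟨κ₂, V₂, π₂⟩) :
    prMap π₁ π₂ π₁ π₂ Φ₁ Φ₂ h₁ h₂ f = f := by
  refine Subtype.ext (funext fun g => ?_)
  show TensorProduct.map Φ₁ Φ₂ (f.1 g) = f.1 g
  have e1 : Φ₁ = LinearMap.id := LinearMap.ext e₁
  have e2 : Φ₂ = LinearMap.id := LinearMap.ext e₂
  rw [e1, e2, TensorProduct.map_id]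
  rfl

def prMap_zl (Φ₁ : V₁ →ₗ[ℂ] W₁) (Φ₂ : V₂ →ₗ[ℂ] W₂) (h₁ : Equi π₁ σ₁ Φ₁)
    (h₂ : Equi π₂ σ₂ Φ₂) (e₁ : ∀ v, Φ₁ v = 0)
    (f : Q.GLRep.indSp (F := F) ⟨κ₁, V₁, π₁⟩ ⟨κ₂, V₂, π₂⟩) :
    prMap π₁ π₂ σ₁ σ₂ Φ₁ Φ₂ h₁ h₂ f = 0 := by
  refine Subtype.ext (funext fun g => ?_)
  show TensorProduct.map Φ₁ Φ₂ (f.1 g) = 0
  have e1 : Φ₁ = 0 := LinearMap.ext e₁
  rw [e1, TensorProduct.map_zero_left]
  rfl

def prMap_zr (Φ₁ : V₁ →ₗ[ℂ] W₁) (Φ₂ : V₂ →ₗ[ℂ] W₂) (h₁ : Equi π₁ σ₁ Φ₁)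
    (h₂ : Equi π₂ σ₂ Φ₂) (e₂ : ∀ v, Φ₂ v = 0)
    (f : Q.GLRep.indSp (F := F) ⟨κ₁, V₁, π₁⟩ ⟨κ₂, V₂, π₂⟩) :
    prMap π₁ π₂ σ₁ σ₂ Φ₁ Φ₂ h₁ h₂ f = 0 := by
  refine Subtype.ext (funext fun g => ?_)
  show TensorProduct.map Φ₁ Φ₂ (f.1 g) = 0
  have e1 : Φ₂ = 0 := LinearMap.ext e₂
  rw [e1, TensorProduct.map_zero_right]
  rfl

end

/-- components of operators -/
def gp_mul (p p' : Equiv.Perm (Fin m)) (q q' : Equiv.Perm (Fin k))
    (a : EndG (WR (str h (wl ℓ)))) (b : EndG (WR (str h (wr ℓ))))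
    (A : IP (sc fun x => RJ (wl ℓ x)) (tenRep fun x => RJ (wl ℓ x)) p' →ₗ[ℂ]
      IP (sc fun x => RJ (wl ℓ x)) (tenRep fun x => RJ (wl ℓ x)) p)
    (B : IP (sc fun x => RJ (wr ℓ x)) (tenRep fun x => RJ (wr ℓ x)) q' →ₗ[ℂ]
      IP (sc fun x => RJ (wr ℓ x)) (tenRep fun x => RJ (wr ℓ x)) q)
    (hA : Equi (iG RJ (wl ℓ) p').π (iG RJ (wl ℓ) p).π A)
    (hB : Equi (iG RJ (wr ℓ) q').π (iG RJ (wr ℓ) q).π B)
    (ha : ∀ x, faL (str h (wl ℓ)) p (a.1 x) = A (faL (str h (wl ℓ)) p' x))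
    (hb : ∀ x, faL (str h (wr ℓ)) q (b.1 x) = B (faL (str h (wr ℓ)) q' x))
    (x : mulSp (WR (str h (wl ℓ))) (WR (str h (wr ℓ)))) :
    gp h ℓ p q (mulMap (WR (str h (wl ℓ))) (WR (str h (wl ℓ))) (WR (str h (wr ℓ)))
        (WR (str h (wr ℓ))) a.1 a.2 b.1 b.2 x) =
      th RJ ℓ p q (prMap (iG RJ (wl ℓ) p').π (iG RJ (wr ℓ) q').π (iG RJ (wl ℓ) p).π
        (iG RJ (wr ℓ) q).π A B hA hB (prMap (WR (str h (wl ℓ))) (WR (str h (wr ℓ)))
          (iG RJ (wl ℓ) p').π (iG RJ (wr ℓ) q').π (faL (str h (wl ℓ)) p')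
          (faL (str h (wr ℓ)) q') (faL_equi (str h (wl ℓ)) p') (faL_equi (str h (wr ℓ)) q')
          x)) := by
  refine (gp_apply h ℓ p q _).trans ?_
  refine congrArg (th RJ ℓ p q) ?_
  have h1 : Equi (WR (str h (wl ℓ))) (iG RJ (wl ℓ) p).π (faL (str h (wl ℓ)) p ∘ₗ a.1) := by
    intro g v
    rw [LinearMap.comp_apply, LinearMap.comp_apply, a.2 g v]
    exact faL_equi (str h (wl ℓ)) p g _
  have h2 : Equi (WR (str h (wr ℓ))) (iG RJ (wr ℓ) q).π (faL (str h (wr ℓ)) q ∘ₗ b.1) := by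
    intro g v
    rw [LinearMap.comp_apply, LinearMap.comp_apply, b.2 g v]
    exact faL_equi (str h (wr ℓ)) q g _
  have e1 := prMap_prMap (WR (str h (wl ℓ))) (WR (str h (wr ℓ))) (WR (str h (wl ℓ)))
    (WR (str h (wr ℓ))) (iG RJ (wl ℓ) p).π (iG RJ (wr ℓ) q).π a.1 b.1 a.2 b.2
    (faL (str h (wl ℓ)) p) (faL (str h (wr ℓ)) q) (faL_equi (str h (wl ℓ)) p)
    (faL_equi (str h (wr ℓ)) q) (faL (str h (wl ℓ)) p ∘ₗ a.1) (faL (str h (wr ℓ)) q ∘ₗ b.1)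
    h1 h2 (fun _ => rfl) (fun _ => rfl) x
  have e2 := prMap_prMap (WR (str h (wl ℓ))) (WR (str h (wr ℓ))) (iG RJ (wl ℓ) p').π
    (iG RJ (wr ℓ) q').π (iG RJ (wl ℓ) p).π (iG RJ (wr ℓ) q).π (faL (str h (wl ℓ)) p')
    (faL (str h (wr ℓ)) q') (faL_equi (str h (wl ℓ)) p') (faL_equi (str h (wr ℓ)) q')
    A B hA hB (faL (str h (wl ℓ)) p ∘ₗ a.1) (faL (str h (wr ℓ)) q ∘ₗ b.1)
    h1 h2 (fun v => (ha v).symm) (fun v => (hb v).symm) x
  exact e1.trans e2.symm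

/-- the map is equivariant -/
def Xi_equi (g : GL (sk (fun x => RJ (wl ℓ x)) ⊕ sk (fun y => RJ (wr ℓ y))) F)
    (x : mulSp (WR (str h (wl ℓ))) (WR (str h (wr ℓ)))) :
    Xi h ℓ (mulR (WR (str h (wl ℓ))) (WR (str h (wr ℓ))) g x) =
      WR (str h ℓ) (GLRep.glRe (sP RJ ℓ).e g) (Xi h ℓ x) := by
  refine wt_ext h ℓ _ _ (fun p q => ?_) fun σ hσ => ?_
  · exact (fam_Xi h ℓ _ p q).trans ((gp_equi h ℓ p q g x).trans
      ((congrArg (gI _ _ _ _) (fam_Xi h ℓ x p q).symm).trans (WR_apply (str h ℓ) _ _ _).symm))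
  · exact (fam_Xi0 h ℓ _ σ hσ).trans ((WR_apply (str h ℓ) _ _ _).trans
      ((congrArg (gI _ _ _ σ) (fam_Xi0 h ℓ x σ hσ)).trans (map_zero _))).symm

/-- idempotents -/
def Xi_e (u : Wd D m) (u' : Wd D k) (x : mulSp (WR (str h (wl ℓ))) (WR (str h (wr ℓ)))) :
    (bφ (str h ℓ) (ew (Fin.append u u'))).1 (Xi h ℓ x) =
      Xi h ℓ (mulMap (WR (str h (wl ℓ))) (WR (str h (wl ℓ))) (WR (str h (wr ℓ)))
        (WR (str h (wr ℓ))) (bφ (str h (wl ℓ)) (ew u)).1 (bφ (str h (wl ℓ)) (ew u)).2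
        (bφ (str h (wr ℓ)) (ew u')).1 (bφ (str h (wr ℓ)) (ew u')).2 x) := by
  refine wt_ext h ℓ _ _ (fun p q => ?_) fun σ hσ => ?_
  · refine ((b_spec (str h ℓ)).2.1 _ _ _).trans ?_
    refine Eq.trans ?_ (fam_Xi h ℓ _ p q).symm
    simp only [fam_Xi h ℓ x p q]
    refine Eq.trans ?_ (gp_mul h ℓ p p q q (bφ (str h (wl ℓ)) (ew u))
      (bφ (str h (wr ℓ)) (ew u')) (if wl ℓ ∘ p = u then LinearMap.id else 0)
      (if wr ℓ ∘ q = u' then LinearMap.id else 0) (equi_ite _ _) (equi_ite _ _)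
      (fun y => ?_) (fun y => ?_) x).symm
    · by_cases h1 : wl ℓ ∘ p = u
      · by_cases h2 : wr ℓ ∘ q = u'
        · have h3 : ℓ ∘ apP p q = Fin.append u u' := by rw [word_ap, h1, h2]
          refine (if_pos h3).trans ((gp_apply h ℓ p q x).trans ?_)
          refine congrArg (th RJ ℓ p q) (prMap_id _ _ _ _ _ _ (fun v => ?_) (fun v => ?_) _).symm
          · rw [if_pos h1]
            rfl
          · rw [if_pos h2]
            rfl
        · have h3 : ℓ ∘ apP p q ≠ Fin.append u u' := by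
            rw [word_ap]
            exact fun h4 => h2 (append_inj' h4).2
          refine (if_neg h3).trans ?_
          refine ((congrArg (th RJ ℓ p q) (prMap_zr _ _ _ _ _ _ _ _ (fun v => ?_) _)).trans
            (th RJ ℓ p q).map_zero).symm
          rw [if_neg h2]
          rfl
      · have h3 : ℓ ∘ apP p q ≠ Fin.append u u' := by
          rw [word_ap]
          exact fun h4 => h1 (append_inj' h4).1
        refine (if_neg h3).trans ?_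
        refine ((congrArg (th RJ ℓ p q) (prMap_zl _ _ _ _ _ _ _ _ (fun v => ?_) _)).trans
          (th RJ ℓ p q).map_zero).symm
        rw [if_neg h1]
        rfl
    · rw [fa_e]
      split_ifs <;> rfl
    · rw [fa_e]
      split_ifs <;> rfl
  · refine ((b_spec (str h ℓ)).2.1 _ _ _).trans ?_
    refine Eq.trans ?_ (fam_Xi0 h ℓ _ σ hσ).symm
    simp only [fam_Xi0 h ℓ x σ hσ, ite_self]

/-- power series -/
def Xi_θ (f₁ : O m) (f₂ : O k) (f : O (m + k))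
    (hf : f = MvPowerSeries.rename finSumFinEquiv
      (MvPowerSeries.rename Sum.inl f₁ * MvPowerSeries.rename Sum.inr f₂))
    (x : mulSp (WR (str h (wl ℓ))) (WR (str h (wr ℓ)))) :
    (bθ (str h ℓ) f).1 (Xi h ℓ x) =
      Xi h ℓ (mulMap (WR (str h (wl ℓ))) (WR (str h (wl ℓ))) (WR (str h (wr ℓ)))
        (WR (str h (wr ℓ))) (bθ (str h (wl ℓ)) f₁).1 (bθ (str h (wl ℓ)) f₁).2
        (bθ (str h (wr ℓ)) f₂).1 (bθ (str h (wr ℓ)) f₂).2 x) := by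
  refine wt_ext h ℓ _ _ (fun p q => ?_) fun σ hσ => ?_
  · refine ((b_spec (str h ℓ)).2.2.1 _ _ _).trans ?_
    refine Eq.trans ?_ (fam_Xi h ℓ _ p q).symm
    simp only [fam_Xi h ℓ x p q]
    refine Eq.trans ?_ (gp_mul h ℓ p p q q (bθ (str h (wl ℓ)) f₁) (bθ (str h (wr ℓ)) f₂)
      (opI (sc fun x => RJ (wl ℓ x)) (fun _ => ()) (ordP p) (ordP_inj p)
        (tenRep fun x => RJ (wl ℓ x)) (rn p f₁))
      (opI (sc fun x => RJ (wr ℓ x)) (fun _ => ()) (ordP q) (ordP_inj q)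
        (tenRep fun x => RJ (wr ℓ x)) (rn q f₂)) (fun _ _ => rfl) (fun _ _ => rfl)
        (fun y => fa_θ _ _ _ _) (fun y => fa_θ _ _ _ _) x).symm
    refine Eq.trans ?_ (th_op RJ ℓ p q (rn p f₁) (rn q f₂) _).symm
    refine (congrArg _ (gp_apply h ℓ p q x)).trans ?_
    have e1 : rn (apP p q) (MvPowerSeries.rename finSumFinEquiv
        (MvPowerSeries.rename Sum.inl f₁)) = MvPowerSeries.rename finSumFinEquiv
          (MvPowerSeries.rename Sum.inl (rn p f₁)) := by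
      unfold rn
      rw [MvPowerSeries.rename_rename, MvPowerSeries.rename_rename, MvPowerSeries.rename_rename,
        MvPowerSeries.rename_rename]
      exact congrArg (fun g => MvPowerSeries.rename g f₁) (funext fun x => apP_l p q x)
    have e2 : rn (apP p q) (MvPowerSeries.rename finSumFinEquiv
        (MvPowerSeries.rename Sum.inr f₂)) = MvPowerSeries.rename finSumFinEquiv
          (MvPowerSeries.rename Sum.inr (rn q f₂)) := by
      unfold rn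
      rw [MvPowerSeries.rename_rename, MvPowerSeries.rename_rename, MvPowerSeries.rename_rename,
        MvPowerSeries.rename_rename]
      exact congrArg (fun g => MvPowerSeries.rename g f₂) (funext fun x => apP_r p q x)
    have e3 : rn (apP p q) f = MvPowerSeries.rename finSumFinEquiv
        (MvPowerSeries.rename Sum.inl (rn p f₁) * MvPowerSeries.rename Sum.inr (rn q f₂)) := by
      rw [hf, map_mul, map_mul, map_mul, e1, e2]
    exact congrArg (fun y => opI (sc fun a => RJ (ℓ a)) cst (ordP (apP p q)) (ordP_inj _)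
      (tenRep fun a => RJ (ℓ a)) y (th RJ ℓ p q _)) e3
  · refine ((b_spec (str h ℓ)).2.2.1 _ _ _).trans ?_
    refine Eq.trans ?_ (fam_Xi0 h ℓ _ σ hσ).symm
    exact (congrArg _ (fam_Xi0 h ℓ x σ hσ)).trans (map_zero _)

end

end

end Pool.Agent.Lib.MP_ca1492_al.L
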