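import Mathlib
import Pool.Agent.Lib.MP_ca1492_al.S5.ProdF

/-!
# MP_ca1492_al, S5/ProdG: compatibility with the crossings
-/

set_option autoImplicit false
set_option linter.unusedSectionVars false

namespace Pool.Agent.Lib.MP_ca1492_al.L

open Topology Matrix TensorProduct ValuativeRel CA1492 CA1492.PA
open Pool.Agent.Lib.MP_ca1492_al.P Pool.Agent.Lib.MP_ca1492_al.Q Pool.Agent.Lib.MP_ca1492_al.D5

noncomputable section

variable {F : Type} [Field F] [ValuativeRel F] [TopologicalSpace F]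
  [IsNonarchimedeanLocalField F]

section

variable {D : Dat} {RJ : D.J → GLRep F} {e : D.J → D.J → PowerSeries ℂ} {m k : ℕ}
variable (h : TwoD D RJ e) (ℓ : Fin (m + k) → D.J)

attribute [local irreducible] Xi gp th bφ bθ bΦ WR

def adj_lt {n : ℕ} (σ : Equiv.Perm (Fin n)) (r : ℕ) (hr : r + 1 < n) :
    ordP σ (σ ⟨r, by omega⟩) < ordP σ (σ ⟨r + 1, hr⟩) := by
  rw [ordP_apply, ordP_apply]
  exact_mod_cast Nat.lt_succ_self r

def ld_l (p : Equiv.Perm (Fin m)) (q : Equiv.Perm (Fin k)) (r : ℕ) (hr : r + 1 < m) :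
    ldP (str h ℓ).S (apP p q) (apP (p * sw m r) q) = MvPowerSeries.rename finSumFinEquiv
      (MvPowerSeries.rename Sum.inl (ldP (str h (wl ℓ)).S p (p * sw m r)) *
        MvPowerSeries.rename Sum.inr (1 : MvPowerSeries (Fin k) ℂ)) := by
  rw [apP_sw_l p q r hr, map_one, mul_one,
    ldP_sw (str h ℓ).S (apP p q) (apP p q) r (by omega) (adj_lt _ r (by omega)),
    ldP_sw (str h (wl ℓ)).S p p r hr (adj_lt p r hr), ldP_self, ldP_self, mul_one, mul_one,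
    str_e, str_e]
  have h1 : apP p q ⟨r, by omega⟩ = finSumFinEquiv (Sum.inl (p ⟨r, by omega⟩)) :=
    apP_l p q ⟨r, by omega⟩
  have h2 : apP p q ⟨r + 1, by omega⟩ = finSumFinEquiv (Sum.inl (p ⟨r + 1, hr⟩)) :=
    apP_l p q ⟨r + 1, hr⟩
  rw [h1, h2]
  have h3 := rename_subst (⟨Sum.inl, Sum.inl_injective⟩ : Fin m ↪ Fin m ⊕ Fin k)
    (a := p ⟨r, by omega⟩) (b := p ⟨r + 1, hr⟩) (e (wl ℓ (p ⟨r, by omega⟩)) (wl ℓ (p ⟨r + 1, hr⟩)))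
  have h4 := rename_subst (finSumFinEquiv (m := m) (n := k)).toEmbedding
    (a := Sum.inl (p ⟨r, by omega⟩)) (b := Sum.inl (p ⟨r + 1, hr⟩))
    (e (wl ℓ (p ⟨r, by omega⟩)) (wl ℓ (p ⟨r + 1, hr⟩)))
  exact h4.symm.trans (congrArg (MvPowerSeries.rename finSumFinEquiv) h3.symm)

def ld_r (p : Equiv.Perm (Fin m)) (q : Equiv.Perm (Fin k)) (r : ℕ) (hr : r + 1 < k) :
    ldP (str h ℓ).S (apP p q) (apP p (q * sw k r)) = MvPowerSeries.rename finSumFinEquiv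
      (MvPowerSeries.rename Sum.inl (1 : MvPowerSeries (Fin m) ℂ) *
        MvPowerSeries.rename Sum.inr (ldP (str h (wr ℓ)).S q (q * sw k r))) := by
  rw [apP_sw_r p q r hr, map_one, one_mul,
    ldP_sw (str h ℓ).S (apP p q) (apP p q) (m + r) (by omega) (adj_lt _ (m + r) (by omega)),
    ldP_sw (str h (wr ℓ)).S q q r hr (adj_lt q r hr), ldP_self, ldP_self, mul_one, mul_one,
    str_e, str_e]
  have h1 : apP p q ⟨m + r, by omega⟩ = finSumFinEquiv (Sum.inr (q ⟨r, by omega⟩)) :=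
    apP_r p q ⟨r, by omega⟩
  have h2 : apP p q ⟨m + r + 1, by omega⟩ = finSumFinEquiv (Sum.inr (q ⟨r + 1, hr⟩)) :=
    apP_r p q ⟨r + 1, hr⟩
  rw [h1, h2]
  have h3 := rename_subst (⟨Sum.inr, Sum.inr_injective⟩ : Fin k ↪ Fin m ⊕ Fin k)
    (a := q ⟨r, by omega⟩) (b := q ⟨r + 1, hr⟩) (e (wr ℓ (q ⟨r, by omega⟩)) (wr ℓ (q ⟨r + 1, hr⟩)))
  have h4 := rename_subst (finSumFinEquiv (m := m) (n := k)).toEmbedding
    (a := Sum.inr (q ⟨r, by omega⟩)) (b := Sum.inr (q ⟨r + 1, hr⟩))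
    (e (wr ℓ (q ⟨r, by omega⟩)) (wr ℓ (q ⟨r + 1, hr⟩)))
  exact h4.symm.trans (congrArg (MvPowerSeries.rename finSumFinEquiv) h3.symm)

/-- crossings of the first factor -/
def gp_ΦL (p p₁ : Equiv.Perm (Fin m)) (q : Equiv.Perm (Fin k)) (r : ℕ) (hr : r + 1 < m)
    (hp : p = p₁ * sw m r) (hp₁ : p₁ = p * sw m r)
    (x : mulSp (WR (str h (wl ℓ))) (WR (str h (wr ℓ)))) :
    TT (sc fun a => RJ (ℓ a)) (tenRep fun a => RJ (ℓ a)) (str h ℓ).S (apP p₁ q) (apP p q)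
        (gp h ℓ p₁ q x) =
      gp h ℓ p q (mulMap (WR (str h (wl ℓ))) (WR (str h (wl ℓ))) (WR (str h (wr ℓ)))
        (WR (str h (wr ℓ))) (bΦ (str h (wl ℓ)) r).1 (bΦ (str h (wl ℓ)) r).2
        (1 : EndG (WR (str h (wr ℓ)))).1 (1 : EndG (WR (str h (wr ℓ)))).2 x) := by
  have hg := TT_good (sc fun x => RJ (wl ℓ x)) (tenRep fun x => RJ (wl ℓ x))
    (str h (wl ℓ)).S p₁ p
  have hi := good_id (sc fun x => RJ (wr ℓ x)) (ordP q) (ordP_inj q)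
    (tenRep fun x => RJ (wr ℓ x))
  have hA : Equi (iG RJ (wl ℓ) p₁).π (iG RJ (wl ℓ) p).π
      (TT (sc fun x => RJ (wl ℓ x)) (tenRep fun x => RJ (wl ℓ x)) (str h (wl ℓ)).S p₁ p) :=
    fun g v => hg.mem.1 (levC F _ g) v
  have hB : Equi (iG RJ (wr ℓ) q).π (iG RJ (wr ℓ) q).π LinearMap.id := fun _ _ => rfl
  have hld : ldP (str h ℓ).S (apP p₁ q) (apP p q) = MvPowerSeries.rename finSumFinEquiv
      (MvPowerSeries.rename Sum.inl (ldP (str h (wl ℓ)).S p₁ p) *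
        MvPowerSeries.rename Sum.inr (1 : MvPowerSeries (Fin k) ℂ)) := by
    rw [hp]
    exact ld_l h ℓ p₁ q r hr
  have e1 := th_XI RJ ℓ p₁ p q q h.hR (str h ℓ).S _ LinearMap.id hg.mem hi.mem _ _ hg.lead
    hi.lead hld hA hB (prMap (WR (str h (wl ℓ))) (WR (str h (wr ℓ)))
          (iG RJ (wl ℓ) p₁).π (iG RJ (wr ℓ) q).π (faL (str h (wl ℓ)) p₁)
          (faL (str h (wr ℓ)) q) (faL_equi (str h (wl ℓ)) p₁) (faL_equi (str h (wr ℓ)) q) x)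
  have e2 := gp_mul h ℓ p p₁ q q (bΦ (str h (wl ℓ)) r) (1 : EndG (WR (str h (wr ℓ))))
    (TT (sc fun x => RJ (wl ℓ x)) (tenRep fun x => RJ (wl ℓ x)) (str h (wl ℓ)).S p₁ p)
    LinearMap.id hA hB (fun y => by
      have h1 := fa_Φ (str h (wl ℓ)) r hr p y
      rw [← hp₁] at h1
      exact h1) (fun y => rfl) x
  exact (congrArg _ (gp_apply h ℓ p₁ q x)).trans (e1.trans e2.symm)

/-- crossings of the second factor -/
def gp_ΦR (p : Equiv.Perm (Fin m)) (q q₁ : Equiv.Perm (Fin k)) (r : ℕ) (hr : r + 1 < k)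
    (hp : q = q₁ * sw k r) (hp₁ : q₁ = q * sw k r)
    (x : mulSp (WR (str h (wl ℓ))) (WR (str h (wr ℓ)))) :
    TT (sc fun a => RJ (ℓ a)) (tenRep fun a => RJ (ℓ a)) (str h ℓ).S (apP p q₁) (apP p q)
        (gp h ℓ p q₁ x) =
      gp h ℓ p q (mulMap (WR (str h (wl ℓ))) (WR (str h (wl ℓ))) (WR (str h (wr ℓ)))
        (WR (str h (wr ℓ))) (1 : EndG (WR (str h (wl ℓ)))).1 (1 : EndG (WR (str h (wl ℓ)))).2
        (bΦ (str h (wr ℓ)) r).1 (bΦ (str h (wr ℓ)) r).2 x) := by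
  have hg := TT_good (sc fun x => RJ (wr ℓ x)) (tenRep fun x => RJ (wr ℓ x))
    (str h (wr ℓ)).S q₁ q
  have hi := good_id (sc fun x => RJ (wl ℓ x)) (ordP p) (ordP_inj p)
    (tenRep fun x => RJ (wl ℓ x))
  have hA : Equi (iG RJ (wr ℓ) q₁).π (iG RJ (wr ℓ) q).π
      (TT (sc fun x => RJ (wr ℓ x)) (tenRep fun x => RJ (wr ℓ x)) (str h (wr ℓ)).S q₁ q) :=
    fun g v => hg.mem.1 (levC F _ g) v
  have hB : Equi (iG RJ (wl ℓ) p).π (iG RJ (wl ℓ) p).π LinearMap.id := fun _ _ => rfl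
  have hld : ldP (str h ℓ).S (apP p q₁) (apP p q) = MvPowerSeries.rename finSumFinEquiv
      (MvPowerSeries.rename Sum.inl (1 : MvPowerSeries (Fin m) ℂ) *
        MvPowerSeries.rename Sum.inr (ldP (str h (wr ℓ)).S q₁ q)) := by
    rw [hp]
    exact ld_r h ℓ p q₁ r hr
  have e1 := th_XI RJ ℓ p p q₁ q h.hR (str h ℓ).S LinearMap.id _ hi.mem hg.mem _ _ hi.lead
    hg.lead hld hB hA (prMap (WR (str h (wl ℓ))) (WR (str h (wr ℓ)))
          (iG RJ (wl ℓ) p).π (iG RJ (wr ℓ) q₁).π (faL (str h (wl ℓ)) p)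
          (faL (str h (wr ℓ)) q₁) (faL_equi (str h (wl ℓ)) p) (faL_equi (str h (wr ℓ)) q₁) x)
  have e2 := gp_mul h ℓ p p q q₁ (1 : EndG (WR (str h (wl ℓ)))) (bΦ (str h (wr ℓ)) r)
    LinearMap.id
    (TT (sc fun x => RJ (wr ℓ x)) (tenRep fun x => RJ (wr ℓ x)) (str h (wr ℓ)).S q₁ q)
    hB hA (fun y => rfl) (fun y => by
      have h1 := fa_Φ (str h (wr ℓ)) r hr q y
      rw [← hp₁] at h1
      exact h1) x
  exact (congrArg _ (gp_apply h ℓ p q₁ x)).trans (e1.trans e2.symm)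

def sw_ssq {n : ℕ} (σ τ : Equiv.Perm (Fin n)) (r : ℕ) (hσ : σ = τ * sw n r) :
    τ = σ * sw n r := by
  rw [hσ, mul_assoc, sw_sq, mul_one]

def qp_l (σ : Equiv.Perm (Fin (m + k))) (r : ℕ) (hr : r + 1 < m)
    (hσ : QP ℓ (σ * sw (m + k) r)) : QP ℓ σ := by
  obtain ⟨⟨p, q⟩, hpq⟩ := hσ
  refine ⟨(p * sw m r, q), ?_⟩
  show ℓ ∘ σ = ℓ ∘ apP (p * sw m r) q
  rw [apP_sw_l p q r hr]
  have h1 : ∀ τ : Equiv.Perm (Fin (m + k)), (ℓ ∘ (τ * sw (m + k) r : Equiv.Perm _)) ∘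
      sw (m + k) r = ℓ ∘ τ := by
    intro τ
    funext y
    show ℓ (τ (sw (m + k) r (sw (m + k) r y))) = ℓ (τ y)
    rw [swj]
  have h2 := congrArg (fun w => w ∘ sw (m + k) r) hpq
  rw [← h1 σ]
  exact h2

def qp_r (σ : Equiv.Perm (Fin (m + k))) (r : ℕ) (hr : r + 1 < k)
    (hσ : QP ℓ (σ * sw (m + k) (m + r))) : QP ℓ σ := by
  obtain ⟨⟨p, q⟩, hpq⟩ := hσ
  refine ⟨(p, q * sw k r), ?_⟩
  show ℓ ∘ σ = ℓ ∘ apP p (q * sw k r)
  rw [apP_sw_r p q r hr]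
  have h1 : ∀ τ : Equiv.Perm (Fin (m + k)), (ℓ ∘ (τ * sw (m + k) (m + r) : Equiv.Perm _)) ∘
      sw (m + k) (m + r) = ℓ ∘ τ := by
    intro τ
    funext y
    show ℓ (τ (sw (m + k) (m + r) (sw (m + k) (m + r) y))) = ℓ (τ y)
    rw [swj]
  have h2 := congrArg (fun w => w ∘ sw (m + k) (m + r)) hpq
  rw [← h1 σ]
  exact h2

/-- evaluation at an equal permutation -/
def TT_fam (x : mulSp (WR (str h (wl ℓ))) (WR (str h (wr ℓ)))) (p p₁ : Equiv.Perm (Fin m))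
    (q q₁ : Equiv.Perm (Fin k)) (τ : Equiv.Perm (Fin (m + k))) (hτ : τ = apP p₁ q₁) :
    TT (sc fun a => RJ (ℓ a)) (tenRep fun a => RJ (ℓ a)) (str h ℓ).S τ (apP p q)
        (fam (Xi h ℓ x) τ) =
      TT (sc fun a => RJ (ℓ a)) (tenRep fun a => RJ (ℓ a)) (str h ℓ).S (apP p₁ q₁) (apP p q)
        (gp h ℓ p₁ q₁ x) := by
  subst hτ
  exact congrArg _ (fam_Xi h ℓ x p₁ q₁)

def Xi_ΦL (r : ℕ) (hr : r + 1 < m) (x : mulSp (WR (str h (wl ℓ))) (WR (str h (wr ℓ)))) :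
    (bΦ (str h ℓ) r).1 (Xi h ℓ x) =
      Xi h ℓ (mulMap (WR (str h (wl ℓ))) (WR (str h (wl ℓ))) (WR (str h (wr ℓ)))
        (WR (str h (wr ℓ))) (bΦ (str h (wl ℓ)) r).1 (bΦ (str h (wl ℓ)) r).2
        (1 : EndG (WR (str h (wr ℓ)))).1 (1 : EndG (WR (str h (wr ℓ)))).2 x) := by
  refine wt_ext h ℓ _ _ (fun p q => ?_) fun σ hσ => ?_
  · refine ((b_spec (str h ℓ)).2.2.2.1 r (by omega) _ _).trans ?_
    refine Eq.trans ?_ (fam_Xi h ℓ _ p q).symm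
    refine (TT_fam h ℓ x p (p * sw m r) q q _ (apP_sw_l p q r hr).symm).trans ?_
    exact gp_ΦL h ℓ p (p * sw m r) q r hr (sw_ssq _ _ r rfl) rfl x
  · refine ((b_spec (str h ℓ)).2.2.2.1 r (by omega) _ _).trans ?_
    refine Eq.trans ?_ (fam_Xi0 h ℓ _ σ hσ).symm
    exact (congrArg _ (fam_Xi0 h ℓ x _ fun h1 => hσ (qp_l ℓ σ r hr h1))).trans (map_zero _)

def Xi_ΦR (r : ℕ) (hr : r + 1 < k) (x : mulSp (WR (str h (wl ℓ))) (WR (str h (wr ℓ)))) :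
    (bΦ (str h ℓ) (m + r)).1 (Xi h ℓ x) =
      Xi h ℓ (mulMap (WR (str h (wl ℓ))) (WR (str h (wl ℓ))) (WR (str h (wr ℓ)))
        (WR (str h (wr ℓ))) (1 : EndG (WR (str h (wl ℓ)))).1 (1 : EndG (WR (str h (wl ℓ)))).2
        (bΦ (str h (wr ℓ)) r).1 (bΦ (str h (wr ℓ)) r).2 x) := by
  refine wt_ext h ℓ _ _ (fun p q => ?_) fun σ hσ => ?_
  · refine ((b_spec (str h ℓ)).2.2.2.1 (m + r) (by omega) _ _).trans ?_
    refine Eq.trans ?_ (fam_Xi h ℓ _ p q).symm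
    refine (TT_fam h ℓ x p p q (q * sw k r) _ (apP_sw_r p q r hr).symm).trans ?_
    exact gp_ΦR h ℓ p q (q * sw k r) r hr (sw_ssq _ _ r rfl) rfl x
  · refine ((b_spec (str h ℓ)).2.2.2.1 (m + r) (by omega) _ _).trans ?_
    refine Eq.trans ?_ (fam_Xi0 h ℓ _ σ hσ).symm
    exact (congrArg _ (fam_Xi0 h ℓ x _ fun h1 => hσ (qp_r ℓ σ r hr h1))).trans (map_zero _)

end

end

end Pool.Agent.Lib.MP_ca1492_al.L
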