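import Mathlib
import Pool.Agent.Lib.MP_ca1492_al.S5.ProdF

/-!
# MP_ca1492_al, S5/ProdH: the image of the map
-/

set_option autoImplicit false
set_option linter.unusedSectionVars false

namespace Pool.Agent.Lib.MP_ca1492_al.L

open Topology Matrix TensorProduct ValuativeRel CA1492 CA1492.PA
open Pool.Agent.Lib.MP_ca1492_al.P Pool.Agent.Lib.MP_ca1492_al.Q Pool.Agent.Lib.MP_ca1492_al.D5

noncomputable section

variable {F : Type} [Field F] [ValuativeRel F] [TopologicalSpace F]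
  [IsNonarchimedeanLocalField F]

section

variable {D : Dat} {RJ : D.J → GLRep F} {e : D.J → D.J → PowerSeries ℂ} {m k : ℕ}
variable (h : TwoD D RJ e) (ℓ : Fin (m + k) → D.J)

attribute [local irreducible] Xi gp th bφ bθ bΦ WR

def Xi_surj (p : Equiv.Perm (Fin m)) (q : Equiv.Perm (Fin k)) (z : WT ℓ (SWt (str h ℓ)))
    (hz : (bφ (str h ℓ) (ew (Fin.append (wl ℓ ∘ p) (wr ℓ ∘ q)))).1 z = z) :
    ∃ x, Xi h ℓ x = z := by
  have hz0 : ∀ σ : Equiv.Perm (Fin (m + k)), ℓ ∘ σ ≠ ℓ ∘ apP p q → fam z σ = 0 := by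
    intro σ hσ
    have h1 := (b_spec (str h ℓ)).2.1 (Fin.append (wl ℓ ∘ p) (wr ℓ ∘ q)) z σ
    rw [hz, if_neg (by rw [← word_ap]; exact hσ)] at h1
    exact h1
  obtain ⟨y, hy⟩ := (th RJ ℓ p q).surjective (fam z (apP p q))
  refine ⟨prMap (iG RJ (wl ℓ) p).π (iG RJ (wr ℓ) q).π (WR (str h (wl ℓ))) (WR (str h (wr ℓ)))
    (emb (wsys (str h (wl ℓ))) p) (emb (wsys (str h (wr ℓ))) q)
    (emb_equi (str h (wl ℓ)) p) (emb_equi (str h (wr ℓ)) q) y, ?_⟩
  have hgp : ∀ p' q', gp h ℓ p' q' (prMap (iG RJ (wl ℓ) p).π (iG RJ (wr ℓ) q).π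
      (WR (str h (wl ℓ))) (WR (str h (wr ℓ))) (emb (wsys (str h (wl ℓ))) p)
      (emb (wsys (str h (wr ℓ))) q) (emb_equi (str h (wl ℓ)) p)
      (emb_equi (str h (wr ℓ)) q) y) = th RJ ℓ p' q' (prMap _ _ _ _
        (faL (str h (wl ℓ)) p' ∘ₗ emb (wsys (str h (wl ℓ))) p)
        (faL (str h (wr ℓ)) q' ∘ₗ emb (wsys (str h (wr ℓ))) q)
        (fun g v => (congrArg _ (emb_equi (str h (wl ℓ)) p g v)).trans
          (faL_equi (str h (wl ℓ)) p' g _))
        (fun g v => (congrArg _ (emb_equi (str h (wr ℓ)) q g v)).trans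
          (faL_equi (str h (wr ℓ)) q' g _)) y) := by
    intro p' q'
    refine (gp_apply h ℓ p' q' _).trans (congrArg (th RJ ℓ p' q') ?_)
    exact prMap_prMap _ _ _ _ _ _ _ _ _ _ _ _ _ _ _ _ _ _ (fun v => rfl) (fun v => rfl) y
  have hpq : gp h ℓ p q (prMap (iG RJ (wl ℓ) p).π (iG RJ (wr ℓ) q).π
      (WR (str h (wl ℓ))) (WR (str h (wr ℓ))) (emb (wsys (str h (wl ℓ))) p)
      (emb (wsys (str h (wr ℓ))) q) (emb_equi (str h (wl ℓ)) p)
      (emb_equi (str h (wr ℓ)) q) y) = fam z (apP p q) := by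
    refine (hgp p q).trans ((congrArg (th RJ ℓ p q) (prMap_id _ _ _ _ _ _ (fun v => ?_)
      (fun v => ?_) y)).trans hy)
    · exact fam_emb_self (wsys (str h (wl ℓ))) p v
    · exact fam_emb_self (wsys (str h (wr ℓ))) q v
  refine wt_ext h ℓ _ _ (fun p' q' => ?_) fun σ hσ => ?_
  · refine (fam_Xi h ℓ _ p' q').trans ?_
    by_cases h1 : wl ℓ ∘ p' = wl ℓ ∘ p
    · by_cases h2 : wr ℓ ∘ q' = wr ℓ ∘ q
      · refine (gp_nat h ℓ p p' q q' h1.symm h2.symm _).symm.trans ?_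
        refine (congrArg _ hpq).trans ?_
        exact (fam_S' z (apP p' q') (apP p q) ((ap_iff ℓ p p' q q').2 ⟨h1.symm, h2.symm⟩)).symm
      · refine Eq.trans ?_ (hz0 _ fun h3 => h2 ((ap_iff ℓ p' p q' q).1 h3).2).symm
        refine (hgp p' q').trans ((congrArg (th RJ ℓ p' q') (prMap_zr _ _ _ _ _ _ _ _
          (fun v => ?_) y)).trans (th RJ ℓ p' q').map_zero)
        exact (fam_emb (wsys (str h (wr ℓ))) q q' v).trans (if_neg h2)
    · refine Eq.trans ?_ (hz0 _ fun h3 => h1 ((ap_iff ℓ p' p q' q).1 h3).1).symm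
      refine (hgp p' q').trans ((congrArg (th RJ ℓ p' q') (prMap_zl _ _ _ _ _ _ _ _
        (fun v => ?_) y)).trans (th RJ ℓ p' q').map_zero)
      exact (fam_emb (wsys (str h (wl ℓ))) p p' v).trans (if_neg h1)
  · refine (fam_Xi0 h ℓ _ σ hσ).trans (hz0 σ fun h1 => hσ ⟨(p, q), h1⟩).symm

end

end

end Pool.Agent.Lib.MP_ca1492_al.L
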