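import Mathlib
import Pool.Agent.Lib.MP_ca1492_al.S5.ProdE

/-!
# MP_ca1492_al, S5/ProdI: the map is injective
-/

set_option autoImplicit false
set_option linter.unusedSectionVars false

namespace Pool.Agent.Lib.MP_ca1492_al.L

open Topology Matrix TensorProduct ValuativeRel CA1492 CA1492.PA
open Pool.Agent.Lib.MP_ca1492_al.P Pool.Agent.Lib.MP_ca1492_al.Q Pool.Agent.Lib.MP_ca1492_al.D5

noncomputable section

variable {F : Type} [Field F] [ValuativeRel F] [TopologicalSpace F]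
  [IsNonarchimedeanLocalField F]

/-- a tensor is determined by its components -/
def ten_comp {V₁ V₂ : Type} [AddCommGroup V₁] [Module ℂ V₁] [AddCommGroup V₂] [Module ℂ V₂]
    {K₁ K₂ : Type} [Fintype K₁] [Fintype K₂] (a : K₁ → V₁ →ₗ[ℂ] V₁) (b : K₂ → V₂ →ₗ[ℂ] V₂)
    (ha : ∑ i, a i = LinearMap.id) (hb : ∑ i, b i = LinearMap.id) (t : V₁ ⊗[ℂ] V₂)
    (h : ∀ i j, TensorProduct.map (a i) (b j) t = 0) : t = 0 := by
  have h1 : t = TensorProduct.mapBilinear (RingHom.id ℂ) V₁ V₂ V₁ V₂ (∑ i, a i) (∑ j, b j) t := by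
    rw [ha, hb]
    show t = TensorProduct.map LinearMap.id LinearMap.id t
    rw [TensorProduct.map_id]
    rfl
  rw [h1, map_sum]
  simp only [LinearMap.sum_apply, map_sum]
  refine Finset.sum_eq_zero fun i _ => Finset.sum_eq_zero fun j _ => ?_
  exact h _ _

section

variable {D : Dat} {RJ : D.J → GLRep F} {e : D.J → D.J → PowerSeries ℂ} {m k : ℕ}
variable (h : TwoD D RJ e) (ℓ : Fin (m + k) → D.J)

attribute [local irreducible] Xi gp th bφ bθ bΦ WR

def Xi_inj : Function.Injective (Xi h ℓ) := by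
  rw [injective_iff_map_eq_zero]
  intro x hx
  refine Subtype.ext (funext fun g => ?_)
  refine ten_comp (fun w => (bφ (str h (wl ℓ)) (ew w)).1) (fun w => (bφ (str h (wr ℓ)) (ew w)).1)
    (be_sum _) (be_sum _) (x.1 g) fun u u' => ?_
  by_cases h1 : ∃ p : Equiv.Perm (Fin m), wl ℓ ∘ p = u
  · obtain ⟨p, rfl⟩ := h1
    by_cases h2 : ∃ q : Equiv.Perm (Fin k), wr ℓ ∘ q = u'
    · obtain ⟨q, rfl⟩ := h2
      have h3 : gp h ℓ p q x = 0 := by
        have h4 := fam_Xi h ℓ x p q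
        rw [hx] at h4
        exact h4.symm
      have h5 : prMap (WR (str h (wl ℓ))) (WR (str h (wr ℓ)))
          (iG RJ (wl ℓ) p).π (iG RJ (wr ℓ) q).π (faL (str h (wl ℓ)) p) (faL (str h (wr ℓ)) q)
          (faL_equi (str h (wl ℓ)) p) (faL_equi (str h (wr ℓ)) q) x = 0 :=
        (th RJ ℓ p q).map_eq_zero_iff.1 ((gp_apply h ℓ p q x).symm.trans h3)
      have h6 : TensorProduct.map (faL (str h (wl ℓ)) p) (faL (str h (wr ℓ)) q) (x.1 g) = 0 :=
        congrFun (congrArg Subtype.val h5) g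
      have h7 : TensorProduct.map (emb (wsys (str h (wl ℓ))) p ∘ₗ faL (str h (wl ℓ)) p)
          (emb (wsys (str h (wr ℓ))) q ∘ₗ faL (str h (wr ℓ)) q) (x.1 g) = 0 := by
        rw [TensorProduct.map_comp, LinearMap.comp_apply]
        exact (congrArg _ h6).trans (map_zero _)
      rw [be_emb, be_emb]
      exact h7
    · rw [be_zero (str h (wr ℓ)) u' fun σ hσ => h2 ⟨σ, hσ⟩, TensorProduct.map_zero_right]
      rfl
  · rw [be_zero (str h (wl ℓ)) u fun σ hσ => h1 ⟨σ, hσ⟩, TensorProduct.map_zero_left]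
    rfl

end

end

end Pool.Agent.Lib.MP_ca1492_al.L
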