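import Mathlib
import Pool.Agent.Lib.MP_ca1492_al.PA.WInd
import Pool.Agent.Lib.MP_ca1492_al.S5.ProdG
import Pool.Agent.Lib.MP_ca1492_al.S5.ProdH
import Pool.Agent.Lib.MP_ca1492_al.S5.ProdI

/-!
# MP_ca1492_al, S5/Prod: products
-/

set_option autoImplicit false
set_option linter.unusedSectionVars false

namespace Pool.Agent.Lib.MP_ca1492_al.L

open Topology Matrix TensorProduct ValuativeRel CA1492 CA1492.PA
open Pool.Agent.Lib.MP_ca1492_al.P Pool.Agent.Lib.MP_ca1492_al.Q Pool.Agent.Lib.MP_ca1492_al.D5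

noncomputable section

variable {F : Type} [Field F] [ValuativeRel F] [TopologicalSpace F]
  [IsNonarchimedeanLocalField F]
variable {D : Dat} {RJ : D.J → GLRep F} {e : D.J → D.J → PowerSeries ℂ}

section

variable {m k : ℕ} (h : TwoD D RJ e) (ℓ : Fin (m + k) → D.J)

attribute [local irreducible] Xi gp th bφ bθ bΦ WR

def xe (u : Wd D m) (v : Wd D k) (x : mulSp (WR (str h (wl ℓ))) (WR (str h (wr ℓ)))) :
    (EndG (WR (str h ℓ))).val (bφ (str h ℓ) (ew (Fin.append u v))) (Xi h ℓ x) =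
      Xi h ℓ (acL _ _ (bφ (str h (wl ℓ)) (ew u)) (acR _ _ (bφ (str h (wr ℓ)) (ew v)) x)) :=
  (Xi_e h ℓ u v x).trans (congrArg (Xi h ℓ) (ac_eq _ _ _ _ x).symm)

def xθl (j : Fin m) (x : mulSp (WR (str h (wl ℓ))) (WR (str h (wr ℓ)))) :
    (EndG (WR (str h ℓ))).val (bθ (str h ℓ) (MvPowerSeries.X (Fin.castAdd k j))) (Xi h ℓ x) =
      Xi h ℓ (acL _ _ (bθ (str h (wl ℓ)) (MvPowerSeries.X j)) x) := by
  refine (Xi_θ h ℓ (MvPowerSeries.X j) 1 _ ?_ x).trans (congrArg (Xi h ℓ) ?_)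
  · rw [map_one, mul_one, MvPowerSeries.rename_X, MvPowerSeries.rename_X]
    rfl
  · have e1 : bθ (str h (wr ℓ)) 1 = 1 := map_one _
    have e2 : acR (WR (str h (wl ℓ))) (WR (str h (wr ℓ))) 1 = 1 := map_one _
    refine (ac_eq _ _ _ _ x).symm.trans (congrArg _ ?_)
    exact (congrArg (fun a => acR (WR (str h (wl ℓ))) (WR (str h (wr ℓ))) a x) e1).trans
      (congrArg (fun a : Module.End ℂ _ => a x) e2)

def xθr (j : Fin k) (x : mulSp (WR (str h (wl ℓ))) (WR (str h (wr ℓ)))) :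
    (EndG (WR (str h ℓ))).val (bθ (str h ℓ) (MvPowerSeries.X (Fin.natAdd m j))) (Xi h ℓ x) =
      Xi h ℓ (acR _ _ (bθ (str h (wr ℓ)) (MvPowerSeries.X j)) x) := by
  refine (Xi_θ h ℓ 1 (MvPowerSeries.X j) _ ?_ x).trans (congrArg (Xi h ℓ) ?_)
  · rw [map_one, one_mul, MvPowerSeries.rename_X, MvPowerSeries.rename_X]
    rfl
  · have e1 : bθ (str h (wl ℓ)) 1 = 1 := map_one _
    have e2 : acL (WR (str h (wl ℓ))) (WR (str h (wr ℓ))) 1 = 1 := map_one _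
    refine (ac_eq _ _ _ _ x).symm.trans ?_
    exact (congrArg (fun a => acL (WR (str h (wl ℓ))) (WR (str h (wr ℓ))) a _) e1).trans
      (congrArg (fun a : Module.End ℂ _ => a _) e2)

def xΦl (r : ℕ) (hr : r + 1 < m) (x : mulSp (WR (str h (wl ℓ))) (WR (str h (wr ℓ)))) :
    (EndG (WR (str h ℓ))).val (bΦ (str h ℓ) r) (Xi h ℓ x) =
      Xi h ℓ (acL _ _ (bΦ (str h (wl ℓ)) r) x) :=
  Xi_ΦL h ℓ r hr x

def xΦr (r : ℕ) (hr : r + 1 < k) (x : mulSp (WR (str h (wl ℓ))) (WR (str h (wr ℓ)))) :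
    (EndG (WR (str h ℓ))).val (bΦ (str h ℓ) (m + r)) (Xi h ℓ x) =
      Xi h ℓ (acR _ _ (bΦ (str h (wr ℓ)) r) x) :=
  Xi_ΦR h ℓ r hr x

def str_sm {n : ℕ} (ℓ : Fin n → D.J) : IsSm (WR (str h ℓ)) := bd_sm (str h ℓ)

/-- the action of the product of the algebras -/
def Xi_act (a : R D m) (b : R D k) (x : mulSp (WR (str h (wl ℓ))) (WR (str h (wr ℓ)))) :
    Xi h ℓ (mulMap (WR (str h (wl ℓ))) (WR (str h (wl ℓ))) (WR (str h (wr ℓ)))
        (WR (str h (wr ℓ))) (bφ (str h (wl ℓ)) a).1 (bφ (str h (wl ℓ)) a).2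
        (bφ (str h (wr ℓ)) b).1 (bφ (str h (wr ℓ)) b).2 x) =
      (bφ (str h ℓ) (iota D m k (a ⊗ₜ[ℂ] b))).1 (Xi h ℓ x) := by
  have h₁ := (b_spec (str h (wl ℓ))).2.2.2.2
  have h₂ := (b_spec (str h (wr ℓ))).2.2.2.2
  have h₃ := (b_spec (str h ℓ)).2.2.2.2
  have hne : ∀ {n : ℕ} (i j : Fin n), i ≠ j →
      (MvPowerSeries.X i - MvPowerSeries.X j : MvPowerSeries (Fin n) ℂ) ≠ 0 :=
    fun i j hij => PhiA_delta_ne hij
  have hS1 := S_left (acL (WR (str h (wl ℓ))) (WR (str h (wr ℓ))))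
    (acR (WR (str h (wl ℓ))) (WR (str h (wr ℓ)))) (EndG (WR (str h ℓ))).val (Xi h ℓ) h₁ h₂ h₃
    (ac_comm _ _) (xe h ℓ) (xθl h ℓ) (xΦl h ℓ)
    (fun i j hij => acL_surj _ _ _ (str_sm h (wl ℓ)) (str_sm h (wr ℓ))
      (bθ_surj _ _ (hne i j hij)))
  have hS2 := S_right (acL (WR (str h (wl ℓ))) (WR (str h (wr ℓ))))
    (acR (WR (str h (wl ℓ))) (WR (str h (wr ℓ)))) (EndG (WR (str h ℓ))).val (Xi h ℓ) h₁ h₂ h₃
    (ac_comm _ _) (xe h ℓ) (xθr h ℓ) (xΦr h ℓ)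
    (fun i j hij => acR_surj _ _ _ (str_sm h (wl ℓ)) (str_sm h (wr ℓ))
      (bθ_surj _ _ (hne i j hij)))
  have key := iota_act (bφ (str h (wl ℓ))) (bφ (str h (wr ℓ))) (bφ (str h ℓ))
    (acL (WR (str h (wl ℓ))) (WR (str h (wr ℓ)))) (acR (WR (str h (wl ℓ))) (WR (str h (wr ℓ))))
    (EndG (WR (str h ℓ))).val (Xi h ℓ) (ac_comm _ _) (xe h ℓ)
    (fun j x => (congrArg (fun a => (EndG (WR (str h ℓ))).val a (Xi h ℓ x))
      ((b_spec (str h ℓ)).1.θ_X _).symm).trans ((xθl h ℓ j x).trans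
        (congrArg (fun a => Xi h ℓ (acL _ _ a x)) ((b_spec (str h (wl ℓ))).1.θ_X j))))
    (fun j x => (congrArg (fun a => (EndG (WR (str h ℓ))).val a (Xi h ℓ x))
      ((b_spec (str h ℓ)).1.θ_X _).symm).trans ((xθr h ℓ j x).trans
        (congrArg (fun a => Xi h ℓ (acR _ _ a x)) ((b_spec (str h (wr ℓ))).1.θ_X j))))
    hS1 hS2 a b x
  exact (congrArg (Xi h ℓ) (ac_eq _ _ _ _ x).symm).trans key.symm

end

def xi_isXi {m k : ℕ} (h : TwoD D RJ e) (ℓ : Fin (m + k) → D.J) :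
    (sysB h (wl ℓ)).IsXi (sysB h (wr ℓ)) (sysB h ℓ) (sP RJ ℓ).e (Xi h ℓ) where
  equi g x := Xi_equi h ℓ g x
  inj := Xi_inj h ℓ
  surj := by
    rintro w ⟨p, rfl⟩ w' ⟨q, rfl⟩ z hz
    exact Xi_surj h ℓ p q z hz
  act a b x := Xi_act h ℓ a b x

def prod_key (h : TwoD D RJ e) {m k : ℕ} (v : Wd D m) (v' : Wd D k) (ℓ : Wd D (m + k))
    (h₁ : wl ℓ = v) (h₂ : wr ℓ = v') :
    ∃ (ε : (sysB h v).κ ⊕ (sysB h v').κ ≃ (sysB h ℓ).κ)
      (Ξ : mulSp (sysB h v).W (sysB h v').W →ₗ[ℂ] (sysB h ℓ).V),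
      (sysB h v).IsXi (sysB h v') (sysB h ℓ) ε Ξ := by
  subst h₁ h₂
  exact ⟨(sP RJ ℓ).e, Xi h ℓ, xi_isXi h ℓ⟩

def sys_prod (h : TwoD D RJ e) {m k : ℕ} (v : Wd D m) (v' : Wd D k) :
    ∃ (ε : (sysB h v).κ ⊕ (sysB h v').κ ≃ (sysB h (Fin.append v v')).κ)
      (Ξ : mulSp (sysB h v).W (sysB h v').W →ₗ[ℂ] (sysB h (Fin.append v v')).V),
      (sysB h v).IsXi (sysB h v') (sysB h (Fin.append v v')) ε Ξ :=
  prod_key h v v' (Fin.append v v') (funext fun x => Fin.append_left v v' x)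
    (funext fun x => Fin.append_right v v' x)

end

end Pool.Agent.Lib.MP_ca1492_al.L
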