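import Mathlib
import Pool.Agent.Lib.MP_ca1492_al.S5.Bc
import Pool.Agent.Lib.MP_ca1492_al.S5.Let
import Pool.Agent.Lib.MP_ca1492_al.S5.Orth
import Pool.Agent.Lib.MP_ca1492_al.S5.Prod

/-!
# MP_ca1492_al, S5/SysD: the system of block data
-/

set_option autoImplicit false

namespace Pool.Agent.Lib.MP_ca1492_al.L

open Topology Matrix TensorProduct ValuativeRel CA1492 CA1492.PA
open Pool.Agent.Lib.MP_ca1492_al.P Pool.Agent.Lib.MP_ca1492_al.Q Pool.Agent.Lib.MP_ca1492_al.D5

noncomputable section

variable {F : Type} [Field F] [ValuativeRel F] [TopologicalSpace F]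
  [IsNonarchimedeanLocalField F]
variable {D : Dat} {RJ : D.J → GLRep F} {e : D.J → D.J → PowerSeries ℂ}

/-- the system of block data of the letters -/
def sysD (h : TwoD D RJ e) : Sys D RJ where
  B v := sysB h v
  bc v σ := sys_bc h v σ
  orth v w hvw := sys_orth h v w hvw
  prod v v' := sys_prod h v v'
  letter j := sys_letter h j
  one v := sys_one h v

end

end Pool.Agent.Lib.MP_ca1492_al.L
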